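import Pool.Agent.MP_151d89_pr.H33.Defs

set_option autoImplicit false
open MeasureTheory Filter

namespace Pool.Agent.MP_151d89_pr.H33
open Pool.Agent.MP_151d89_pr.H82

namespace FinalAux

/-- extremality -/
def Ext (μ : Measure (ℤ × ℤ → ℤ)) : Prop :=
  ∀ ν₁, Gibbs ν₁ → ∀ ν₂, Gibbs ν₂ → ∀ t : ENNReal, 0 < t → t < 1 →
    μ = t • ν₁ + (1 - t) • ν₂ → ν₁ = ν₂

/-- isometries of the lattice -/
def Iso (φ : ℤ × ℤ ≃ ℤ × ℤ) : Prop :=
  ∀ x y : ℤ × ℤ, |(φ x).1 - (φ y).1| + |(φ x).2 - (φ y).2| = |x.1 - y.1| + |x.2 - y.2|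

theorem Iso.symm {φ : ℤ × ℤ ≃ ℤ × ℤ} (h : Iso φ) : Iso φ.symm := fun x y => by
  rw [← h, φ.apply_symm_apply, φ.apply_symm_apply]

/-- the action of the symmetries on height functions -/
def T (φ : ℤ × ℤ ≃ ℤ × ℤ) (ε c : ℤ) (f : ℤ × ℤ → ℤ) : ℤ × ℤ → ℤ := fun x => ε * f (φ x) + c

theorem meas_T (φ : ℤ × ℤ ≃ ℤ × ℤ) (ε c : ℤ) : Measurable (T φ ε c) :=
  measurable_pi_iff.2 fun x =>
    (Measurable.of_discrete (f := fun a : ℤ => ε * a + c)).comp (measurable_pi_apply (φ x))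

theorem T_T (φ : ℤ × ℤ ≃ ℤ × ℤ) {ε : ℤ} (h : ε * ε = 1) (c : ℤ) (f : ℤ × ℤ → ℤ) :
    T φ.symm ε (-(ε * c)) (T φ ε c f) = f := by
  funext x
  simp only [T, φ.apply_symm_apply]
  linear_combination f x * h

theorem T_T' (φ : ℤ × ℤ ≃ ℤ × ℤ) {ε : ℤ} (h : ε * ε = 1) (c : ℤ) (f : ℤ × ℤ → ℤ) :
    T φ ε c (T φ.symm ε (-(ε * c)) f) = f := by
  funext x
  simp only [T, φ.symm_apply_apply]
  linear_combination (f x - c) * h

/-- the symmetry as a measurable equivalence -/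
def E (φ : ℤ × ℤ ≃ ℤ × ℤ) {ε : ℤ} (h : ε * ε = 1) (c : ℤ) : (ℤ × ℤ → ℤ) ≃ᵐ (ℤ × ℤ → ℤ) where
  toFun := T φ ε c
  invFun := T φ.symm ε (-(ε * c))
  left_inv := T_T φ h c
  right_inv := T_T' φ h c
  measurable_toFun := meas_T φ ε c
  measurable_invFun := meas_T φ.symm ε _

theorem ae_T (μ : Measure (ℤ × ℤ → ℤ)) (φ : ℤ × ℤ ≃ ℤ × ℤ) {ε : ℤ} (h : ε * ε = 1) (c : ℤ)
    (p : (ℤ × ℤ → ℤ) → Prop) : (∀ᵐ g ∂(μ.map (T φ ε c)), p g) ↔ ∀ᵐ f ∂μ, p (T φ ε c f) :=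
  (E φ h c).measurableEmbedding.ae_map_iff

theorem hom_T {φ : ℤ × ℤ ≃ ℤ × ℤ} (hφ : Iso φ) {ε : ℤ} (h : ε * ε = 1) (c : ℤ) {f : ℤ × ℤ → ℤ}
    (hf : Hom f) : Hom (T φ ε c f) := by
  intro x y hxy
  have h1 := hf (φ x) (φ y) (by rw [hφ, hxy])
  have h2 : |ε| = 1 := by
    rcases Int.eq_one_or_neg_one_of_mul_eq_one h with rfl | rfl <;> simp
  have : T φ ε c f x - T φ ε c f y = ε * (f (φ x) - f (φ y)) := by simp only [T]; ring
  rw [this, abs_mul, h1, h2, mul_one]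

theorem gibbs_T {μ : Measure (ℤ × ℤ → ℤ)} (hμ : Gibbs μ) {φ : ℤ × ℤ ≃ ℤ × ℤ} (hφ : Iso φ) {ε : ℤ}
    (h : ε * ε = 1) (c : ℤ) : Gibbs (μ.map (T φ ε c)) := by
  have := hμ.1
  refine ⟨Measure.isProbabilityMeasure_map (meas_T φ ε c).aemeasurable, ?_, ?_⟩
  · rw [ae_T μ φ h]
    filter_upwards [hμ.2.1] with f hf using hom_T hφ h c hf
  intro Λ Δ a b ha hb hab hΔ
  have key : ∀ a : ℤ × ℤ → ℤ, μ.map (T φ ε c) {f | ∀ x ∈ Δ, f x = a x} =
      μ {f | ∀ x ∈ Δ.map φ.toEmbedding, f x = T φ.symm ε (-(ε * c)) a x} := by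
    intro a
    refine (Measure.map_apply (meas_T φ ε c) (meas_cyl Δ a)).trans ?_
    congr 1
    ext f
    simp only [cyl, Set.mem_preimage, Set.mem_ofPred_eq, Finset.mem_map_equiv, T]
    constructor
    · intro H x hx
      have := H _ hx
      rw [φ.apply_symm_apply] at this
      linear_combination ε * this - f x * h
    · intro H x hx
      have := H (φ x) (by rwa [φ.symm_apply_apply])
      rw [φ.symm_apply_apply] at this
      linear_combination ε * this + (a x - c) * h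
  rw [key, key]
  refine hμ.2.2 (Λ.map φ.toEmbedding) _ _ _ (hom_T hφ.symm h _ ha) (hom_T hφ.symm h _ hb) ?_ ?_
  · intro x hx
    rw [Finset.mem_map_equiv] at hx
    simp only [T, hab _ hx]
  · intro x hx
    simp only [Finset.mem_map_equiv] at hx ⊢
    exact ⟨(hΔ _ hx).1, fun y hy => (hΔ _ hx).2 _ (by rw [hφ.symm, hy])⟩

theorem ext_T {μ : Measure (ℤ × ℤ → ℤ)} (hμ : Ext μ) {φ : ℤ × ℤ ≃ ℤ × ℤ} (hφ : Iso φ) {ε : ℤ}
    (h : ε * ε = 1) (c : ℤ) : Ext (μ.map (T φ ε c)) := by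
  intro ν₁ h₁ ν₂ h₂ t t0 t1 e
  have e1 := congrArg (Measure.map (E φ h c).symm) e
  have e2 : Measure.map (E φ h c).symm (μ.map (T φ ε c)) = μ := (E φ h c).map_symm_map
  rw [e2, Measure.map_add _ _ (E φ h c).symm.measurable, Measure.map_smul, Measure.map_smul] at e1
  have e3 := hμ _ (gibbs_T h₁ hφ.symm h (-(ε * c))) _ (gibbs_T h₂ hφ.symm h (-(ε * c))) t t0 t1 e1
  exact (E φ h c).symm.map_measurableEquiv_injective e3

/-- the chart with origin v and axes e, g -/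
def chart (v e g : ℤ × ℤ) (he : |e.1| + |e.2| = 1) (hg : g = (-e.2, e.1) ∨ g = (e.2, -e.1)) :
    ℤ × ℤ ≃ ℤ × ℤ where
  toFun p := v + p.1 • e + p.2 • g
  invFun q := ((q.1 - v.1) * e.1 + (q.2 - v.2) * e.2, (q.1 - v.1) * g.1 + (q.2 - v.2) * g.2)
  left_inv p := by
    rcases unit_cases he with rfl | rfl | rfl | rfl <;> rcases hg with rfl | rfl <;> ext <;> simp
  right_inv p := by
    rcases unit_cases he with rfl | rfl | rfl | rfl <;> rcases hg with rfl | rfl <;> ext <;> simp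

theorem chart_apply (v e g : ℤ × ℤ) (he : |e.1| + |e.2| = 1)
    (hg : g = (-e.2, e.1) ∨ g = (e.2, -e.1)) (x y : ℤ) :
    chart v e g he hg (x, y) = v + x • e + y • g := rfl

theorem iso_chart (v e g : ℤ × ℤ) (he : |e.1| + |e.2| = 1)
    (hg : g = (-e.2, e.1) ∨ g = (e.2, -e.1)) : Iso (chart v e g he hg) := by
  rintro ⟨a, b⟩ ⟨c, d⟩
  rw [chart_apply, chart_apply]
  have h1 := abs_sub_comm a c
  have h2 := abs_sub_comm b d
  rcases unit_cases he with rfl | rfl | rfl | rfl <;> rcases hg with rfl | rfl <;>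
    simp only [Prod.fst_add, Prod.snd_add, Prod.smul_fst, Prod.smul_snd, smul_eq_mul, mul_one,
      mul_zero, add_zero, mul_neg, neg_zero, neg_neg, add_sub_add_left_eq_sub, neg_sub_neg] <;>
    omega

theorem move {f : ℤ × ℤ → ℤ} (hf : Hom f) {d : ℤ × ℤ} (hd : |d.1| + |d.2| = 1) (w u : ℤ × ℤ) (c : ℤ)
    (h : Tendsto (fun n : ℕ => ((f (w + (n : ℤ) • d) + c : ℤ) : ℝ) / (n : ℝ)) atTop (nhds 1)) :
    Tendsto (fun n : ℕ => ((f (u + (n : ℤ) • d) - f u : ℤ) : ℝ) / (n : ℝ)) atTop (nhds 1) := by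
  set K : ℤ := |w.1 - u.1| + |w.2 - u.2| + c + f u with hK
  have l1 : Tendsto (fun n : ℕ => ((f (w + (n : ℤ) • d) + c : ℤ) : ℝ) / (n : ℝ) - (K : ℝ) / (n : ℝ))
      atTop (nhds 1) := by
    simpa using h.sub (tendsto_const_div_atTop_nhds_zero_nat (K : ℝ))
  refine tendsto_of_tendsto_of_tendsto_of_le_of_le' l1 tendsto_const_nhds ?_ ?_
  · filter_upwards with n
    have h2 := (lip hf (w + (n : ℤ) • d) (u + (n : ℤ) • d)).1
    have h3 := ray_dist hd w u n n le_rfl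
    rw [← sub_div]
    refine div_le_div_of_nonneg_right ?_ (Nat.cast_nonneg n)
    have : f (w + (n : ℤ) • d) + c - K ≤ f (u + (n : ℤ) • d) - f u := by omega
    exact_mod_cast this
  · filter_upwards [eventually_gt_atTop 0] with n hn
    have hn' : (0 : ℝ) < n := by exact_mod_cast hn
    have h2 := (lip hf (u + (n : ℤ) • d) (u + ((0 : ℕ) : ℤ) • d)).1
    have h3 := ray_dist hd u u n 0 (Nat.zero_le _)
    simp only [sub_self, abs_zero, zero_add] at h3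
    simp only [Nat.cast_zero, zero_smul, add_zero, sub_zero] at h2 h3
    have : f (u + (n : ℤ) • d) - f u ≤ n := by omega
    rw [div_le_one hn']
    exact_mod_cast this

theorem core_chart (hC : CoreStmt) {μ : Measure (ℤ × ℤ → ℤ)} (hμ : Gibbs μ) (hext : Ext μ)
    (v e g : ℤ × ℤ) (he : |e.1| + |e.2| = 1) (hg : g = (-e.2, e.1) ∨ g = (e.2, -e.1)) (c : ℤ)
    (h0 : ∀ᵐ f ∂μ, ∀ x : ℤ, f (v + x • e) + c ≤ -x)
    (h1 : ∀ᵐ f ∂μ, ∀ᶠ n : ℕ in atTop, f (v + (n : ℤ) • e + g) + c = 1 - (n : ℤ)) :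
    ∃ d : ℤ × ℤ, |d.1| + |d.2| = 1 ∧ ∀ u : ℤ × ℤ, ∀ᵐ f ∂μ,
      Tendsto (fun n : ℕ => ((f (u + (n : ℤ) • d) - f u : ℤ) : ℝ) / (n : ℝ)) atTop (nhds 1) := by
  have hφ := iso_chart v e g he hg
  have g1 := gibbs_T hμ hφ (one_mul 1) c
  have g2 := ext_T hext hφ (one_mul 1) c
  have := hC _ g1 (fun S hS hi h => zero_one g1 g2 hS hi h)
    (by rw [ae_T μ _ (one_mul 1)]; simpa [T, chart_apply] using h0)
    (by rw [ae_T μ _ (one_mul 1)]; simpa [T, chart_apply] using h1)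
  rw [ae_T μ _ (one_mul 1), ae_T μ _ (one_mul 1)] at this
  rcases this with h | h
  · have hd : |(-e).1| + |(-e).2| = 1 := by simpa using he
    refine ⟨-e, hd, fun u => ?_⟩
    filter_upwards [h, hμ.2.1] with f hf hh
    exact move hh hd v u c (by simpa [T, chart_apply] using hf)
  · have hd : |g.1| + |g.2| = 1 := by rcases hg with rfl | rfl <;> simpa [add_comm] using he
    refine ⟨g, hd, fun u => ?_⟩
    filter_upwards [h, hμ.2.1] with f hf hh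
    exact move hh hd v u c (by simpa [T, chart_apply] using hf)

theorem mono {f : ℤ × ℤ → ℤ} (hf : Hom f) {e : ℤ × ℤ} (he : |e.1| + |e.2| = 1) (w : ℤ × ℤ) :
    Monotone fun x : ℤ => f (w + x • e) + x := by
  refine monotone_int_of_le_succ fun x => ?_
  have := hf (w + x • e) (w + (x + 1) • e) (by
    rcases unit_cases he with rfl | rfl | rfl | rfl <;> simp)
  rw [abs_eq (by norm_num)] at this
  omega

theorem const {μ : Measure (ℤ × ℤ → ℤ)} (hμ : Gibbs μ) (hext : Ext μ) {e : ℤ × ℤ}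
    (he : |e.1| + |e.2| = 1) (w : ℤ × ℤ) (M : ℤ)
    (h : ∀ᵐ f ∂μ, ∀ n : ℕ, f (w + (n : ℤ) • e) + n ≤ M) :
    ∃ m : ℤ, (∀ᵐ f ∂μ, ∀ᶠ n : ℕ in atTop, f (w + (n : ℤ) • e) + n = m) ∧
      ∀ᵐ f ∂μ, ∀ x : ℤ, f (w + x • e) + x ≤ m := by
  have := hμ.1
  let S : ℤ → Set (ℤ × ℤ → ℤ) := fun m => {f | ∀ᶠ n : ℕ in atTop, f (w + (n : ℤ) • e) + n = m}
  have hS : ∀ m, MeasurableSet (S m) := fun m => by
    have : S m = ⋃ N : ℕ, ⋂ n : ℕ, ⋂ _ : N ≤ n,
        (fun f : ℤ × ℤ → ℤ => f (w + (n : ℤ) • e)) ⁻¹' {a | a + n = m} := by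
      ext f; simp [S, eventually_atTop]
    rw [this]
    exact MeasurableSet.iUnion fun N => MeasurableSet.iInter fun n => MeasurableSet.iInter fun _ =>
      measurable_pi_apply _ (MeasurableSet.of_discrete)
  have hI : ∀ m Λ b, rep Λ b ⁻¹' S m = S m := fun m Λ b => by
    ext f
    simp only [S, Set.mem_preimage, Set.mem_ofPred_eq]
    refine eventually_congr ?_
    filter_upwards [ray_out he w Λ] with n hn
    simp only [rep, if_neg hn]
  have h2 : ∀ᵐ f ∂μ, f ∈ ⋃ m, S m := by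
    filter_upwards [h, hμ.2.1] with f hf hh
    obtain ⟨m, ⟨N, hN⟩, hm⟩ := Int.exists_greatest_of_bdd
      (P := fun m => ∃ n : ℕ, f (w + (n : ℤ) • e) + n = m) ⟨M, fun z ⟨n, hn⟩ => hn ▸ hf n⟩
      ⟨_, 0, rfl⟩
    refine Set.mem_iUnion.2 ⟨m, ?_⟩
    filter_upwards [eventually_ge_atTop N] with n hn
    exact le_antisymm (hm _ ⟨n, rfl⟩) (hN ▸ mono hh he w (by exact_mod_cast hn))
  obtain ⟨m, hm⟩ : ∃ m, μ (S m) ≠ 0 := by
    by_contra hc
    push Not at hc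
    have z' := measure_eq_zero_iff_ae_notMem.1 (measure_iUnion_null hc)
    obtain ⟨f, h, h'⟩ := (h2.and z').exists
    exact h' h
  have h5 : ∀ᵐ f ∂μ, f ∈ S m := zero_one hμ hext (hS m) (hI m) hm
  refine ⟨m, h5, ?_⟩
  filter_upwards [h5, hμ.2.1] with f hf hh x
  obtain ⟨n, hn, hle⟩ := (hf.and (eventually_ge_atTop x.toNat)).exists
  exact hn ▸ mono hh he w (by omega)

end FinalAux

open FinalAux in
theorem final (hC : CoreStmt) : FinalStmt := by
  intro μ hμ hext v m hm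
  have := hμ.1
  have hr : Iso (Equiv.refl _) := fun _ _ => rfl
  have h11 : (-1 : ℤ) * -1 = 1 := by norm_num
  obtain ⟨e, he, h⟩ := main (gibbs_T hμ hr h11 0) (ext_T hext hr h11 0) v (-m) (by
    rw [ae_T μ _ h11]
    filter_upwards [hm] with f hf
    simpa [T] using hf)
  rw [ae_T μ _ h11] at h
  have h0 : ∀ᵐ f ∂μ, ∀ n : ℕ, f (v + (n : ℤ) • e) + n ≤ m := by
    filter_upwards [h] with f hf n
    have := hf.2 n
    simp only [T, Equiv.refl_apply] at this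
    omega
  set g : ℤ × ℤ := (-e.2, e.1) with hg
  have adj : ∀ f, Hom f → ∀ n : ℤ, |f (v + g + n • e) - f (v + n • e)| = 1 := fun f hf n =>
    hf _ _ (by
      rw [← Prod.fst_sub, ← Prod.snd_sub, add_right_comm, add_sub_cancel_left]
      simpa [hg, add_comm] using he)
  have h1 : ∀ᵐ f ∂μ, ∀ n : ℕ, f (v + g + (n : ℤ) • e) + n ≤ m + 1 := by
    filter_upwards [h0, hμ.2.1] with f hf hh n
    have h2 := hf n
    have h3 := adj f hh n
    rw [abs_eq (by norm_num)] at h3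
    omega
  obtain ⟨m0, a0, b0⟩ := const hμ hext he v m h0
  obtain ⟨m1, a1, b1⟩ := const hμ hext he (v + g) (m + 1) h1
  have hm01 : m1 = m0 + 1 ∨ m0 = m1 + 1 := by
    obtain ⟨f, ⟨f0, f1⟩, hh⟩ := ((a0.and a1).and hμ.2.1).exists
    obtain ⟨n, n0, n1⟩ := (f0.and f1).exists
    have h3 := adj f hh n
    rw [abs_eq (by norm_num)] at h3
    omega
  rcases hm01 with h01 | h01
  · refine core_chart hC hμ hext v e g he (Or.inl hg) (-m0) ?_ ?_
    · filter_upwards [b0] with f hf x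
      have := hf x
      omega
    · filter_upwards [a1] with f hf
      filter_upwards [hf] with n hn
      rw [add_right_comm]
      omega
  · refine core_chart hC hμ hext (v + g) e (-g) he (Or.inr (by simp [hg])) (-m1) ?_ ?_
    · filter_upwards [b1] with f hf x
      have := hf x
      omega
    · filter_upwards [a0] with f hf
      filter_upwards [hf] with n hn
      rw [add_right_comm, add_neg_cancel_right]
      omega

end Pool.Agent.MP_151d89_pr.H33
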