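import Pool.Agent.MP_151d89_pr.H33.Model

set_option autoImplicit false
open MeasureTheory Filter

namespace Pool.Agent.MP_151d89_pr.H33

namespace BaseAux

theorem nb_neg (q : ℝ) (n : ℕ) : ∀ m : ℤ, m < 0 → nb q n m = 0 := by
  induction n with
  | zero => intro m hm; exact if_neg hm.ne
  | succ n ih =>
    intro m hm
    rw [nb, ENNReal.tsum_eq_zero]
    intro a
    rw [ih _ (by omega), mul_zero]

theorem nb_le_one {q : ℝ} (h0 : 0 < q) (h1 : q < 1) (n : ℕ) : ∀ m : ℤ, nb q n m ≤ 1 := by
  induction n with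
  | zero => intro m; rw [nb]; split_ifs <;> simp
  | succ n ih =>
    intro m
    rw [nb, ← w_sum h0 h1]
    exact ENNReal.tsum_le_tsum fun a => mul_le_of_le_one_right' (ih _)

theorem w_eq {q : ℝ} (h0 : 0 < q) (h1 : q < 1) (a : ℕ) :
    w q a = ENNReal.ofReal (1 - q) * ENNReal.ofReal q ^ a := by
  rw [w, ENNReal.ofReal_mul (by linarith), ENNReal.ofReal_pow h0.le]

theorem nb_zero_ge {q : ℝ} (h0 : 0 < q) (h1 : q < 1) (n : ℕ) :
    ENNReal.ofReal (1 - q) ^ n ≤ nb q n 0 := by
  induction n with
  | zero => simp [nb]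
  | succ n ih =>
    rw [nb]
    refine le_trans ?_ (ENNReal.le_tsum 0)
    rw [w_eq h0 h1, pow_zero, mul_one, pow_succ', Nat.cast_zero, sub_zero]
    exact mul_le_mul_right ih _

theorem nb_ge {q : ℝ} (h0 : 0 < q) (h1 : q < 1) {n : ℕ} (hn : 1 ≤ n) (e : ℕ) :
    ENNReal.ofReal (1 - q) ^ n * ENNReal.ofReal q ^ e ≤ nb q n e := by
  obtain ⟨n, rfl⟩ : ∃ n', n = n' + 1 := ⟨n - 1, by omega⟩
  rw [nb]
  refine le_trans ?_ (ENNReal.le_tsum e)
  rw [w_eq h0 h1, sub_self, pow_succ', mul_right_comm]
  exact mul_le_mul_right (nb_zero_ge h0 h1 n) _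

/-- separated lines do not interact -/
theorem sep (q : ℝ) {k : ℕ} (m : ℕ) (t : St k) (n : ℕ) : ∀ l : St k,
    (∀ i j : Fin k, i.val + 1 = j.val → t j < l i) →
    (∏ j, nb q n (t j - l j)) * hh q m t ≤ hh q (n + m) l := by
  induction n with
  | zero =>
    intro l _
    by_cases h : t = l
    · simp [h, nb]
    · obtain ⟨j, hj⟩ := Function.ne_iff.1 h
      rw [Finset.prod_eq_zero (Finset.mem_univ j) (if_neg (sub_ne_zero.2 hj)), zero_mul]
      exact bot_le
  | succ n ih =>
    intro l hl
    rw [show n + 1 + m = n + m + 1 by omega, hh_succ, P]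
    simp only [nb]
    rw [← tsum_pi k fun j a => w q a * nb q n (t j - l j - a), ← ENNReal.tsum_mul_right]
    refine ENNReal.tsum_le_tsum fun a => ?_
    rw [Finset.prod_mul_distrib, mul_assoc]
    refine mul_le_mul_right ?_ _
    by_cases h : ∀ j, l j + a j ≤ t j
    · have h2 : Rel l (add l a) := by
        refine ⟨fun j => by simp [add], fun i j hij => ?_⟩
        have := hl i j hij
        have := h j
        simp only [add]
        omega
      rw [if_pos h2]
      refine le_trans (le_of_eq ?_) (ih (add l a) fun i j hij => ?_)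
      · simp only [add, sub_sub]
      · have := hl i j hij
        simp only [add]
        omega
    · obtain ⟨j, hj⟩ := not_forall.1 h
      rw [Finset.prod_eq_zero (Finset.mem_univ j) (nb_neg q n _ (by omega)), zero_mul]
      exact bot_le

theorem blocks (q : ℝ) {k : ℕ} (B : ℕ) (x : ℕ → St k)
    (h : ∀ b, ∀ i j : Fin k, i.val + 1 = j.val → x (b + 1) j < x b i) (n : ℕ) : ∀ m : ℕ,
    (∏ b ∈ Finset.range n, ∏ j, nb q B (x (b + 1) j - x b j)) * hh q m (x n) ≤
      hh q (B * n + m) (x 0) := by
  induction n with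
  | zero => intro m; simp
  | succ n ih =>
    intro m
    rw [Finset.prod_range_succ, mul_assoc, show B * (n + 1) + m = B * n + (B + m) by ring]
    exact (mul_le_mul_right (sep q m _ B _ (h n)) _).trans (ih _)

/-- displacement of a line that waits `M` blocks, jumps by `e`, and then moves by `d` -/
def ds (d M e b : ℕ) : ℤ := if M < b then e + d * ((b : ℤ) - M - 1) else 0

theorem ds_nonneg (d M e b : ℕ) : 0 ≤ ds d M e b := by
  unfold ds
  split_ifs with h
  · have : (0 : ℤ) ≤ (b : ℤ) - M - 1 := by omega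
    positivity
  · exact le_rfl

theorem ds_sep {d M e M' e' : ℕ} (hM : M < M') (he : e' ≤ e) (b : ℕ) :
    ds d M' e' (b + 1) ≤ ds d M e b := by
  by_cases h : M' < b + 1
  · rw [ds, ds, if_pos h, if_pos (by omega)]
    have h1 : (((b + 1 : ℕ) : ℤ) - M' - 1) ≤ (b : ℤ) - M - 1 := by omega
    have h2 := mul_le_mul_of_nonneg_left h1 (Int.natCast_nonneg d)
    omega
  · rw [ds, if_neg h]
    exact ds_nonneg _ _ _ _

theorem line {q : ℝ} (h0 : 0 < q) (h1 : q < 1) {B : ℕ} (hB : 1 ≤ B) (d M e : ℕ) {n : ℕ}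
    (hn : M < n) :
    (ENNReal.ofReal (1 - q) ^ B) ^ (M + 1) * ENNReal.ofReal q ^ e * nb q B d ^ n ≤
      ∏ b ∈ Finset.range n, nb q B (ds d M e (b + 1) - ds d M e b) := by
  have e1 : (ENNReal.ofReal (1 - q) ^ B) ^ (M + 1) =
      ∏ b ∈ Finset.range n, if b < M + 1 then ENNReal.ofReal (1 - q) ^ B else 1 := by
    have h : (Finset.range n).filter (fun b => b < M + 1) = Finset.range (M + 1) := by
      ext b
      simp only [Finset.mem_range, Finset.mem_filter]
      omega
    rw [← Finset.prod_filter, h, Finset.prod_const, Finset.card_range]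
  have e2 : ENNReal.ofReal q ^ e =
      ∏ b ∈ Finset.range n, if b = M then ENNReal.ofReal q ^ e else 1 := by
    rw [Finset.prod_ite_eq', if_pos (Finset.mem_range.2 hn)]
  have e3 : nb q B d ^ n = ∏ _b ∈ Finset.range n, nb q B d := by
    rw [Finset.prod_const, Finset.card_range]
  rw [e1, e2, e3, ← Finset.prod_mul_distrib, ← Finset.prod_mul_distrib]
  refine Finset.prod_le_prod' fun b _ => ?_
  rcases lt_trichotomy b M with h | rfl | h
  · rw [if_pos (by omega), if_neg h.ne, ds, ds, if_neg (by omega), if_neg (by omega), mul_one,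
      sub_zero]
    exact (mul_le_of_le_one_right' (nb_le_one h0 h1 _ _)).trans (nb_zero_ge h0 h1 B)
  · rw [if_pos (by omega), if_pos rfl, ds, ds, if_pos (by omega), if_neg (by omega)]
    refine (mul_le_of_le_one_right' (nb_le_one h0 h1 _ _)).trans
      ((nb_ge h0 h1 hB e).trans_eq (congrArg _ ?_))
    push_cast
    ring
  · rw [if_neg (by omega), if_neg h.ne', ds, ds, if_pos (by omega), if_pos h, one_mul, one_mul]
    refine le_of_eq (congrArg _ ?_)
    push_cast
    ring

end BaseAux

open BaseAux in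
theorem base : BaseStmt := by
  intro q h0 h1 k s0 K B d bf m l hB hd hl hbf
  let M : Fin k → ℕ := fun j => j.val + (l K - l j).toNat / d
  let e : Fin k → ℕ := fun j => (l j - l K).toNat
  let x : ℕ → St k := fun b j => s0 - j.val + ds d (M j) (e j) b
  have hM : ∀ i j : Fin k, i.val + 1 = j.val → M i < M j ∧ e j ≤ e i := by
    intro i j hij
    have h2 := hl i j hij
    have h3 : (l K - l i).toNat / d ≤ (l K - l j).toNat / d := Nat.div_le_div_right (by omega)
    simp only [M, e]
    omega
  have hx : x 0 = st k s0 := by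
    funext j
    simp [x, ds, st]
  have h2 := blocks q B x (fun b i j hij => by
    have := ds_sep (d := d) (hM i j hij).1 (hM i j hij).2 b
    simp only [x]
    omega) bf m
  rw [hx] at h2
  refine le_trans (mul_le_mul' ?_ (hh_gap q m fun i j hij => ?_)) h2
  · rw [Finset.prod_comm]
    refine le_trans (le_of_eq ?_) (Finset.prod_le_prod' fun j _ =>
      (line h0 h1 hB d (M j) (e j) (hbf j)).trans_eq (Finset.prod_congr rfl fun b _ => ?_))
    · rw [Finset.prod_mul_distrib, Finset.prod_mul_distrib, Finset.prod_pow_eq_pow_sum,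
        Finset.prod_pow_eq_pow_sum, Finset.prod_const, Finset.card_univ, Fintype.card_fin,
        ← pow_mul, ← pow_mul, ENNReal.ofReal_mul (pow_nonneg (by linarith) _),
        ENNReal.ofReal_pow (by linarith), ENNReal.ofReal_pow h0.le, mul_comm bf k,
        Finset.sum_congr rfl fun j _ => (Nat.add_right_comm j.val 1 _)]
    · simp only [x, add_sub_add_left_eq_sub]
  · have h3 := Nat.div_add_mod (l K - l i).toNat d
    have h4 := Nat.div_add_mod (l K - l j).toNat d
    have h5 := Nat.mod_lt (l K - l j).toNat hd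
    have h6 : (j.val : ℤ) = i.val + 1 := by omega
    have h7 : x bf i - x bf j = 1 + e i - e j + d +
        ((d * ((l K - l j).toNat / d) : ℕ) : ℤ) - ((d * ((l K - l i).toNat / d) : ℕ) : ℤ) := by
      simp only [x, ds, M, if_pos (hbf i), if_pos (hbf j), Nat.cast_add, Nat.cast_mul, h6]
      ring
    rw [h7]
    simp only [e]
    omega

end Pool.Agent.MP_151d89_pr.H33
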