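import Pool.Agent.MP_151d89_pr.H33.Defs

set_option autoImplicit false

namespace Pool.Agent.MP_151d89_pr.H33

namespace BlockAux

lemma nb_neg (q : ℝ) : ∀ (n : ℕ) (m : ℤ), m < 0 → nb q n m = 0
  | 0, m, h => by simp [nb, h.ne]
  | n + 1, m, h => by
    rw [nb]
    refine ENNReal.tsum_eq_zero.2 fun a => ?_
    rw [nb_neg q n (m - a) (by omega), mul_zero]

lemma geo {q z : ℝ} (h0 : 0 ≤ q) (h1 : q ≤ 1) (hz : 0 ≤ z) (hq : q * z < 1) :
    ∑' a : ℕ, w q a * ENNReal.ofReal z ^ a = ENNReal.ofReal ((1 - q) / (1 - q * z)) := by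
  have e : ∀ a : ℕ, w q a * ENNReal.ofReal z ^ a = ENNReal.ofReal ((1 - q) * (q * z) ^ a) := fun a => by
    rw [w, ← ENNReal.ofReal_pow hz, ← ENNReal.ofReal_mul (by have := sub_nonneg.2 h1; positivity),
      mul_pow, mul_assoc]
  have hs := (hasSum_geometric_of_lt_one (mul_nonneg h0 hz) hq).mul_left (1 - q)
  simp only [e]
  rw [← ENNReal.ofReal_tsum_of_nonneg (fun a => by have := sub_nonneg.2 h1; positivity) hs.summable,
    hs.tsum_eq, div_eq_mul_inv]

lemma gf {q z : ℝ} (h0 : 0 ≤ q) (h1 : q ≤ 1) (hz : 0 ≤ z) (hq : q * z < 1) : ∀ n : ℕ,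
    ∑' m : ℕ, nb q n m * ENNReal.ofReal z ^ m = ENNReal.ofReal ((1 - q) / (1 - q * z)) ^ n
  | 0 => by
    rw [tsum_eq_single 0 fun m hm => by simp [nb, hm]]
    simp [nb]
  | n + 1 => by
    have sh : ∀ a : ℕ, ∑' m : ℕ, w q a * nb q n ((m : ℤ) - a) * ENNReal.ofReal z ^ m
        = w q a * ENNReal.ofReal z ^ a * ENNReal.ofReal ((1 - q) / (1 - q * z)) ^ n := fun a => by
      rw [← gf h0 h1 hz hq n, ← ENNReal.tsum_mul_left,
        ← (add_right_injective a).tsum_eq (f := fun m : ℕ =>
          w q a * nb q n ((m : ℤ) - a) * ENNReal.ofReal z ^ m)]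
      · refine tsum_congr fun m => ?_
        rw [Nat.cast_add, add_sub_cancel_left, pow_add]
        ring
      · intro m hm
        by_contra c
        refine hm ?_
        have : m < a := by
          by_contra d
          exact c ⟨m - a, by beta_reduce; omega⟩
        beta_reduce
        rw [nb_neg q n _ (by omega), mul_zero, zero_mul]
    simp only [nb, ← ENNReal.tsum_mul_right]
    rw [ENNReal.tsum_comm]
    simp only [sh]
    rw [ENNReal.tsum_mul_right, geo h0 h1 hz hq, pow_succ']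

end BlockAux

open BlockAux

theorem block : BlockStmt := by
  intro q0 q1 h0 h1
  rcases le_or_gt q1 0 with hq1 | hq1
  · exact ⟨1, 1, le_rfl, le_rfl, fun q a b => absurd (h0.trans_le (a.trans (b.trans hq1))) (lt_irrefl _)⟩
  obtain ⟨c0, hc0⟩ := exists_pow_lt_of_lt_one (show (0 : ℝ) < 1 / 8 by norm_num)
    (show 1 - q0 / 2 < 1 by linarith)
  set z : ℝ := 2 / (1 + q1) with hz
  have z1 : 1 < z := by rw [hz, lt_div_iff₀ (by linarith)]; linarith
  have z0 : 0 < z := by linarith
  set A : ℝ := (1 + q1) / (1 - q1) with hA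
  obtain ⟨c', hc'⟩ := pow_unbounded_of_one_lt (4 * A) z1
  refine ⟨c0 + 1, 4 * c' * (c0 + 1) + 1, by omega, by omega, fun q a b d0 hd => ?_⟩
  by_contra! hc
  set n := (c0 + 1) * d0 with hn
  set N := c' * n with hN
  set ε : ℝ := 1 / (((4 * c' * (c0 + 1) + 1 : ℕ) : ℝ) * d0) with hε
  have q0' : 0 < q := h0.trans_le a
  have q1' : q < 1 := b.trans_lt h1
  have qz : q * z < 1 := by
    rw [hz, ← mul_div_assoc, div_lt_one (by linarith)]; linarith
  have key : ∀ m : ℕ, nb q n m * ENNReal.ofReal 1 ^ m ≤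
      ENNReal.ofReal (2 ^ d0) * (nb q n m * ENNReal.ofReal (1 / 2) ^ m)
      + ENNReal.ofReal (1 / z ^ N) * (nb q n m * ENNReal.ofReal z ^ m)
      + if m ∈ Finset.range N then ENNReal.ofReal ε else 0 := fun m => by
    rw [ENNReal.ofReal_one, one_pow, mul_one]
    rcases lt_or_ge m d0 with h | h
    · refine le_add_right (le_add_right ?_)
      rw [mul_left_comm, ← ENNReal.ofReal_pow (by norm_num), ← ENNReal.ofReal_mul (by positivity)]
      refine le_mul_of_one_le_right' (ENNReal.one_le_ofReal.2 ?_)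
      rw [one_div, inv_pow, ← div_eq_mul_inv, one_le_div (by positivity)]
      exact pow_le_pow_right₀ one_le_two h.le
    rcases lt_or_ge m N with h' | h'
    · rw [if_pos (Finset.mem_range.2 h')]
      exact le_add_left (hc m h).le
    · refine le_add_right (le_add_left ?_)
      rw [mul_left_comm, ← ENNReal.ofReal_pow z0.le, ← ENNReal.ofReal_mul (by positivity)]
      refine le_mul_of_one_le_right' (ENNReal.one_le_ofReal.2 ?_)
      rw [one_div, mul_comm, ← div_eq_mul_inv, one_le_div (by positivity)]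
      exact pow_le_pow_right₀ z1.le h'
  have s := ENNReal.tsum_le_tsum key
  rw [ENNReal.tsum_add, ENNReal.tsum_add, ENNReal.tsum_mul_left, ENNReal.tsum_mul_left,
    gf q0'.le q1'.le zero_le_one (by linarith), gf q0'.le q1'.le (by norm_num) (by linarith),
    gf q0'.le q1'.le z0.le qz, tsum_eq_sum (s := Finset.range N) (fun m hm => if_neg hm),
    Finset.sum_congr rfl (fun m hm => if_pos hm), Finset.sum_const, Finset.card_range, mul_one,
    div_self (by linarith), ENNReal.ofReal_one, one_pow] at s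
  have d0' : (0 : ℝ) < d0 := by exact_mod_cast hd
  have r0 : 0 ≤ (1 - q) / (1 - q * (1 / 2)) := div_nonneg (by linarith) (by linarith)
  have r1 : 0 ≤ (1 - q) / (1 - q * z) := div_nonneg (by linarith) (by linarith)
  have t1 : (2 : ℝ) ^ d0 * ((1 - q) / (1 - q * (1 / 2))) ^ n ≤ 1 / 4 := by
    have u1 : (1 - q) / (1 - q * (1 / 2)) ≤ 1 - q0 / 2 := by
      rw [div_le_iff₀ (by linarith)]; nlinarith
    have u2 : ((1 - q) / (1 - q * (1 / 2))) ^ (c0 + 1) ≤ 1 / 8 := by
      refine (pow_le_pow_left₀ r0 u1 _).trans ?_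
      rw [pow_succ]
      exact (mul_le_of_le_one_right (pow_nonneg (r0.trans u1) _) (by linarith)).trans hc0.le
    rw [hn, pow_mul, ← mul_pow]
    refine (pow_le_pow_left₀ (by positivity) (show _ ≤ (1 / 4 : ℝ) by linarith) _).trans ?_
    exact pow_le_of_le_one (by norm_num) (by norm_num) (by omega)
  have t2 : 1 / z ^ N * ((1 - q) / (1 - q * z)) ^ n ≤ 1 / 4 := by
    have u1 : (1 - q) / (1 - q * z) ≤ A := by
      have : 1 - q1 * z = (1 - q1) / (1 + q1) := by rw [hz]; field_simp; ring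
      have u : (1 - q1) / (1 + q1) ≤ 1 - q * z := by rw [← this]; nlinarith
      calc (1 - q) / (1 - q * z) ≤ 1 / ((1 - q1) / (1 + q1)) :=
            div_le_div₀ zero_le_one (by linarith) (div_pos (by linarith) (by linarith)) u
        _ = A := by rw [hA, one_div_div]
    rw [hN, pow_mul, ← one_div_pow, ← mul_pow]
    have u2 : 1 / z ^ c' * ((1 - q) / (1 - q * z)) ≤ 1 / 4 := by
      rw [one_div_mul_eq_div, div_le_iff₀ (by positivity)]; linarith
    refine (pow_le_pow_left₀ (by positivity) u2 _).trans ?_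
    exact pow_le_of_le_one (by norm_num) (by norm_num) (by positivity)
  have t3 : (N : ℝ) * ε ≤ 1 / 4 := by
    rw [hε, hN, hn, mul_one_div, div_le_iff₀ (by positivity)]
    push_cast
    nlinarith
  have e0 : 0 ≤ ε := by positivity
  rw [← ENNReal.ofReal_pow r0, ← ENNReal.ofReal_pow r1, ← ENNReal.ofReal_mul (by positivity),
    ← ENNReal.ofReal_mul (by positivity), nsmul_eq_mul, ← ENNReal.ofReal_natCast,
    ← ENNReal.ofReal_mul (by positivity), ← ENNReal.ofReal_add (by positivity) (by positivity),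
    ← ENNReal.ofReal_add (by positivity) (by positivity), ENNReal.one_le_ofReal] at s
  linarith

end Pool.Agent.MP_151d89_pr.H33
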