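import Pool.Agent.MP_151d89_pr.H33.Defs

set_option autoImplicit false

namespace Pool.Agent.MP_151d89_pr.H33
open Pool.Agent.MP_151d89_pr.H82
open scoped FinsetFamily

namespace CmpAux

variable {k : ℕ}

/-- number of lines to the right of a site -/
def cc (l : St k) (X : ℤ) : ℕ := (Finset.univ.filter fun j => X ≤ l j).card

/-- height function of a path -/
def ht (x : ℕ → St k) : ℤ × ℤ → ℤ := fun p => p.2 - p.1 - 2 * cc (x p.2.toNat) p.1

/-- strictly decreasing rows -/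
def SA (l : St k) : Prop := ∀ i j : Fin k, i.val + 1 = j.val → l j < l i

theorem SA.anti {l : St k} (h : SA l) : Antitone l := by
  have h1 : ∀ d : ℕ, ∀ i j : Fin k, j.val = i.val + d → l j ≤ l i := by
    intro d
    induction d with
    | zero => exact fun i j e => (congrArg l (Fin.ext e)).le
    | succ d ih =>
      intro i j e
      have h2 : i.val + d < k := by omega
      exact (h ⟨_, h2⟩ j (by simp only; omega)).le.trans (ih i ⟨_, h2⟩ rfl)
  exact fun i j hij => h1 (j.val - i.val) i j (by have := Fin.le_def.1 hij; omega)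

theorem cc_le (l : St k) (X : ℤ) : cc l X ≤ k := by
  simpa [cc] using Finset.card_le_univ (Finset.univ.filter fun j => X ≤ l j)

theorem key {l : St k} (h : Antitone l) (X : ℤ) (j : Fin k) : j.val < cc l X ↔ X ≤ l j :=
  Tuple.lt_card_ge_iff_apply_ge_of_antitone h

theorem le_cc {l : St k} (h : Antitone l) {X : ℤ} {n : ℕ} (h1 : n ≤ k)
    (h2 : ∀ j : Fin k, j.val < n → X ≤ l j) : n ≤ cc l X := by
  by_contra h3
  have h4 : cc l X < k := by omega
  exact lt_irrefl _ ((key h X ⟨_, h4⟩).2 (h2 _ (not_le.1 h3)))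

theorem cc_mono {l m : St k} {X X' : ℤ} (h : ∀ j, X ≤ l j → X' ≤ m j) : cc l X ≤ cc m X' :=
  Finset.card_le_card fun j hj => by
    simp only [Finset.mem_filter, Finset.mem_univ, true_and] at hj ⊢
    exact h j hj

theorem cc_step {l m : St k} (hl : Antitone l) (hm : Antitone m) {X X' : ℤ}
    (h : ∀ i j : Fin k, i.val + 1 = j.val → X ≤ l j → X' ≤ m i) : cc l X ≤ cc m X' + 1 := by
  have h1 := cc_le l X
  have h2 := le_cc hm (X := X') (n := cc l X - 1) (by omega) fun i hi =>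
    h i ⟨i.val + 1, by omega⟩ rfl ((key hl X _).1 (by simp only; omega))
  omega

theorem hom_of {f : ℤ × ℤ → ℤ} (h1 : ∀ a b, |f (a + 1, b) - f (a, b)| = 1)
    (h2 : ∀ a b, |f (a, b + 1) - f (a, b)| = 1) : Hom f := by
  rintro ⟨a, b⟩ ⟨c, d⟩ h
  simp only at h
  have h3 : (a = c + 1 ∧ b = d) ∨ (c = a + 1 ∧ b = d) ∨ (a = c ∧ b = d + 1) ∨
      (a = c ∧ d = b + 1) := by
    rcases abs_cases (a - c) with h4 | h4 <;> rcases abs_cases (b - d) with h5 | h5 <;> omega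
  rcases h3 with ⟨rfl, rfl⟩ | ⟨rfl, rfl⟩ | ⟨rfl, rfl⟩ | ⟨rfl, rfl⟩
  · exact h1 _ _
  · rw [abs_sub_comm]; exact h1 _ _
  · exact h2 _ _
  · rw [abs_sub_comm]; exact h2 _ _

section Path

variable {Y : ℕ} {s0 : ℤ} {x : ℕ → St k}

theorem row (h : Path Y (st k s0) x) (y : ℕ) : SA (x y) := by
  have h1 : ∀ y, y ≤ Y → SA (x y) := by
    rintro (_ | y) hy
    · rw [h.1]
      intro i j e
      simp only [st]
      omega
    · exact fun i j e => ((h.2.1 y hy).2 i j e).2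
  rcases le_total y Y with h2 | h2
  · exact h1 y h2
  · rw [h.2.2 y h2]
    exact h1 Y le_rfl

theorem step (h : Path Y (st k s0) x) (y : ℕ) : (∀ j, x y j ≤ x (y + 1) j) ∧
    ∀ i j : Fin k, i.val + 1 = j.val → x (y + 1) j ≤ x y i := by
  rcases lt_or_ge y Y with h1 | h1
  · exact ⟨(h.2.1 y h1).1, fun i j e => ((h.2.1 y h1).2 i j e).1⟩
  · rw [h.2.2 (y + 1) (by omega), ← h.2.2 y h1]
    exact ⟨fun _ => le_rfl, fun i j e => (row h y i j e).le⟩

theorem ht_hom (h : Path Y (st k s0) x) : Hom (ht x) := by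
  refine hom_of (fun a b => ?_) fun a b => ?_
  · have h1 := row h b.toNat
    have h2 : cc (x b.toNat) (a + 1) ≤ cc (x b.toNat) a := cc_mono fun j hj => by omega
    have h3 : cc (x b.toNat) a ≤ cc (x b.toNat) (a + 1) + 1 :=
      cc_step h1.anti h1.anti fun i j e hj => by have := h1 i j e; omega
    simp only [ht]
    rw [abs_eq zero_le_one]
    omega
  · simp only [ht]
    rw [abs_eq zero_le_one]
    rcases lt_or_ge b 0 with hb | hb
    · rw [show (b + 1).toNat = b.toNat by omega]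
      omega
    · rw [show (b + 1).toNat = b.toNat + 1 by omega]
      have h2 : cc (x b.toNat) a ≤ cc (x (b.toNat + 1)) a :=
        cc_mono fun j hj => hj.trans ((step h _).1 j)
      have h3 : cc (x (b.toNat + 1)) a ≤ cc (x b.toNat) a + 1 :=
        cc_step (row h _).anti (row h _).anti fun i j e hj => hj.trans ((step h _).2 i j e)
      omega

variable {X xl xr : ℤ} {t : St k}

theorem left (h : Path Y (st k s0) x) (hl : xl ≤ s0 - k + 1) (y : ℕ) {a : ℤ} (ha : a ≤ xl) :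
    cc (x y) a = k := by
  refine le_antisymm (cc_le _ _) (le_cc (row h y).anti le_rfl fun j _ => ?_)
  have h1 : x 0 j ≤ x y j := monotone_nat_of_le_succ (f := fun y => x y j)
    (fun y => (step h y).1 j) (Nat.zero_le y)
  rw [h.1] at h1
  simp only [st] at h1
  omega

theorem right (h : Path Y (st k s0) x) (hr : ∀ j, x Y j < xr) (y : ℕ) {a : ℤ} (ha : xr ≤ a) :
    cc (x y) a = 0 := by
  refine Finset.card_eq_zero.2 (Finset.filter_eq_empty_iff.2 fun j _ h1 => ?_)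
  have h2 : x y j ≤ x (max y Y) j := monotone_nat_of_le_succ (f := fun y => x y j)
    (fun y => (step h y).1 j) (le_max_left _ _)
  rw [h.2.2 _ (le_max_right _ _)] at h2
  have := hr j
  omega

theorem mem_iff {p : ℤ × ℤ} : p ∈ Finset.Ioo xl xr ×ˢ Finset.Ioo (0 : ℤ) Y ↔
    (xl < p.1 ∧ p.1 < xr) ∧ 0 < p.2 ∧ p.2 < Y := by
  simp only [Finset.mem_product, Finset.mem_Ioo]

theorem off {x' : ℕ → St k} (h : Path Y (st k s0) x) (h' : Path Y (st k s0) x') (e : x Y = x' Y)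
    (hl : xl ≤ s0 - k + 1) (hr : ∀ j, x Y j < xr) (p : ℤ × ℤ)
    (hp : p ∉ Finset.Ioo xl xr ×ˢ Finset.Ioo (0 : ℤ) Y) : ht x p = ht x' p := by
  rw [mem_iff] at hp
  simp only [ht]
  by_cases h1 : p.2 ≤ 0
  · rw [show p.2.toNat = 0 by omega, h.1, h'.1]
  by_cases h2 : Y ≤ p.2.toNat
  · rw [h.2.2 _ h2, h'.2.2 _ h2, e]
  by_cases h3 : p.1 ≤ xl
  · rw [left h hl _ h3, left h' hl _ h3]
  · rw [right h hr _ (by omega), right h' (e ▸ hr) _ (by omega)]

theorem ht_inj {x' : ℕ → St k} (h : Path Y (st k s0) x) (h' : Path Y (st k s0) x')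
    (e : ht x = ht x') : x = x' := by
  funext y j
  refine eq_of_forall_le_iff fun a => ?_
  have h1 := congrFun e (a, y)
  simp only [ht, Int.toNat_natCast] at h1
  rw [← key (row h y).anti, ← key (row h' y).anti, show cc (x y) a = cc (x' y) a by omega]

theorem surj (h : Path Y (st k s0) x) (hl : xl ≤ s0 - k + 1) (hr : ∀ j, x Y j < xr)
    {u : ℤ × ℤ → ℤ} (hu : u ∈ Fill (Finset.Ioo xl xr ×ˢ Finset.Ioo (0 : ℤ) Y) (ht x)) :
    ∃ z : ℕ → St k, Path Y (st k s0) z ∧ z Y = x Y ∧ ht z = u := by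
  obtain ⟨n, hn⟩ : ∃ n : ℤ → ℕ → ℤ, ∀ a y, u (a, (y : ℕ)) = y - a - 2 * n a y := by
    refine ⟨fun a y => (y - a - u (a, y)) / 2, fun a y => ?_⟩
    have h1 := (lip hu.1 (a, y) (0, 0)).2
    rw [hu.2 (0, 0) (by simp)] at h1
    simp only [ht, sub_zero, Nat.abs_cast] at h1 ⊢
    rcases abs_cases a with h2 | h2 <;> omega
  have n1 : ∀ a y, n (a + 1) y ≤ n a y ∧ n a y ≤ n (a + 1) y + 1 := fun a y => by
    have h1 := hu.1 (a + 1, y) (a, y) (by simp)
    rw [hn, hn, abs_eq zero_le_one] at h1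
    omega
  have n2 : ∀ a y, n a y ≤ n a (y + 1) ∧ n a (y + 1) ≤ n a y + 1 := fun a y => by
    have h1 := hu.1 (a, (y + 1 : ℕ)) (a, y) (by simp)
    rw [hn, hn, abs_eq zero_le_one] at h1
    omega
  have n3 : ∀ y, Antitone fun a => n a y := fun y =>
    antitone_int_of_succ_le fun a => (n1 a y).1
  have n4 : ∀ a (y : ℕ), ¬ ((xl < a ∧ a < xr) ∧ 0 < y ∧ y < Y) → n a y = cc (x y) a :=
    fun a y h1 => by
      have h2 := hu.2 (a, y) (by rw [mem_iff]; simp only; omega)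
      simp only [hn, ht, Int.toNat_natCast] at h2
      omega
  have n5 : ∀ y, n xl y = k := fun y => by rw [n4 _ _ (by omega), left h hl y le_rfl]
  have n6 : ∀ y, n xr y = 0 := fun y => by rw [n4 _ _ (by omega), right h hr y le_rfl]; rfl
  have n7 : ∀ (y : ℕ) (j : Fin k), ∃ b : ℤ, ∀ a, a ≤ b ↔ (j.val : ℤ) < n a y := fun y j => by
    obtain ⟨b, h1, h2⟩ := Int.exists_greatest_of_bdd (P := fun a => (j.val : ℤ) < n a y)
      ⟨xr, fun a ha => by
        by_contra h3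
        have := n3 y (not_le.1 h3).le
        simp only [n6] at this
        omega⟩ ⟨xl, by simp only [n5]; omega⟩
    exact ⟨b, fun a => ⟨fun h3 => h1.trans_le (n3 y h3), h2 a⟩⟩
  choose z hz using n7
  have z1 : ∀ y, ¬ (0 < y ∧ y < Y) → z y = x y := fun y hy => funext fun j =>
    eq_of_forall_le_iff fun a => by
      rw [hz, n4 _ _ (by omega), ← key (row h y).anti, Nat.cast_lt]
  have z2 : Path Y (st k s0) z := by
    refine ⟨(z1 0 (by omega)).trans h.1, fun y _ => ⟨fun j => ?_, fun i j e => ⟨?_, ?_⟩⟩,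
      fun y hy => by rw [z1 y (by omega), z1 Y (by omega), h.2.2 y hy]⟩
    · exact (hz _ _ _).2 (((hz y j _).1 le_rfl).trans_le (n2 _ _).1)
    · have := (hz (y + 1) j _).1 le_rfl
      have := (n2 (z (y + 1) j) y).2
      exact (hz _ _ _).2 (by omega)
    · have := (hz (y + 1) j _).1 le_rfl
      have := (n1 (z (y + 1) j) (y + 1)).2
      exact (hz _ _ (z (y + 1) j + 1)).2 (by omega)
  refine ⟨z, z2, z1 Y (by omega), funext fun p => ?_⟩
  by_cases hp : p ∈ Finset.Ioo xl xr ×ˢ Finset.Ioo (0 : ℤ) Y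
  · obtain ⟨a, b⟩ := p
    rw [mem_iff] at hp
    obtain ⟨y, rfl⟩ := Int.eq_ofNat_of_zero_le hp.2.1.le
    have h1 : n a y ≤ k := n5 y ▸ n3 y hp.1.1.le
    have h2 : 0 ≤ n a y := n6 y ▸ n3 y hp.1.2.le
    have h3 := le_cc (row z2 y).anti (X := a) (n := (n a y).toNat) (by omega)
      fun j hj => (hz _ _ _).2 (by omega)
    have h4 : (cc (z y) a : ℤ) ≤ n a y := by
      by_contra h4
      have h5 := cc_le (z y) a
      have h6 := (hz _ _ _).1 ((key (row z2 y).anti a ⟨(n a y).toNat, by omega⟩).1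
        (by simp only; omega))
      simp only at h6
      omega
    simp only [ht, hn, Int.toNat_natCast]
    omega
  · rw [hu.2 p hp]
    exact (off h z2 (z1 Y (by omega)).symm hl hr p hp).symm

end Path

theorem fin {Λ : Finset (ℤ × ℤ)} (h : (0, 0) ∉ Λ) (g : ℤ × ℤ → ℤ) : (Fill Λ g).Finite := by
  refine Set.Finite.of_injOn (f := fun a (p : Λ) => a p) (fun a ha => ?_) (fun a ha b hb e => ?_)
    (Set.Finite.pi' fun p : Λ => Set.finite_Icc (g (0, 0) - (|p.1.1| + |p.1.2|))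
      (g (0, 0) + (|p.1.1| + |p.1.2|)))
  · intro p
    have h1 := (lip ha.1 p (0, 0)).1
    have h2 := (lip ha.1 (0, 0) p).1
    rw [ha.2 _ h] at h1 h2
    simp only [sub_zero, zero_sub, abs_neg] at h1 h2
    exact ⟨show _ ≤ a p by omega, show a p ≤ _ by omega⟩
  · funext p
    by_cases hp : p ∈ Λ
    · exact congrFun e ⟨p, hp⟩
    · rw [ha.2 p hp, hb.2 p hp]

theorem rep_fill {Λ : Finset (ℤ × ℤ)} {u g : ℤ × ℤ → ℤ} (hu : Hom u) (hg : Hom g)
    (h : ∀ x ∈ Λ, ∀ y ∉ Λ, |x.1 - y.1| + |x.2 - y.2| = 1 → u y = g y) : rep Λ u g ∈ Fill Λ g := by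
  refine ⟨fun x y hxy => ?_, fun x hx => if_neg hx⟩
  unfold rep
  by_cases hx : x ∈ Λ <;> by_cases hy : y ∈ Λ <;> simp only [hx, hy, if_true, if_false]
  · exact hu x y hxy
  · rw [← h x hx y hy hxy]
    exact hu x y hxy
  · rw [← h y hy x hx (by rwa [abs_sub_comm y.1, abs_sub_comm y.2])]
    exact hu x y hxy
  · exact hg x y hxy

theorem lat {a b : ℤ × ℤ → ℤ} (ha : Hom a) (hb : Hom b) (h : (a (0, 0) - b (0, 0)) % 2 = 0) :
    Hom (a ⊔ b) ∧ Hom (a ⊓ b) := by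
  have h1 : ∀ x y : ℤ × ℤ, |x.1 - y.1| + |x.2 - y.2| = 1 →
      |max (a x) (b x) - max (a y) (b y)| = 1 ∧ |min (a x) (b x) - min (a y) (b y)| = 1 := by
    intro x y hxy
    have h2 := ha x y hxy
    have h3 := hb x y hxy
    have h4 := (lip ha x (0, 0)).2
    have h5 := (lip hb x (0, 0)).2
    rw [abs_eq zero_le_one] at h2 h3
    rw [abs_eq zero_le_one, abs_eq zero_le_one]
    omega
  exact ⟨fun x y e => (h1 x y e).1, fun x y e => (h1 x y e).2⟩

/-- monotonicity in the boundary condition -/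
theorem daykin {Λ : Finset (ℤ × ℤ)} (h0 : (0, 0) ∉ Λ) {g g' : ℤ × ℤ → ℤ} (hg : Hom g) (hg' : Hom g')
    (hp : (g (0, 0) - g' (0, 0)) % 2 = 0) (Δ : Set (ℤ × ℤ))
    (h1 : ∀ x ∈ Λ, ∀ y : ℤ × ℤ, |x.1 - y.1| + |x.2 - y.2| = 1 → y ∈ Δ)
    (h2 : ∀ y ∈ Δ, y ∉ Λ → g y ≤ g' y) {F : Set (ℤ × ℤ → ℤ)}
    (hF : ∀ a ∈ F, ∀ b : ℤ × ℤ → ℤ, (∀ y ∈ Δ, a y ≤ b y) → b ∈ F) :
    (Fill Λ g ∩ F).encard * (Fill Λ g').encard ≤ (Fill Λ g' ∩ F).encard * (Fill Λ g).encard := by
  classical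
  obtain ⟨s, hs⟩ := ((fin h0 g).inter_of_left F).exists_finset_coe
  obtain ⟨t, ht⟩ := (fin h0 g').exists_finset_coe
  have h3 : ∀ a ∈ s, ∀ b ∈ t, (a ∈ Fill Λ g ∧ a ∈ F) ∧ b ∈ Fill Λ g' ∧ Hom (a ⊔ b) ∧ Hom (a ⊓ b) :=
    fun a ha b hb => ⟨hs.le ha, ht.le hb, lat (hs.le ha).1.1 (ht.le hb).1
      (by rwa [(hs.le ha).1.2 _ h0, (ht.le hb).2 _ h0])⟩
  have h4 : ∀ (c a b : ℤ × ℤ → ℤ), rep Λ a c = rep Λ b c → (∀ p ∉ Λ, a p = b p) → a = b :=
    fun c a b e h => funext fun p => by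
      by_cases hp : p ∈ Λ
      · simpa [rep, hp] using congrFun e p
      · exact h p hp
  have h5 : ((s ⊻ t : Finset _) : Set (ℤ × ℤ → ℤ)).encard ≤ (Fill Λ g' ∩ F).encard := by
    refine Set.encard_le_encard_of_injOn (f := fun u => rep Λ u g') (fun u hu => ?_)
      fun u hu v hv e => ?_
    · obtain ⟨a, ha, b, hb, rfl⟩ := Finset.mem_sups.1 hu
      obtain ⟨⟨h6, h7⟩, h8, h9, -⟩ := h3 a ha b hb
      refine ⟨rep_fill h9 hg' fun x hx y hy e => ?_, hF a h7 _ fun y hy => ?_⟩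
      · rw [Pi.sup_apply, h6.2 y hy, h8.2 y hy, sup_eq_right.2 (h2 y (h1 x hx y e) hy)]
      · simp only [rep]
        split_ifs with h
        · exact le_sup_left
        · rw [h6.2 y h]
          exact h2 y hy h
    · obtain ⟨a, ha, b, hb, rfl⟩ := Finset.mem_sups.1 hu
      obtain ⟨a', ha', b', hb', rfl⟩ := Finset.mem_sups.1 hv
      exact h4 _ _ _ e fun p hp => by
        rw [Pi.sup_apply, Pi.sup_apply, (hs.le ha).1.2 p hp, (hs.le ha').1.2 p hp,
          (ht.le hb).2 p hp, (ht.le hb').2 p hp]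
  have h6 : ((s ⊼ t : Finset _) : Set (ℤ × ℤ → ℤ)).encard ≤ (Fill Λ g).encard := by
    refine Set.encard_le_encard_of_injOn (f := fun u => rep Λ u g) (fun u hu => ?_)
      fun u hu v hv e => ?_
    · obtain ⟨a, ha, b, hb, rfl⟩ := Finset.mem_infs.1 hu
      obtain ⟨⟨h6, -⟩, h8, -, h9⟩ := h3 a ha b hb
      refine rep_fill h9 hg fun x hx y hy e => ?_
      rw [Pi.inf_apply, h6.2 y hy, h8.2 y hy, inf_eq_left.2 (h2 y (h1 x hx y e) hy)]
    · obtain ⟨a, ha, b, hb, rfl⟩ := Finset.mem_infs.1 hu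
      obtain ⟨a', ha', b', hb', rfl⟩ := Finset.mem_infs.1 hv
      exact h4 _ _ _ e fun p hp => by
        rw [Pi.inf_apply, Pi.inf_apply, (hs.le ha).1.2 p hp, (hs.le ha').1.2 p hp,
          (ht.le hb).2 p hp, (ht.le hb').2 p hp]
  refine le_trans ?_ ((mul_comm _ _).trans_le (mul_le_mul' h5 h6))
  rw [← hs, ← ht]
  simp only [Set.encard_coe_eq_coe_finsetCard]
  exact_mod_cast s.le_card_infs_mul_card_sups t

end CmpAux

open CmpAux in
theorem compare : CompareStmt := by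
  intro k Y s0 X xl xr t Γ g hg g0 g1 g2 g3 ht' hl hr hΓ
  rw [← ENat.toENNReal_mul, ← ENat.toENNReal_mul, ENat.toENNReal_le]
  rcases Set.eq_empty_or_nonempty {x : ℕ → St k | Path Y (st k s0) x ∧ x Y = t} with h | ⟨x, hx, e⟩
  · simp [h]
  have hr' : ∀ j, x Y j < xr := fun j => e ▸ (ht' j).trans_lt hr
  have h1 : {x : ℕ → St k | Path Y (st k s0) x ∧ x Y = t}.encard ≤
      (Fill (Finset.Ioo xl xr ×ˢ Finset.Ioo (0 : ℤ) Y) (ht x)).encard :=
    Set.encard_le_encard_of_injOn (f := ht) (fun z hz => ⟨ht_hom hz.1, fun p hp =>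
      (off hx hz.1 (e.trans hz.2.symm) hl hr' p hp).symm⟩) fun z hz z' hz' => ht_inj hz.1 hz'.1
  have h2 : (Fill (Finset.Ioo xl xr ×ˢ Finset.Ioo (0 : ℤ) Y) (ht x) ∩ FG Γ).encard ≤
      {x : ℕ → St k | Path Y (st k s0) x ∧ x Y = t ∧ x ∈ FP Γ}.encard := by
    refine le_trans (Set.encard_le_encard fun u hu => ?_) (Set.encard_image_le ht _)
    obtain ⟨z, h3, h4, rfl⟩ := surj hx hl hr' hu.1
    refine ⟨z, ⟨h3, h4.trans e, fun γ hγ i hi => ?_⟩, rfl⟩
    by_contra h5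
    have h6 := (key (row h3 _).anti _ _).2 (not_lt.1 h5)
    refine hu.2 γ hγ ?_
    simp only [Ge, ht, Int.toNat_natCast]
    omega
  refine (mul_le_mul_right h1 _).trans (le_trans ?_ (mul_le_mul_left h2 _))
  refine daykin (by simp) hg (ht_hom hx) (by simp only [ht]; omega)
    {p | (xl ≤ p.1 ∧ p.1 ≤ xr) ∧ 0 ≤ p.2 ∧ p.2 ≤ Y} (fun p hp y h => ?_) (fun p hp hp' => ?_)
    fun a ha b h γ hγ h3 => ha γ hγ ((h _ ⟨⟨(hΓ γ hγ).1, (hΓ γ hγ).2.1⟩, Int.natCast_nonneg _,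
      Int.ofNat_le.2 (hΓ γ hγ).2.2⟩).trans h3)
  · rw [mem_iff] at hp
    simp only [Set.mem_ofPred_eq]
    rcases abs_cases (p.1 - y.1) with h4 | h4 <;> rcases abs_cases (p.2 - y.2) with h5 | h5 <;> omega
  · obtain ⟨a, b⟩ := p
    rw [mem_iff] at hp'
    simp only [Set.mem_ofPred_eq] at hp hp'
    obtain ⟨y, rfl⟩ := Int.eq_ofNat_of_zero_le hp.2.1
    have h3 := (lip hg (a, y) (a, 0)).1
    have h4 := (lip hg (a, 0) (s0 - k + 1, 0)).1
    have h5 := (lip hg (a, Y) (X, Y)).1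
    have h6 := g1 a
    have h7 := cc_le (x y) a
    simp only [Ge, sub_self, abs_zero, sub_zero, Nat.abs_cast, add_zero, zero_add] at h3 h4 h5 g2 g3
    simp only [ht, Int.toNat_natCast]
    by_cases h8 : cc (x y) a = 0
    · omega
    obtain ⟨j, hj⟩ : ∃ j : Fin k, j.val + 1 = cc (x y) a := ⟨⟨cc (x y) a - 1, by omega⟩, by
      simp only
      omega⟩
    have h9 := (key (row hx y).anti a j).1 (by omega)
    by_cases h10 : a ≤ xl
    · rcases abs_cases (a - (s0 - k + 1)) with h | h <;> omega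
    by_cases h11 : xr ≤ a
    · exact absurd (right hx hr' y h11) h8
    rcases (show y = 0 ∨ y = Y by omega) with rfl | rfl
    · rw [hx.1] at h9
      simp only [st, Nat.cast_zero] at h9 h3 ⊢
      rcases abs_cases (a - (s0 - k + 1)) with h | h <;> omega
    · have h12 := ht' j
      rw [← e] at h12
      rcases abs_cases (a - X) with h | h <;> omega

end Pool.Agent.MP_151d89_pr.H33
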