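import Pool.Agent.MP_151d89_pr.H33.Defs

set_option autoImplicit false
open MeasureTheory Filter

namespace Pool.Agent.MP_151d89_pr.H33
open Pool.Agent.MP_151d89_pr.H82

namespace CoreH

theorem pr_mono (q : ℝ) {k : ℕ} (n : ℕ) (s : St k) {A B : Set (ℕ → St k)} (h : A ⊆ B) :
    Pr q n s A ≤ Pr q n s B := by
  unfold Pr Ex
  refine ENNReal.tsum_le_tsum fun x => ?_
  split_ifs
  · exact mul_le_mul_right (Set.indicator_le_indicator_of_subset h (fun _ => zero_le) x) _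
  · exact le_rfl

theorem ge_mono {f : ℤ × ℤ → ℤ} (hf : Hom f) {j j' X X' y y' : ℤ} (h : Ge j X y f) (hj : j' ≤ j)
    (hX : X' ≤ X) (hy : y ≤ y') : Ge j' X' y' f := by
  have := (lip hf (X', y') (X, y)).1
  simp only at this
  rw [abs_of_nonpos (by omega), abs_of_nonneg (by omega)] at this
  unfold Ge at *
  omega

theorem meas_at (v : ℤ × ℤ) (p : ℤ → Prop) : MeasurableSet {f : ℤ × ℤ → ℤ | p (f v)} :=
  (measurable_pi_apply v) (MeasurableSet.of_discrete (s := {z | p z}))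

theorem dich {μ : Measure (ℤ × ℤ → ℤ)} (hT : Triv μ) {s : ℕ → ℤ × ℤ} (hs : Function.Injective s)
    (p : ℕ → ℤ → Prop) (h : ¬ ∀ᵐ f ∂μ, ∀ᶠ n in atTop, ¬ p n (f (s n))) :
    ∀ᵐ f ∂μ, ∃ᶠ n in atTop, p n (f (s n)) := by
  refine hT {f | ∃ᶠ n in atTop, p n (f (s n))} ?_ (fun Λ b => ?_) h
  · have : {f : ℤ × ℤ → ℤ | ∃ᶠ n in atTop, p n (f (s n))} =
        ⋂ N : ℕ, ⋃ n : ℕ, ⋃ _ : N ≤ n, {f | p n (f (s n))} := by
      ext f
      simp [frequently_atTop]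
    rw [this]
    exact MeasurableSet.iInter fun N => MeasurableSet.iUnion fun n =>
      MeasurableSet.iUnion fun _ => meas_at _ _
  · have h1 : ∀ᶠ n in atTop, s n ∉ Λ := by
      rw [← Nat.cofinite_eq_atTop]
      exact hs.tendsto_cofinite.eventually Λ.eventually_cofinite_notMem
    ext f
    exact frequently_congr (h1.mono fun n hn => by simp [rep, hn])

theorem part {μ : Measure (ℤ × ℤ → ℤ)} [IsProbabilityMeasure μ] (p : ℕ → ℤ → Prop)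
    (W : Set (ℤ × ℤ → ℤ)) (θ : ENNReal) (h1 : ∀ᵐ f ∂μ, ∃ R : ℕ, p R (f (-(R : ℤ), 0)))
    (h2 : ∀ (R : ℕ) (D : Set (ℤ × ℤ → ℤ)), MeasurableSet D →
      (∀ f g : ℤ × ℤ → ℤ, (∀ x : ℤ, f (x, 0) = g (x, 0)) → f ∈ D → g ∈ D) →
      (∀ f ∈ D, p R (f (-(R : ℤ), 0))) → μ (W ∩ D) ≤ θ * μ D) : μ W ≤ θ := by
  classical
  let D : ℕ → Set (ℤ × ℤ → ℤ) := fun R =>
    {f | p R (f (-(R : ℤ), 0))} ∩ ⋂ i : ℕ, ⋂ _ : i < R, {f | ¬ p i (f (-(i : ℤ), 0))}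
  have hm : ∀ R, MeasurableSet (D R) := fun R => (meas_at _ _).inter
    (MeasurableSet.iInter fun i => MeasurableSet.iInter fun _ => meas_at _ fun z => ¬ p i z)
  have hD : ∀ R f, f ∈ D R ↔ p R (f (-(R : ℤ), 0)) ∧ ∀ i : ℕ, i < R → ¬ p i (f (-(i : ℤ), 0)) := by
    intro R f
    simp [D]
  have hd : Pairwise (Function.onFun Disjoint D) := by
    intro i j hij
    refine Set.disjoint_left.2 fun f a b => ?_
    rw [hD] at a b
    rcases hij.lt_or_gt with h | h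
    · exact b.2 i h a.1
    · exact a.2 j h b.1
  calc μ W ≤ μ (⋃ R, W ∩ D R) := measure_mono_ae (h1.mono fun f hf hW =>
        Set.mem_iUnion.2 ⟨Nat.find hf, hW, (hD _ _).2 ⟨Nat.find_spec hf, fun i => Nat.find_min hf⟩⟩)
    _ ≤ ∑' R, μ (W ∩ D R) := measure_iUnion_le _
    _ ≤ ∑' R, θ * μ (D R) := ENNReal.tsum_le_tsum fun R => h2 R _ (hm R)
        (fun f g e h => by
          rw [hD] at h ⊢
          simpa only [← e] using h) fun f h => ((hD _ _).1 h).1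
    _ = θ * μ (⋃ R, D R) := by rw [ENNReal.tsum_mul_left, measure_iUnion hd hm]
    _ ≤ θ * 1 := mul_le_mul_right prob_le_one _
    _ = θ := mul_one _

theorem nofull {μ : Measure (ℤ × ℤ → ℤ)} [IsProbabilityMeasure μ] (p : ℕ → (ℤ × ℤ → ℤ) → Prop)
    (h1 : ∀ᵐ f ∂μ, ∀ᶠ n in atTop, p n f) (h2 : ∀ N, μ {f | ∀ n, N ≤ n → p n f} ≤ 2 / 3) :
    False := by
  have hm : Monotone fun N => {f | ∀ n, N ≤ n → p n f} :=
    fun N N' h f hf n hn => hf n (h.trans hn)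
  have h3 : μ Set.univ ≤ μ (⋃ N, {f | ∀ n, N ≤ n → p n f}) :=
    measure_mono_ae (h1.mono fun f hf _ => Set.mem_iUnion.2 (eventually_atTop.1 hf))
  rw [measure_univ, hm.measure_iUnion] at h3
  have h4 := h3.trans (iSup_le h2)
  rw [ENNReal.le_div_iff_mul_le (by simp) (by simp)] at h4
  norm_num at h4

theorem twothirds {a b c : ENNReal} (h1 : a ≤ 1 / 2 * b) (h2 : 3 / 4 * b ≤ c) : a ≤ 2 / 3 * c := by
  have e : (2 / 3 : ENNReal) * (3 / 4) = 1 / 2 := by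
    rw [← ENNReal.toReal_eq_toReal_iff' (by finiteness) (by finiteness)]
    norm_num [ENNReal.toReal_div]
  calc a ≤ 1 / 2 * b := h1
    _ = 2 / 3 * (3 / 4 * b) := by rw [← mul_assoc, e]
    _ ≤ _ := mul_le_mul_right h2 _

theorem ne0 {b c : ENNReal} (h1 : b ≠ 0) (h2 : 3 / 4 * b ≤ c) : c ≠ 0 := by
  rintro rfl
  exact mul_ne_zero (by simp) h1 (le_antisymm h2 zero_le)

theorem lim (g : ℕ → ℤ) (h1 : ∀ n, g n ≤ n)
    (h2 : ∀ m : ℕ, ∀ᶠ n : ℕ in atTop, ¬ ((m + 1 : ℕ) : ℤ) * g n ≤ ((m + 1 : ℕ) - 2) * n) :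
    Tendsto (fun n : ℕ => (g n : ℝ) / (n : ℝ)) atTop (nhds 1) := by
  refine tendsto_order.2 ⟨fun a ha => ?_, fun a ha => ?_⟩
  · obtain ⟨m, hm⟩ := exists_nat_gt (2 / (1 - a))
    rw [div_lt_iff₀ (by linarith)] at hm
    filter_upwards [h2 m, eventually_gt_atTop 0] with n h hn
    have hn' : (0 : ℝ) < n := by exact_mod_cast hn
    have h' : (((m + 1 : ℕ) : ℝ) - 2) * n < ((m + 1 : ℕ) : ℝ) * g n := by
      exact_mod_cast not_le.1 h
    rw [lt_div_iff₀ hn']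
    push_cast at h'
    have hm0 : (0 : ℝ) ≤ m := m.cast_nonneg
    by_contra hc
    have := mul_le_mul_of_nonneg_left (not_lt.1 hc) (by linarith : (0 : ℝ) ≤ m + 1)
    nlinarith
  · filter_upwards [eventually_gt_atTop 0] with n hn
    have hn' : (0 : ℝ) < n := by exact_mod_cast hn
    have : (g n : ℝ) ≤ n := by exact_mod_cast h1 n
    exact ((div_le_one hn').2 this).trans_lt ha

theorem p1 (hT : TransferStmt) (hF : FarStmt) (hO : OneStmt) {μ : Measure (ℤ × ℤ → ℤ)}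
    (hμ : Gibbs μ) (h0 : ∀ᵐ f ∂μ, f (0, 0) % 2 = 0 ∧ ∀ x : ℤ, f (x, 0) ≤ -x)
    (h1 : ∀ᵐ f ∂μ, ∀ᶠ n : ℕ in atTop, f ((n : ℤ), 1) = 1 - (n : ℤ))
    (hR : ∀ᵐ f ∂μ, ∃ R : ℕ, f (-(R : ℤ), 0) ≤ (R : ℤ) - 2)
    (ha : ∀ a : ℝ, 0 ≤ a → ∀ᵐ f ∂μ, ∃ᶠ y : ℕ in atTop, Ge 1 ⌈a * y⌉ y f) : False := by
  have := hμ.1
  refine nofull _ h1 fun N => part (fun R z => z ≤ R - 2) _ _ hR fun R D d1 d2 d3 => ?_
  set c : ℝ := |(((N : ℤ) - -(R : ℤ) : ℤ) : ℝ)| with hc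
  have c0 : 0 ≤ c := abs_nonneg _
  have e0 : 0 < 1 / (2 * (c + 1)) := by positivity
  have e1 : 1 / (2 * (c + 1)) < 1 := by
    rw [div_lt_one (by positivity)]
    linarith
  have e2 : c * (1 / (2 * (c + 1))) ≤ 1 / 2 := by
    rw [mul_one_div, div_le_div_iff₀ (by positivity) (by positivity)]
    linarith
  set q : ℝ := 1 - 1 / (2 * (c + 1)) with hq
  have q0 : 0 < q := by linarith
  have q1 : q < 1 := by linarith
  obtain ⟨f1, f2, -⟩ := hF q q0 q1 1 (-(R : ℤ))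
  obtain ⟨Y0, f2⟩ := f2 (q / (1 - q) + 1) (by linarith)
  refine le_trans (measure_mono ?_) (hT μ hμ h0 q q0 q1 1 (-(R : ℤ)) {((N : ℤ), 1, 1)}
    (fun Y => ⌈(q / (1 - q) + 1) * Y⌉) {Y | max Y0 1 ≤ Y} D (2 / 3) d1 d2 (fun f hf => ?_) ?_
    fun Y hY => ⟨?_, ?_, ne0 (f1 Y) (f2 Y ((le_max_left _ _).trans hY))⟩)
  · refine Set.inter_subset_inter_left _ fun f hf γ hγ => ?_
    rw [Finset.mem_singleton.1 hγ]
    have := hf N le_rfl
    simp only [Ge, Nat.cast_one]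
    omega
  · have := d3 f hf
    simp only [Ge, Nat.cast_one] at this ⊢
    rw [show -(R : ℤ) - 1 + 1 = -R by ring]
    omega
  · have : 0 < 1 - q := by linarith
    filter_upwards [ha (q / (1 - q) + 1) (by positivity)] with f hf
    obtain ⟨Y, a, b⟩ := frequently_atTop.1 hf (max Y0 1)
    exact ⟨Y, a, b⟩
  · intro γ hγ
    rw [Finset.mem_singleton.1 hγ]
    exact (le_max_right _ _).trans hY
  · refine twothirds ?_ (f2 Y ((le_max_left _ _).trans hY))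
    refine (pr_mono q Y _ (A := FP {((N : ℤ), 1, 1)}) (B := {x | x 1 0 < N}) fun x hx =>
      hx _ (Finset.mem_singleton_self _) 0 le_rfl).trans
      ((hO q q0 q1 _ N Y ((le_max_right _ _).trans hY)).trans (mul_le_mul_left ?_ _))
    rw [← hc, hq, sub_sub_cancel]
    refine (ENNReal.ofReal_le_ofReal e2).trans_eq ?_
    rw [ENNReal.ofReal_div_of_pos (by norm_num)]
    simp

theorem consts {s : ℝ} (hs : 0 < s) {C : ℕ} (hC : 1 ≤ C) : ∃ η a q : ℝ, 0 < η ∧ 0 ≤ a ∧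
    a * (1 + η) = s - η ∧ 0 < q ∧ q < 1 ∧ s / 2 / (1 + s / 2) ≤ q ∧ q ≤ s / (1 + s) ∧
    q / (1 - q) < a ∧ (s + η - q / (1 - q)) * C ≤ 1 := by
  have C1 : (1 : ℝ) ≤ C := by exact_mod_cast hC
  obtain ⟨η, e0, e1, e2⟩ : ∃ η : ℝ, 0 < η ∧ η * (s + 3) * C ≤ 1 ∧ η * (s + 2) ≤ s / 2 := by
    refine ⟨min (1 / ((s + 3) * C)) (s / 2 / (s + 2)), lt_min (by positivity) (by positivity),
      ?_, ?_⟩
    · rw [mul_assoc, ← le_div_iff₀ (by positivity)]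
      exact min_le_left _ _
    · rw [← le_div_iff₀ (by positivity)]
      exact min_le_right _ _
  obtain ⟨a, ha⟩ : ∃ a : ℝ, a * (1 + η) = s - η := ⟨(s - η) / (1 + η), by field_simp⟩
  have a1 : s - η * (s + 1) ≤ a := by
    by_contra h
    have := mul_lt_mul_of_pos_right (not_le.1 h) (by linarith : 0 < 1 + η)
    nlinarith [mul_pos e0 e0, mul_pos (mul_pos e0 e0) hs]
  have a0 : s / 2 ≤ a - η := by linarith
  have a2 : a - η ≤ s := by nlinarith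
  have b0 : 0 < 1 + (a - η) := by linarith
  have e : (a - η) / (1 + (a - η)) / (1 - (a - η) / (1 + (a - η))) = a - η := by
    field_simp
    ring
  refine ⟨η, a, (a - η) / (1 + (a - η)), e0, by linarith, ha, div_pos (by linarith) b0,
    (div_lt_one b0).2 (by linarith), ?_, ?_, by linarith, ?_⟩
  · rw [div_le_div_iff₀ (by linarith) b0]
    nlinarith
  · rw [div_le_div_iff₀ b0 (by linarith)]
    nlinarith
  · rw [e]
    exact le_trans (mul_le_mul_of_nonneg_right (by linarith) (by linarith)) e1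

theorem p2 (hT : TransferStmt) (hK : KeyStmt) (hF : FarStmt) {μ : Measure (ℤ × ℤ → ℤ)}
    (hμ : Gibbs μ) (h0 : ∀ᵐ f ∂μ, f (0, 0) % 2 = 0 ∧ ∀ x : ℤ, f (x, 0) ≤ -x) {m : ℕ} (hm : 1 ≤ m)
    (hB : ∀ᵐ f ∂μ, ∃ᶠ n : ℕ in atTop, (m : ℤ) * f (-(n : ℤ), 0) ≤ (m - 2) * n) {s A : ℝ}
    (hs : 0 < s) (hA : 0 ≤ A)
    (hl : ∀ a, a < s → ∀ j : ℕ, ∀ᵐ f ∂μ, ∃ᶠ y : ℕ in atTop, Ge j ⌈a * y⌉ y f)
    (hu : ∀ a, s < a → ∃ K : ℕ, ∀ᵐ f ∂μ, ∀ᶠ y : ℕ in atTop, ¬ Ge K ⌈a * y⌉ y f)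
    (h1 : ∀ᵐ f ∂μ, ∀ᶠ y : ℕ in atTop, ¬ Ge 1 ⌈A * y⌉ y f) : False := by
  classical
  have := hμ.1
  obtain ⟨C, C1, hK⟩ := hK (s / 2 / (1 + s / 2)) (s / (1 + s)) (2 * m + 1) (A + 2 * m)
    (by positivity) ((div_lt_one (by linarith)).2 (by linarith)) (by positivity) (by positivity)
  obtain ⟨η, a, q, e0, a0, ea, q0, q1, q2, q3, q4, q5⟩ := consts hs C1
  obtain ⟨K, hu⟩ := hu (s + η) (by linarith)
  refine nofull (fun y f => ¬ Ge K ⌈(s + η) * y⌉ y f ∧ ¬ Ge 1 ⌈A * y⌉ y f)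
    ((hu.and h1).mono fun f h => h.1.and h.2) fun y0 => ?_
  obtain ⟨p0, hK⟩ := hK q q2 q3 K y0
  refine part (fun R z => 2 * m * (p0 + 1) ≤ R ∧ (m : ℤ) * z ≤ (m - 2) * R) _ _
    (hB.mono fun f hf => frequently_atTop.1 hf _) fun R D d1 d2 d3 => ?_
  rcases D.eq_empty_or_nonempty with rfl | ⟨f0, hf0⟩
  · simp
  obtain ⟨p, hp⟩ : ∃ p, p = R / (2 * m) := ⟨_, rfl⟩
  have p1 : p0 + 1 ≤ p := by
    rw [hp, Nat.le_div_iff_mul_le (by omega), mul_comm]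
    exact (d3 f0 hf0).1
  have p2 : 2 * m * p ≤ R := hp ▸ Nat.mul_div_le R (2 * m)
  have p3 : R < 2 * m * (p + 1) := hp ▸ Nat.lt_mul_div_succ R (by omega)
  have p4 : R ≤ 2 * m * (2 * p) := p3.le.trans (Nat.mul_le_mul_left _ (by omega))
  obtain ⟨Y0, hK⟩ := hK p (by omega)
  obtain ⟨s0, hs0⟩ : ∃ s0 : ℤ, s0 = (2 * p : ℕ) - 1 - R := ⟨_, rfl⟩
  obtain ⟨f1, f2, f3⟩ := hF q q0 q1 (2 * p) s0
  obtain ⟨Y1, f2⟩ := f2 a q4
  obtain ⟨Y2, f3⟩ := f3 η e0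
  refine le_trans (measure_mono ?_) (hT μ hμ h0 q q0 q1 (2 * p) s0
    ((Finset.Icc y0 (C * (2 * p))).image (fun y : ℕ => (⌈(s + η) * y⌉, y, K)) ∪
      (Finset.Icc y0 (C * (2 * p))).image fun y : ℕ => (⌈A * y⌉, y, 1))
    (fun Y => ⌈a * Y⌉) {Z | ∃ Y, Z = Y + 1 ∧ Y0 + Y1 + C * (2 * p) ≤ Y ∧
      hh q Y (st (2 * p) s0) ≤ 2 * hh q (Y + 1) (st (2 * p) s0)} D (2 / 3) d1 d2
    (fun f hf => ?_) ?_ ?_)
  · refine Set.inter_subset_inter_left _ fun f hf γ hγ => ?_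
    rcases Finset.mem_union.1 hγ with h | h <;> obtain ⟨y, hy, rfl⟩ := Finset.mem_image.1 h
    · exact (hf y (Finset.mem_Icc.1 hy).1).1
    · exact (hf y (Finset.mem_Icc.1 hy).1).2
  · have h := (d3 f hf).2
    have p2' : 2 * (m : ℤ) * p ≤ R := by exact_mod_cast p2
    have m1 : (1 : ℤ) ≤ m := by exact_mod_cast hm
    rw [show s0 - (2 * p : ℕ) + 1 = -R by omega]
    simp only [Ge]
    push_cast
    by_contra hc
    have := mul_lt_mul_of_pos_left (not_le.1 hc) (by omega : (0 : ℤ) < m)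
    nlinarith
  · filter_upwards [hl (s - η) (by linarith) (2 * p), hμ.2.1] with f hf hH
    obtain ⟨y, y1, y2⟩ := frequently_atTop.1 hf (Y0 + Y1 + C * (2 * p) + Y2)
    obtain ⟨Y, b1, b2, b3⟩ := f3 y (by omega)
    refine ⟨Y + 1, ⟨Y, rfl, by omega, b3⟩, ge_mono hH y2 le_rfl (Int.ceil_mono ?_) (by omega)⟩
    rw [← ea, mul_assoc]
    exact mul_le_mul_of_nonneg_left b2 a0
  · rintro _ ⟨Y, rfl, b1, b2⟩
    refine ⟨fun γ hγ => ?_, twothirds ((pr_mono q _ _ fun x hx y y1 y2 => ?_).trans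
      (hK s0 Y (by omega) b2)) (f2 _ (by omega)), ne0 (f1 _) (f2 _ (by omega))⟩
    · rcases Finset.mem_union.1 hγ with h | h <;> obtain ⟨y, hy, rfl⟩ := Finset.mem_image.1 h <;>
        have := (Finset.mem_Icc.1 hy).2 <;> simp only <;> omega
    · have hy := Finset.mem_Icc.2 ⟨y1, y2⟩
      have y3 : (y : ℝ) ≤ C * (2 * p : ℕ) := by exact_mod_cast y2
      have k1 : (1 : ℝ) ≤ (2 * p : ℕ) := by exact_mod_cast (by omega : 1 ≤ 2 * p)
      have c1 : (1 : ℝ) ≤ C := by exact_mod_cast C1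
      have r1 : (R : ℝ) ≤ 2 * m * (2 * p : ℕ) := by exact_mod_cast p4
      have s1 : (s0 : ℝ) = (2 * p : ℕ) - 1 - R := by exact_mod_cast hs0
      have m0 : (0 : ℝ) ≤ m := m.cast_nonneg
      have y0' : (0 : ℝ) ≤ y := y.cast_nonneg
      refine ⟨fun j hj => ?_, fun j => ?_⟩
      · have h := Int.lt_ceil.1 (hx _ (Finset.mem_union_left _ (Finset.mem_image_of_mem _ hy)) j
          (by simp only; omega))
        simp only at h
        generalize ((2 * p : ℕ) : ℝ) = k at *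
        generalize q / (1 - q) = l at *
        have : (s + η - l) * y ≤ k := by
          rcases le_total (s + η - l) 0 with h | h
          · nlinarith
          · have := mul_le_mul_of_nonneg_left y3 h
            nlinarith
        nlinarith
      · have h := Int.lt_ceil.1 (hx _ (Finset.mem_union_right _ (Finset.mem_image_of_mem _ hy)) j
          (by simp only; omega))
        simp only at h
        generalize ((2 * p : ℕ) : ℝ) = k at *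
        have := mul_le_mul_of_nonneg_left y3 hA
        have := mul_le_mul_of_nonneg_left c1 (by positivity : 0 ≤ 2 * m * k)
        nlinarith

end CoreH

open CoreH

theorem core (hT : TransferStmt) (hK : KeyStmt) (hF : FarStmt) (hO : OneStmt) : CoreStmt := by
  intro μ hμ hτ h0 h1
  have := hμ.1
  by_contra hc
  obtain ⟨c1, c2⟩ := not_or.1 hc
  have h0' : ∀ᵐ f ∂μ, f (0, 0) % 2 = 0 ∧ ∀ x : ℤ, f (x, 0) ≤ -x := by
    filter_upwards [h0, h1, hμ.2.1] with f a b c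
    obtain ⟨n, hn⟩ := b.exists
    have := (lip c (n, 1) (0, 0)).2
    simp only [sub_zero, abs_one, Nat.abs_cast] at this
    exact ⟨by omega, a⟩
  have hv : ∀ᵐ f ∂μ, ∀ n : ℕ, f (0, (n : ℤ)) ≤ (n : ℤ) := by
    filter_upwards [h0, hμ.2.1] with f a c n
    have := (lip c (0, n) (0, 0)).1
    have := a 0
    simp only [sub_zero, abs_zero, Nat.abs_cast] at *
    omega
  have hh : ∀ᵐ f ∂μ, ∀ n : ℕ, f (-(n : ℤ), 0) ≤ (n : ℤ) :=
    h0.mono fun f a n => by simpa using a (-n)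
  have bad : ∀ s : ℕ → ℤ × ℤ, Function.Injective s → (∀ᵐ f ∂μ, ∀ n : ℕ, f (s n) ≤ (n : ℤ)) →
      (¬ ∀ᵐ f ∂μ, Tendsto (fun n : ℕ => ((f (s n) : ℤ) : ℝ) / (n : ℝ)) atTop (nhds 1)) →
      ∃ m0 : ℕ, ∀ m : ℕ, m0 < m →
        ∀ᵐ f ∂μ, ∃ᶠ n : ℕ in atTop, (m : ℤ) * f (s n) ≤ (m - 2) * n := by
    intro s hs a b
    obtain ⟨m0, h⟩ : ∃ m : ℕ, ¬ ∀ᵐ f ∂μ, ∀ᶠ n : ℕ in atTop,
        ¬ ((m + 1 : ℕ) : ℤ) * f (s n) ≤ ((m + 1 : ℕ) - 2) * n := by
      by_contra h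
      refine b ?_
      filter_upwards [a, ae_all_iff.2 fun m => not_not.1 (not_exists.1 h m)] with f a b
      exact lim _ a b
    refine ⟨m0, fun m hm => ?_⟩
    filter_upwards [a, dich hτ hs (fun n z => ((m0 + 1 : ℕ) : ℤ) * z ≤ ((m0 + 1 : ℕ) - 2) * n) h]
      with f a b
    refine b.mono fun n hn => ?_
    have : ((m0 + 1 : ℕ) : ℤ) ≤ m := by exact_mod_cast hm
    nlinarith [a n]
  obtain ⟨m1, b1⟩ := bad _ (fun i j h => by simpa using h) hh c1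
  obtain ⟨m2, b2⟩ := bad _ (fun i j h => by simpa using h) hv c2
  obtain ⟨m, hm1, hm2⟩ : ∃ m, m1 < m ∧ m2 < m := ⟨m1 + m2 + 1, by omega, by omega⟩
  have b1 := b1 m hm1
  have b2 := b2 m hm2
  have m0 : (0 : ℤ) < m := by omega
  have inj : ∀ a : ℝ, Function.Injective fun y : ℕ => (⌈a * y⌉, (y : ℤ)) :=
    fun a i j h => by simpa using congrArg Prod.snd h
  have di : ∀ (j : ℤ) (a : ℝ), (¬ ∀ᵐ f ∂μ, ∀ᶠ y : ℕ in atTop, ¬ Ge j ⌈a * y⌉ y f) →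
      ∀ᵐ f ∂μ, ∃ᶠ y : ℕ in atTop, Ge j ⌈a * y⌉ y f :=
    fun j a => dich hτ (inj a) fun y z => z ≤ y - ⌈a * y⌉ - 2 * j
  have mono : ∀ (j : ℤ) (a b : ℝ), a ≤ b → (∀ᵐ f ∂μ, ∃ᶠ y : ℕ in atTop, Ge j ⌈b * y⌉ y f) →
      ∀ᵐ f ∂μ, ∃ᶠ y : ℕ in atTop, Ge j ⌈a * y⌉ y f := by
    intro j a b hab h
    filter_upwards [h, hμ.2.1] with f h c
    exact h.mono fun y hy => ge_mono c hy le_rfl
      (Int.ceil_mono (mul_le_mul_of_nonneg_right hab y.cast_nonneg)) le_rfl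
  obtain ⟨A, A0, hA⟩ : ∃ A : ℝ, 0 ≤ A ∧ ∀ᵐ f ∂μ, ∀ᶠ y : ℕ in atTop, ¬ Ge 1 ⌈A * y⌉ y f := by
    by_contra h
    refine p1 hT hF hO hμ h0' h1 (b1.mono fun f hf => ?_) fun a a0 => di 1 a fun h' => h ⟨a, a0, h'⟩
    obtain ⟨n, n1, n2⟩ := frequently_atTop.1 hf m
    refine ⟨n, ?_⟩
    have : (m : ℤ) ≤ n := by exact_mod_cast n1
    by_contra hc
    have := mul_lt_mul_of_pos_left (not_le.1 hc) m0
    nlinarith
  let Z : Set ℝ := {a | ∀ j : ℕ, ∀ᵐ f ∂μ, ∃ᶠ y : ℕ in atTop, Ge j ⌈a * y⌉ y f}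
  have mr : (0 : ℝ) < m := by exact_mod_cast m0
  have z1 : 1 / (2 * (m : ℝ)) ∈ Z := by
    intro j
    filter_upwards [b2, hμ.2.1] with f h c
    refine (h.and_eventually (eventually_ge_atTop (2 * m * (j + 1)))).mono fun y ⟨y1, y2⟩ => ?_
    have h1 : (⌈1 / (2 * (m : ℝ)) * y⌉ : ℝ) < 1 / (2 * (m : ℝ)) * y + 1 := Int.ceil_lt_add_one _
    have h2 : 0 ≤ ⌈1 / (2 * (m : ℝ)) * y⌉ := Int.ceil_nonneg (by positivity)
    have h3 := (lip c (⌈1 / (2 * (m : ℝ)) * y⌉, y) (0, y)).1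
    simp only [sub_zero, sub_self, abs_zero, add_zero, abs_of_nonneg h2] at h3
    unfold Ge
    generalize ⌈1 / (2 * (m : ℝ)) * y⌉ = X at *
    have h4 : 2 * (m : ℤ) * X < y + 2 * m := by
      have := mul_lt_mul_of_pos_left h1 (by positivity : (0 : ℝ) < 2 * m)
      rw [mul_add, ← mul_assoc, mul_one_div_cancel (by positivity), one_mul, mul_one] at this
      exact_mod_cast this
    have h5 : 2 * (m : ℤ) * (j + 1) ≤ y := by exact_mod_cast y2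
    by_contra hc
    have := mul_lt_mul_of_pos_left (not_le.1 hc) m0
    have := mul_le_mul_of_nonneg_left h3 m0.le
    nlinarith
  have z2 : BddAbove Z := ⟨A, fun a ha => le_of_not_gt fun h => by
    obtain ⟨f, a, b⟩ := ((mono 1 A a h.le (ha 1)).and hA).exists
    exact a b⟩
  refine p2 hT hK hF hμ h0' (by omega) b1 (s := sSup Z)
    (lt_of_lt_of_le (by positivity) (le_csSup z2 z1)) A0 (fun a ha j => ?_) (fun a ha => ?_) hA
  · obtain ⟨b, b1, b2⟩ := exists_lt_of_lt_csSup ⟨_, z1⟩ ha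
    exact mono j a b b2.le (b1 j)
  · by_contra h
    exact (le_csSup z2 fun j => di j a fun h' => h ⟨j, h'⟩).not_gt ha

end Pool.Agent.MP_151d89_pr.H33
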