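import Pool.Agent.MP_151d89_pr.H33.Defs

set_option autoImplicit false
open MeasureTheory Filter

namespace Pool.Agent.MP_151d89_pr.H33
open Pool.Agent.MP_151d89_pr.H82

namespace DLR

theorem fill_ext {Λ : Finset (ℤ × ℤ)} {g a b : ℤ × ℤ → ℤ} (ha : a ∈ Fill Λ g) (hb : b ∈ Fill Λ g)
    (h : ∀ x ∈ Λ, a x = b x) : a = b := by
  funext x
  by_cases hx : x ∈ Λ
  · exact h x hx
  · rw [ha.2 x hx, hb.2 x hx]

theorem fill_countable (Λ : Finset (ℤ × ℤ)) (g : ℤ × ℤ → ℤ) : (Fill Λ g).Countable := by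
  refine Set.countable_of_injective_of_countable_image
    (f := fun (a : ℤ × ℤ → ℤ) (x : Λ) => a x) ?_ (Set.to_countable _)
  intro a ha b hb h
  exact fill_ext ha hb fun x hx => congrFun h ⟨x, hx⟩

theorem piece {μ : Measure (ℤ × ℤ → ℤ)} (hμ : Gibbs μ) {Λ Δ : Finset (ℤ × ℤ)}
    (hΔ : ∀ x ∈ Λ, x ∈ Δ ∧ ∀ y : ℤ × ℤ, |x.1 - y.1| + |x.2 - y.2| = 1 → y ∈ Δ)
    {F B : Set (ℤ × ℤ → ℤ)} {θ : ENNReal} (hB : MeasurableSet B) (hinv : ∀ b, rep Λ b ⁻¹' B = B)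
    (hF : ∀ f g : ℤ × ℤ → ℤ, (∀ x ∈ Δ, f x = g x) → f ∈ F → g ∈ F) {g : ℤ × ℤ → ℤ} (hg : Hom g)
    (hθ : ((Fill Λ g ∩ F).encard : ENNReal) ≤ θ * ((Fill Λ g).encard : ENNReal)) :
    μ (F ∩ B ∩ cyl (Δ \ Λ) g) ≤ θ * μ (B ∩ cyl (Δ \ Λ) g) := by
  have hm : ∀ a ∈ Fill Λ g, μ (B ∩ cyl Δ a) = μ (B ∩ cyl Δ g) := by
    intro a ha
    have e := congrArg (fun m : Measure (ℤ × ℤ → ℤ) => m B) (swap hμ ha.1 hg ha.2 hΔ)
    rw [Measure.map_apply (meas_rep _ _) hB, hinv, Measure.restrict_apply hB,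
      Measure.restrict_apply hB] at e
    exact e
  have c1 : Countable (Fill Λ g) := (fill_countable Λ g).to_subtype
  have c2 : Countable (Fill Λ g ∩ F : Set (ℤ × ℤ → ℤ)) :=
    ((fill_countable Λ g).mono Set.inter_subset_left).to_subtype
  have low : ((Fill Λ g).encard : ENNReal) * μ (B ∩ cyl Δ g) ≤ μ (B ∩ cyl (Δ \ Λ) g) := by
    have hd : Pairwise (Function.onFun Disjoint fun a : Fill Λ g => B ∩ cyl Δ a.1) := by
      intro a b hab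
      refine Set.disjoint_left.2 fun f h h' => hab (Subtype.ext (fill_ext a.2 b.2 fun x hx => ?_))
      rw [← h.2 x (hΔ x hx).1, ← h'.2 x (hΔ x hx).1]
    rw [← ENNReal.tsum_set_const, ← tsum_congr fun a : Fill Λ g => hm a.1 a.2,
      ← measure_iUnion hd fun a => hB.inter (meas_cyl _ _)]
    refine measure_mono (Set.iUnion_subset fun a f hf => ⟨hf.1, fun x hx => ?_⟩)
    rw [Finset.mem_sdiff] at hx
    rw [hf.2 x hx.1, a.2.2 x hx.2]
  have up : μ (F ∩ B ∩ cyl (Δ \ Λ) g) ≤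
      ((Fill Λ g ∩ F).encard : ENNReal) * μ (B ∩ cyl Δ g) := by
    rw [← ENNReal.tsum_set_const,
      ← tsum_congr fun a : (Fill Λ g ∩ F : Set (ℤ × ℤ → ℤ)) => hm a.1 a.2.1]
    refine le_trans (measure_mono_ae ?_) (measure_iUnion_le _)
    filter_upwards [hμ.2.1] with f hf hf'
    have h1 : f ∈ cyl Δ (rep Λ f g) := fun x hx => by
      unfold rep
      split_ifs with hl
      · rfl
      · exact hf'.2 x (Finset.mem_sdiff.2 ⟨hx, hl⟩)
    have h2 : Hom (rep Λ f g) := by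
      refine rep_hom (a := rep Λ g f) hf hg (fun x hx => by simp [rep, hx]) hΔ fun x hx => ?_
      unfold rep
      split_ifs with hl
      · rfl
      · exact (hf'.2 x (Finset.mem_sdiff.2 ⟨hx, hl⟩)).symm
    exact Set.mem_iUnion.2 ⟨⟨rep Λ f g, ⟨h2, fun x hx => by simp [rep, hx]⟩,
      hF f _ h1 hf'.1.1⟩, hf'.1.2, h1⟩
  calc μ (F ∩ B ∩ cyl (Δ \ Λ) g) ≤ _ := up
    _ ≤ θ * ((Fill Λ g).encard : ENNReal) * μ (B ∩ cyl Δ g) := mul_le_mul_left hθ _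
    _ ≤ θ * μ (B ∩ cyl (Δ \ Λ) g) := by rw [mul_assoc]; exact mul_le_mul_right low _

end DLR

theorem dlr : DLRStmt := by
  intro μ hμ Λ Δ hΔ F B θ hB hinv hF hθ
  let π : (ℤ × ℤ → ℤ) → (↥(Δ \ Λ) → ℤ) := fun f x => f x
  have hπ : Measurable π := measurable_pi_lambda _ fun x => measurable_pi_apply _
  have h1 : ∀ p, μ (F ∩ B ∩ π ⁻¹' {p}) ≤ θ * μ (B ∩ π ⁻¹' {p}) := by
    intro p
    by_cases h : ∃ g, Hom g ∧ g ∈ B ∧ π g = p
    · obtain ⟨g, hg, hgB, rfl⟩ := h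
      have e : π ⁻¹' {π g} = cyl (Δ \ Λ) g := by
        ext f
        exact ⟨fun h x hx => congrFun h ⟨x, hx⟩, fun h => funext fun x => h x x.2⟩
      rw [e]
      exact DLR.piece hμ hΔ hB hinv hF hg (hθ g hg hgB)
    · have : μ (F ∩ B ∩ π ⁻¹' {p}) = 0 := by
        refine measure_eq_zero_iff_ae_notMem.2 ?_
        filter_upwards [hμ.2.1] with f hf hf'
        exact h ⟨f, hf, hf'.1.2, hf'.2⟩
      rw [this]
      exact zero_le
  have hd : Pairwise (Function.onFun Disjoint fun p => B ∩ π ⁻¹' {p}) := by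
    intro p q hpq
    exact Set.disjoint_left.2 fun f h h' => hpq (h.2.symm.trans h'.2)
  calc μ (F ∩ B) ≤ μ (⋃ p, F ∩ B ∩ π ⁻¹' {p}) :=
        measure_mono fun f hf => Set.mem_iUnion.2 ⟨π f, hf, rfl⟩
    _ ≤ ∑' p, μ (F ∩ B ∩ π ⁻¹' {p}) := measure_iUnion_le _
    _ ≤ ∑' p, θ * μ (B ∩ π ⁻¹' {p}) := ENNReal.tsum_le_tsum h1
    _ = θ * μ (⋃ p, B ∩ π ⁻¹' {p}) := by
        rw [ENNReal.tsum_mul_left,
          measure_iUnion hd fun p => hB.inter (hπ (measurableSet_singleton p))]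
    _ ≤ θ * μ B := mul_le_mul_right (measure_mono (Set.iUnion_subset fun _ _ h => h.1)) _

end Pool.Agent.MP_151d89_pr.H33
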