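import Pool.Agent.MP_151d89_pr.H33.Model

set_option autoImplicit false
open MeasureTheory Filter

namespace Pool.Agent.MP_151d89_pr.H33

namespace DelA

/-- skip the row y -/
def sk (y t : ℕ) : ℕ := if t < y then t else t + 1

/-- delete row y j from line j -/
def dl {k : ℕ} (x : ℕ → St k) (y : Fin k → ℕ) : ℕ → St k := fun t j => x (sk (y j) t) j

/-- the deleted path together with the deleted data -/
def io {k : ℕ} (a : (ℕ → St k) × (Fin k → ℕ)) : (ℕ → St k) × (Fin k → ℕ × ℤ) :=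
  (dl a.1 a.2, fun j => (a.2 j, a.1 (a.2 j) j))

theorem io_inj {k : ℕ} : Function.Injective (io (k := k)) := by
  rintro ⟨x, y⟩ ⟨x', y'⟩ h
  have h1 : dl x y = dl x' y' := congrArg Prod.fst h
  have h2 : ∀ j, (y j, x (y j) j) = (y' j, x' (y' j) j) := congrFun (congrArg Prod.snd h)
  have hy : y = y' := funext fun j => congrArg Prod.fst (h2 j)
  subst hy
  have hx : x = x' := by
    funext t j
    rcases lt_trichotomy t (y j) with ht | ht | ht
    · have := congrFun (congrFun h1 t) j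
      simpa only [dl, sk, if_pos ht] using this
    · rw [ht]; exact congrArg Prod.snd (h2 j)
    · obtain ⟨u, rfl⟩ : ∃ u, t = u + 1 := ⟨t - 1, by omega⟩
      have := congrFun (congrFun h1 u) j
      simpa only [dl, sk, if_neg (show ¬ u < y j by omega)] using this
  rw [hx]

theorem sk_lt {y t : ℕ} (h : t < y) : sk y t = t := if_pos h

theorem sk_ge {y t : ℕ} (h : y ≤ t) : sk y t = t + 1 := if_neg (by omega)

theorem path_dl {k Y : ℕ} {s : St k} {x : ℕ → St k} {y : Fin k → ℕ} (h : Path (Y + 1) s x)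
    (h0 : ∀ j, 0 < y j) (hY : ∀ j, y j ≤ Y) (hs : ∀ i j : Fin k, i.val + 1 = j.val → y i < y j) :
    Path Y s (dl x y) := by
  refine ⟨?_, fun t ht => ⟨fun j => h.mono ?_ j, fun i j hij => ⟨?_, ?_⟩⟩, fun t ht => ?_⟩
  · funext j
    rw [dl, sk_lt (h0 j), h.1]
  · unfold sk; split_ifs <;> omega
  · have h1 := hs i j hij
    have h2 : sk (y j) (t + 1) ≤ sk (y i) t + 1 := by unfold sk; split_ifs <;> omega
    have h3 : sk (y i) t < Y + 1 := by unfold sk; split_ifs <;> omega
    exact (h.mono h2 j).trans ((h.2.1 _ h3).2 i j hij).1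
  · have h1 := hs i j hij
    obtain ⟨u, hu, h3, h2⟩ : ∃ u, sk (y i) (t + 1) = u + 1 ∧ u < Y + 1 ∧
        sk (y j) (t + 1) ≤ u + 1 :=
      ⟨sk (y i) (t + 1) - 1, by unfold sk; split_ifs <;> omega⟩
    have h4 := ((h.2.1 _ h3).2 i j hij).2
    rw [dl, dl, hu]
    exact (h.mono h2 j).trans_lt h4
  · funext j
    rw [dl, dl, sk_ge (hY j), sk_ge ((hY j).trans ht), h.2.2 (t + 1) (by omega)]

/-- the possible deleted data -/
def Oc (u : ℕ → ℤ) (b n : ℕ) (o : ℕ × ℤ) : Prop :=
  b < o.1 ∧ o.1 ≤ b + n ∧ u (o.1 - 1) ≤ o.2 ∧ o.2 ≤ u o.1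

theorem sum_gap {u : ℕ → ℤ} (hu : Monotone u) (b n : ℕ) :
    ((∑ y ∈ Finset.Ioc b (b + n), (u y + 1 - u (y - 1)).toNat : ℕ) : ℤ) =
      n + (u (b + n) - u b) := by
  induction n with
  | zero => simp
  | succ n ih =>
    rw [← add_assoc, Finset.sum_Ioc_succ_top (Nat.le_add_right b n), Nat.cast_add, ih,
      Nat.add_sub_cancel]
    have := hu (Nat.le_succ (b + n))
    simp only [Nat.succ_eq_add_one] at this
    omega

open Classical in
theorem tsum_Oc {u : ℕ → ℤ} (hu : Monotone u) (b n : ℕ) :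
    (∑' o : ℕ × ℤ, if Oc u b n o then (1 : ENNReal) else 0) ≤
      ENNReal.ofReal (n + ((u (b + n) - u b : ℤ) : ℝ)) := by
  let O : Finset (ℕ × ℤ) := (Finset.Ioc b (b + n)).biUnion fun y =>
    (Finset.Icc (u (y - 1)) (u y)).image fun v => (y, v)
  have h1 : O.card ≤ ∑ y ∈ Finset.Ioc b (b + n), (u y + 1 - u (y - 1)).toNat :=
    Finset.card_biUnion_le.trans (Finset.sum_le_sum fun y _ =>
      Finset.card_image_le.trans (Int.card_Icc _ _).le)
  have h2 : (O.card : ℝ) ≤ n + ((u (b + n) - u b : ℤ) : ℝ) := by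
    have h3 : (O.card : ℤ) ≤ n + (u (b + n) - u b) := by
      rw [← sum_gap hu]; exact_mod_cast h1
    exact_mod_cast h3
  rw [tsum_eq_sum (s := O)]
  · refine (Finset.sum_le_card_nsmul _ _ 1 fun o _ => by split_ifs <;> simp).trans ?_
    rw [nsmul_one, ← ENNReal.ofReal_natCast]
    exact ENNReal.ofReal_le_ofReal h2
  · rintro ⟨y, v⟩ ho
    refine if_neg fun h => ho ?_
    exact Finset.mem_biUnion.2 ⟨y, Finset.mem_Ioc.2 ⟨h.1, h.2.1⟩,
      Finset.mem_image.2 ⟨v, Finset.mem_Icc.2 h.2.2, rfl⟩⟩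

theorem tsum_Ioc (b n : ℕ) :
    (∑' y : ℕ, if b < y ∧ y ≤ b + n then (1 : ENNReal) else 0) = n := by
  rw [tsum_eq_sum (s := Finset.Ioc b (b + n))]
  · rw [Finset.sum_congr rfl fun y hy => if_pos (Finset.mem_Ioc.1 hy)]
    simp
  · exact fun y hy => if_neg fun h => hy (Finset.mem_Ioc.2 h)

theorem tangent {q : ℝ} (h1 : q < 1) {n : ℕ} (hn : 1 ≤ n) (d : ℝ) :
    (1 - q) * Real.exp ((1 - q) * (q / (1 - q) - d / n)) * (n + d) ≤ n := by
  have hq : 0 < 1 - q := by linarith
  have hn0 : (0 : ℝ) < n := by exact_mod_cast hn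
  have e1 : (1 - q) * (q / (1 - q) - d / n) = -((1 - q) * (d / n) - q) := by field_simp; ring
  have h2 := Real.add_one_le_exp ((1 - q) * (d / n) - q)
  have e2 : (1 - q) * (n + d) = ((1 - q) * (d / n) - q + 1) * n := by field_simp; ring
  rw [e1, Real.exp_neg, mul_right_comm, e2, ← div_eq_mul_inv, div_le_iff₀ (Real.exp_pos _),
    mul_comm]
  exact mul_le_mul_of_nonneg_left h2 hn0.le

open Classical in
theorem count {q : ℝ} (h0 : 0 < q) (h1 : q < 1) {k Y : ℕ} (s : St k) (b n : Fin k → ℕ)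
    (hY : ∀ j, b j + n j ≤ Y) (hs : ∀ i j : Fin k, i.val + 1 = j.val → b i + n i ≤ b j)
    (φ : (Fin k → ℤ) → ENNReal) :
    (∏ j, (n j : ENNReal)) * Ex q (Y + 1) s (fun x => φ fun j => x (b j + n j + 1) j - x (b j) j) ≤
      Ex q Y s fun x => ENNReal.ofReal ((1 - q) ^ k) * (φ fun j => x (b j + n j) j - x (b j) j) *
        ∏ j, ENNReal.ofReal (n j + ((x (b j + n j) j - x (b j) j : ℤ) : ℝ)) := by
  have hq : 0 ≤ 1 - q := by linarith
  let g : (ℕ → St k) × (Fin k → ℕ) → ENNReal := fun a =>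
    if Path (Y + 1) s a.1 then wt q (Y + 1) a.1 *
      ((φ fun j => a.1 (b j + n j + 1) j - a.1 (b j) j) *
        ∏ j, if b j < a.2 j ∧ a.2 j ≤ b j + n j then 1 else 0) else 0
  let f : (ℕ → St k) × (Fin k → ℕ × ℤ) → ENNReal := fun a =>
    if Path Y s a.1 then wt q Y a.1 * (ENNReal.ofReal ((1 - q) ^ k) *
      (φ fun j => a.1 (b j + n j) j - a.1 (b j) j) *
        ∏ j, if Oc (fun t => a.1 t j) (b j) (n j) (a.2 j) then 1 else 0) else 0
  have e1 : (∏ j, (n j : ENNReal)) *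
      Ex q (Y + 1) s (fun x => φ fun j => x (b j + n j + 1) j - x (b j) j) = ∑' a, g a := by
    rw [← Ex_const_mul, ENNReal.tsum_prod']
    unfold Ex
    refine tsum_congr fun x => ?_
    by_cases hx : Path (Y + 1) s x
    · simp only [g, if_pos hx]
      rw [ENNReal.tsum_mul_left, ENNReal.tsum_mul_left,
        tsum_pi k fun j y => if b j < y ∧ y ≤ b j + n j then (1 : ENNReal) else 0]
      simp only [tsum_Ioc]
      ring
    · simp only [g, if_neg hx, tsum_zero]
  have e2 : ∀ a, g a ≤ f (io a) := by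
    rintro ⟨x, y⟩
    by_cases hx : Path (Y + 1) s x
    swap
    · simp only [g, if_neg hx]; exact bot_le
    by_cases hy : ∀ j, b j < y j ∧ y j ≤ b j + n j
    swap
    · obtain ⟨j, hj⟩ := not_forall.1 hy
      simp only [g, if_pos hx]
      rw [Finset.prod_eq_zero (Finset.mem_univ j) (if_neg hj), mul_zero, mul_zero]
      exact bot_le
    have hp : Path Y s (dl x y) := path_dl hx (fun j => by have := hy j; omega)
      (fun j => (hy j).2.trans (hY j)) fun i j hij => by
        have := hy i; have := hy j; have := hs i j hij; omega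
    have hO : ∀ j, Oc (fun t => dl x y t j) (b j) (n j) (y j, x (y j) j) := fun j => by
      have := hy j
      refine ⟨this.1, this.2, hx.mono ?_ j, hx.mono ?_ j⟩
      · rw [sk_lt (by simp only; omega)]; exact Nat.sub_le _ _
      · rw [sk_ge le_rfl]; exact Nat.le_succ _
    have hD : (fun j => dl x y (b j + n j) j - dl x y (b j) j) =
        fun j => x (b j + n j + 1) j - x (b j) j := by
      funext j
      rw [dl, dl, sk_ge (hy j).2, sk_lt (hy j).1]
    have hE : dl x y Y = x (Y + 1) := by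
      funext j
      rw [dl, sk_ge ((hy j).2.trans (hY j))]
    have hw : wt q (Y + 1) x = wt q Y (dl x y) * ENNReal.ofReal ((1 - q) ^ k) := by
      rw [wt_eq h0 h1 hx, wt_eq h0 h1 hp, hE, ← ENNReal.ofReal_mul (by positivity)]
      congr 1; ring
    simp only [g, f, io, if_pos hx, if_pos hp, hD, if_pos (hO _), if_pos (hy _), hw]
    simp only [mul_assoc, le_refl]
  rw [e1]
  refine (ENNReal.tsum_le_tsum e2).trans
    ((ENNReal.tsum_comp_le_tsum_of_injective io_inj f).trans ?_)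
  rw [ENNReal.tsum_prod']
  unfold Ex
  refine ENNReal.tsum_le_tsum fun x => ?_
  by_cases hx : Path Y s x
  · simp only [f, if_pos hx]
    rw [ENNReal.tsum_mul_left, ENNReal.tsum_mul_left,
      tsum_pi k fun j o => if Oc (fun t => x t j) (b j) (n j) o then (1 : ENNReal) else 0]
    gcongr with j
    exact tsum_Oc (fun t t' ht => hx.mono ht j) _ _
  · simp only [f, if_neg hx, tsum_zero, le_refl]

end DelA

theorem del : DelStmt := by
  intro q h0 h1 k Y s b n hn hY hs
  have hq : 0 ≤ 1 - q := by linarith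
  have h := DelA.count h0 h1 s b n hY hs fun d =>
    ENNReal.ofReal (Real.exp ((1 - q) * ∑ j, (q / (1 - q) - ((d j : ℤ) : ℝ) / n j)))
  have hN0 : (∏ j, (n j : ENNReal)) ≠ 0 :=
    Finset.prod_ne_zero_iff.2 fun j _ => by have := hn j; exact_mod_cast (by omega : n j ≠ 0)
  have hNt : (∏ j, (n j : ENNReal)) ≠ ⊤ :=
    ENNReal.prod_ne_top fun j _ => ENNReal.natCast_ne_top _
  refine (ENNReal.mul_le_mul_iff_right hN0 hNt).1 (h.trans ?_)
  rw [hh, ← Ex_const_mul]
  refine Ex_mono q fun x hx => ?_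
  have hpos : ∀ j, (0 : ℝ) ≤ n j + ((x (b j + n j) j - x (b j) j : ℤ) : ℝ) := fun j =>
    add_nonneg (Nat.cast_nonneg _) (by
      exact_mod_cast sub_nonneg.2 (hx.mono (Nat.le_add_right _ _) j))
  have e : (1 - q) ^ k = ∏ _j : Fin k, (1 - q) := by simp
  rw [mul_one, Finset.mul_sum, Real.exp_sum, e,
    ENNReal.ofReal_prod_of_nonneg fun _ _ => hq,
    ENNReal.ofReal_prod_of_nonneg fun _ _ => (Real.exp_pos _).le,
    ← Finset.prod_mul_distrib, ← Finset.prod_mul_distrib]
  refine Finset.prod_le_prod' fun j _ => ?_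
  rw [← ENNReal.ofReal_mul hq, ← ENNReal.ofReal_mul (by positivity), ← ENNReal.ofReal_natCast]
  exact ENNReal.ofReal_le_ofReal (DelA.tangent h1 (hn j) _)

end Pool.Agent.MP_151d89_pr.H33
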