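import Pool.Agent.MP_151d89_pr.H33.Model

set_option autoImplicit false
open MeasureTheory Filter

namespace Pool.Agent.MP_151d89_pr.H33

namespace FarA

theorem hh_triv {q : ℝ} (h0 : 0 < q) (h1 : q < 1) {k : ℕ} (hk : k ≤ 1) (n : ℕ) (s : St k) :
    hh q n s = 1 := by
  induction n generalizing s with
  | zero => exact hh_zero q s
  | succ n ih =>
    rw [hh_succ, ← W_sum h0 h1 k]
    unfold P
    refine tsum_congr fun a => ?_
    rw [if_pos ⟨fun j => by simp [add], fun i j hij => by have := j.2; omega⟩, ih, mul_one]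

theorem big {c δ : ℝ} (M : ℝ) (hc : 0 < c) (hδ : 0 < δ) :
    ∃ Y0 : ℕ, ∀ Y : ℕ, Y0 ≤ Y → M < c * Real.exp (δ * Y) := by
  obtain ⟨Y0, h⟩ := exists_nat_ge (M / (c * δ))
  refine ⟨Y0, fun Y hY => ?_⟩
  have h1 : (Y0 : ℝ) ≤ Y := by exact_mod_cast hY
  have h2 : M ≤ Y * (c * δ) := (div_le_iff₀ (by positivity)).1 (h.trans h1)
  have h3 := Real.add_one_le_exp (δ * Y)
  nlinarith

theorem subexp (hF1 : BlockStmt) (hF2 : BaseStmt) {q : ℝ} (h0 : 0 < q) (h1 : q < 1) (k : ℕ)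
    (s0 : ℤ) {ε : ℝ} (hε : 0 < ε) : ∃ c : ℝ, 0 < c ∧ ∀ Y : ℕ,
      ENNReal.ofReal (c * Real.exp (-(ε * Y))) ≤ hh q Y (st k s0) := by
  rcases Nat.eq_zero_or_pos k with rfl | hk
  · refine ⟨1, one_pos, fun Y => ?_⟩
    rw [hh_triv h0 h1 (by omega), one_mul, ENNReal.ofReal_le_one, Real.exp_le_one_iff]
    have : 0 ≤ ε * Y := by positivity
    linarith
  obtain ⟨c, c3, hc, hc3, h⟩ := hF1 q q h0 h1
  obtain ⟨d0, hd0⟩ := exists_nat_ge (max 1 ((c3 : ℝ) ^ k * (k + 1).factorial / ε ^ (k + 1)))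
  have hd1 : 1 ≤ d0 := by exact_mod_cast (le_max_left _ _).trans hd0
  have hpow : ((c3 : ℝ) * d0) ^ k ≤ Real.exp (ε * d0) := by
    refine le_trans ?_ (Real.pow_div_factorial_le_exp _ (by positivity) (k + 1))
    have h2 := (div_le_iff₀ (by positivity)).1 ((le_max_right _ _).trans hd0)
    rw [le_div_iff₀ (by positivity), mul_pow, mul_pow, pow_succ (d0 : ℝ)]
    have h3 : (0 : ℝ) ≤ (d0 : ℝ) ^ k := by positivity
    nlinarith [mul_le_mul_of_nonneg_left h2 h3]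
  obtain ⟨d, hd, hn⟩ := h q le_rfl le_rfl d0 hd1
  have hB : 1 ≤ c * d0 := Nat.mul_pos hc hd1
  have hq : 0 < 1 - q := by linarith
  have hr : (0 : ℝ) < c3 * d0 := by positivity
  let C0 : ℝ := (1 - q) ^ (c * d0 * ∑ j : Fin k,
    (j.val + 1 + (st k s0 ⟨0, hk⟩ - st k s0 j).toNat / d)) *
      q ^ (∑ j : Fin k, (st k s0 j - st k s0 ⟨0, hk⟩).toNat)
  have hC0 : 0 < C0 := by positivity
  refine ⟨C0 * (1 / (c3 * d0)) ^ (k * (2 * k + 1)), by positivity, fun Y => ?_⟩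
  have key := hF2 q h0 h1 k s0 ⟨0, hk⟩ (c * d0) d (2 * k + 1 + Y / (c * d0)) 0 (st k s0) hB
    (hd1.trans hd) (fun i j hij => by simp only [st]; omega) (fun j => by
      have h2 := j.2
      have h3 : (st k s0 ⟨0, hk⟩ - st k s0 j).toNat / d ≤ j.val :=
        (Nat.div_le_self _ _).trans (by simp [st])
      generalize Y / (c * d0) = e
      omega)
  rw [hh_zero, mul_one, add_zero] at key
  have hY : Y ≤ c * d0 * (2 * k + 1 + Y / (c * d0)) := by
    have := Nat.lt_mul_div_succ Y hB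
    refine this.le.trans (Nat.mul_le_mul_left _ (by omega))
  refine le_trans ?_ (key.trans (hh_anti h0 h1 hY _))
  refine le_trans ?_ (mul_le_mul_right (pow_le_pow_left' hn _) _)
  rw [← ENNReal.ofReal_pow (by positivity), ← ENNReal.ofReal_mul hC0.le]
  refine ENNReal.ofReal_le_ofReal ?_
  rw [mul_add k (2 * k + 1), pow_add (1 / ((c3 : ℝ) * d0)), mul_assoc C0]
  refine mul_le_mul_of_nonneg_left ?_ hC0.le
  refine mul_le_mul_of_nonneg_left ?_ (pow_nonneg (by positivity) _)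
  have h4 : d0 * (Y / (c * d0)) ≤ Y :=
    (Nat.mul_le_mul_right _ (Nat.le_mul_of_pos_left d0 hc)).trans (Nat.mul_div_le Y _)
  have h5 : (d0 : ℝ) * (Y / (c * d0) : ℕ) ≤ Y := by exact_mod_cast h4
  rw [pow_mul, one_div, inv_pow]
  refine le_trans ?_ (pow_le_pow_left₀ (by positivity) (inv_anti₀ (by positivity) hpow) _)
  rw [← Real.exp_neg, ← Real.exp_nat_mul, Real.exp_le_exp]
  nlinarith

theorem tilt {q a : ℝ} (h0 : 0 < q) (h1 : q < 1) (ha : q / (1 - q) < a) :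
    ∃ θ : ℝ, 0 < θ ∧ q * Real.exp θ < 1 ∧ (1 - q) / (1 - q * Real.exp θ) < Real.exp (θ * a) := by
  have hq : 0 < 1 - q := by linarith
  have ha0 : 0 < a := (div_pos h0 hq).trans ha
  have hδ : 0 < a * (1 - q) - q := by
    have := (div_lt_iff₀ hq).1 ha
    linarith
  obtain ⟨t, ht, h2⟩ : ∃ t : ℝ, 0 < t ∧ t * (q + a * q) < a * (1 - q) - q := by
    refine ⟨(a * (1 - q) - q) / (2 * (q + a * q)), by positivity, ?_⟩
    rw [div_mul_eq_mul_div, div_lt_iff₀ (by positivity)]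
    have : 0 < (a * (1 - q) - q) * (q + a * q) := by positivity
    linarith
  have h3 : q * (1 + t) < a * (1 - q * (1 + t)) := by nlinarith
  have h4 : 0 < 1 - q * (1 + t) := by
    have : 0 < a * (1 - q * (1 + t)) := lt_trans (by positivity) h3
    exact (mul_pos_iff_of_pos_left ha0).1 this
  have h5 : t / (1 + t) ≤ Real.log (1 + t) := by
    have := Real.one_sub_inv_le_log_of_pos (x := 1 + t) (by positivity)
    rwa [show 1 - (1 + t)⁻¹ = t / (1 + t) by field_simp; ring] at this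
  refine ⟨Real.log (1 + t), Real.log_pos (by linarith), ?_, ?_⟩
  · rw [Real.exp_log (by positivity)]; linarith
  · rw [Real.exp_log (by positivity), div_lt_iff₀ h4]
    have h6 : t / (1 + t) * a + 1 ≤ Real.exp (Real.log (1 + t) * a) :=
      le_trans (by nlinarith) (Real.add_one_le_exp _)
    refine lt_of_lt_of_le ?_ (mul_le_mul_of_nonneg_right h6 h4.le)
    have h7 : q * t < t / (1 + t) * a * (1 - q * (1 + t)) := by
      rw [div_mul_eq_mul_div, div_mul_eq_mul_div, lt_div_iff₀ (by positivity)]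
      nlinarith
    nlinarith

theorem P_exp {q θ : ℝ} (h0 : 0 < q) (h1 : q < 1) (hθ : q * Real.exp θ < 1) {k : ℕ} (j : Fin k)
    (l : St k) : P q (fun m => ENNReal.ofReal (Real.exp (θ * m j))) l ≤
      ENNReal.ofReal ((1 - q) / (1 - q * Real.exp θ)) * ENNReal.ofReal (Real.exp (θ * l j)) := by
  refine (P_le q _ l).trans (le_of_eq ?_)
  have e : ∀ a : Fin k → ℕ, (∏ i, w q (a i)) * ENNReal.ofReal (Real.exp (θ * add l a j)) =
      (∏ i, w q (a i) * if i = j then ENNReal.ofReal (Real.exp θ ^ a i) else 1) *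
        ENNReal.ofReal (Real.exp (θ * l j)) := fun a => by
    rw [Finset.prod_mul_distrib, Finset.prod_ite_eq' Finset.univ j, if_pos (Finset.mem_univ j),
      mul_assoc, ← ENNReal.ofReal_mul (by positivity), ← Real.exp_nat_mul, ← Real.exp_add]
    congr 3
    simp only [add]
    push_cast
    ring
  simp_rw [e]
  rw [ENNReal.tsum_mul_right, tsum_pi k fun i b => w q b *
    if i = j then ENNReal.ofReal (Real.exp θ ^ b) else 1, Finset.prod_eq_single j]
  · simp only [if_true]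
    rw [w_gf h0 h1 (Real.exp_pos θ).le hθ]
  · intro i _ hi
    simp only [hi, if_false, mul_one]
    exact w_sum h0 h1
  · simp

theorem Ex_pow (q : ℝ) {k : ℕ} (r : ENNReal) (Φ : St k → ENNReal) (h : ∀ l, P q Φ l ≤ r * Φ l)
    (n : ℕ) (s : St k) : Ex q n s (fun x => Φ (x n)) ≤ r ^ n * Φ s := by
  induction n generalizing s with
  | zero => rw [Ex_zero]; simp
  | succ n ih =>
    rw [Ex_succ, pow_succ, mul_assoc]
    refine le_trans ?_ (mul_le_mul_right (h s) _)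
    rw [← P_const_mul]
    exact P_mono q fun m _ => ih m

theorem far_a {q : ℝ} (h0 : 0 < q) (h1 : q < 1) (k : ℕ) (s0 : ℤ)
    (hs : ∀ ε : ℝ, 0 < ε → ∃ c : ℝ, 0 < c ∧ ∀ Y : ℕ,
      ENNReal.ofReal (c * Real.exp (-(ε * Y))) ≤ hh q Y (st k s0))
    {a : ℝ} (ha : q / (1 - q) < a) : ∃ Y0 : ℕ, ∀ Y, Y0 ≤ Y →
      3 / 4 * hh q Y (st k s0) ≤ Pr q Y (st k s0) {x | ∀ j, x Y j ≤ ⌈a * Y⌉} := by
  obtain ⟨θ, hθ, h2, h3⟩ := tilt h0 h1 ha
  have hr : 0 < (1 - q) / (1 - q * Real.exp θ) := div_pos (by linarith) (by linarith)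
  obtain ⟨γ, hγ, h4⟩ : ∃ γ : ℝ, 0 < γ ∧
      (1 - q) / (1 - q * Real.exp θ) = Real.exp (θ * a - 2 * γ) := by
    refine ⟨(θ * a - Real.log ((1 - q) / (1 - q * Real.exp θ))) / 2, ?_, ?_⟩
    · have := (Real.log_lt_iff_lt_exp hr).2 h3
      linarith
    · rw [show θ * a - 2 * ((θ * a - Real.log ((1 - q) / (1 - q * Real.exp θ))) / 2) =
        Real.log ((1 - q) / (1 - q * Real.exp θ)) by ring, Real.exp_log hr]
  obtain ⟨c, hc, h5⟩ := hs γ hγ
  obtain ⟨Y0, h6⟩ := big (4 * k * Real.exp (θ * s0)) hc hγ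
  refine ⟨Y0, fun Y hY => ?_⟩
  have hfin : 1 / 4 * hh q Y (st k s0) ≠ ⊤ :=
    ENNReal.mul_ne_top (by simp) ((hh_le_one h0 h1 Y _).trans_lt ENNReal.one_lt_top).ne
  have h7 : ENNReal.ofReal (Real.exp (θ * a * Y)) *
      Pr q Y (st k s0) {x | ∀ j, x Y j ≤ ⌈a * Y⌉}ᶜ ≤
      Ex q Y (st k s0) fun x => ∑ j, ENNReal.ofReal (Real.exp (θ * x Y j)) := by
    refine Pr_markov q fun x _ hx => ?_
    obtain ⟨j, hj⟩ := not_forall.1 hx
    refine le_trans ?_ (Finset.single_le_sum (f := fun j => ENNReal.ofReal (Real.exp (θ * x Y j)))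
      (fun _ _ => bot_le) (Finset.mem_univ j))
    refine ENNReal.ofReal_le_ofReal (Real.exp_le_exp.2 ?_)
    have h8 : ((⌈a * Y⌉ : ℤ) : ℝ) ≤ x Y j := by exact_mod_cast (not_le.1 hj).le
    rw [mul_assoc]
    exact mul_le_mul_of_nonneg_left ((Int.le_ceil _).trans h8) hθ.le
  have h8 : (Ex q Y (st k s0) fun x => ∑ j, ENNReal.ofReal (Real.exp (θ * x Y j))) ≤
      ENNReal.ofReal (k * (Real.exp (θ * a - 2 * γ) ^ Y * Real.exp (θ * s0))) := by
    rw [Ex_sum, ENNReal.ofReal_mul (by positivity), ENNReal.ofReal_natCast,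
      ENNReal.ofReal_mul (by positivity), ENNReal.ofReal_pow (by positivity), ← h4]
    refine (Finset.sum_le_card_nsmul _ _ (ENNReal.ofReal ((1 - q) / (1 - q * Real.exp θ)) ^ Y *
      ENNReal.ofReal (Real.exp (θ * s0))) fun j _ => ?_).trans (by simp)
    refine (Ex_pow q _ _ (P_exp h0 h1 h2 j) Y _).trans (mul_le_mul_right ?_ _)
    refine ENNReal.ofReal_le_ofReal (Real.exp_le_exp.2 (mul_le_mul_of_nonneg_left ?_ hθ.le))
    simp [st]
  have h9 : ENNReal.ofReal (k * (Real.exp (θ * a - 2 * γ) ^ Y * Real.exp (θ * s0))) ≤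
      ENNReal.ofReal (Real.exp (θ * a * Y)) * (1 / 4 * hh q Y (st k s0)) := by
    refine le_trans ?_ (mul_le_mul_right (mul_le_mul_right (h5 Y) _) _)
    rw [show (1 / 4 : ENNReal) = ENNReal.ofReal (1 / 4) by
      rw [ENNReal.ofReal_div_of_pos (by norm_num)]; simp,
      ← ENNReal.ofReal_mul (by norm_num), ← ENNReal.ofReal_mul (by positivity)]
    refine ENNReal.ofReal_le_ofReal ?_
    have e1 : Real.exp (θ * a - 2 * γ) ^ Y =
        Real.exp (θ * a * Y) * (Real.exp (-(γ * Y)) * Real.exp (-(γ * Y))) := by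
      rw [← Real.exp_nat_mul, ← Real.exp_add, ← Real.exp_add]; congr 1; ring
    have e2 : Real.exp (-(γ * Y)) * Real.exp (γ * Y) = 1 := by rw [← Real.exp_add]; simp
    have e3 := mul_le_mul_of_nonneg_left (h6 Y hY).le (Real.exp_pos (-(γ * Y))).le
    have e4 : k * (Real.exp (-(γ * Y)) * Real.exp (θ * s0)) ≤ 1 / 4 * c := by nlinarith
    have e5 := mul_le_mul_of_nonneg_left e4
      (mul_pos (Real.exp_pos (θ * a * Y)) (Real.exp_pos (-(γ * Y)))).le
    rw [e1]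
    nlinarith
  have h10 := (ENNReal.mul_le_mul_iff_right (by simpa using Real.exp_pos _)
    ENNReal.ofReal_ne_top).1 (h7.trans (h8.trans h9))
  rw [← ENNReal.add_le_add_iff_right hfin, ← add_mul,
    show (3 / 4 + 1 / 4 : ENNReal) = 1 by
      rw [ENNReal.div_add_div_same, show (3 + 1 : ENNReal) = 4 by norm_num]
      exact ENNReal.div_self (by simp) (by simp), one_mul]
  exact (Pr_add_compl q Y _ _).symm.le.trans (add_le_add_right h10 _)

theorem far_b {q : ℝ} (h0 : 0 < q) (h1 : q < 1) (k : ℕ) (s0 : ℤ)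
    (hs : ∀ ε : ℝ, 0 < ε → ∃ c : ℝ, 0 < c ∧ ∀ Y : ℕ,
      ENNReal.ofReal (c * Real.exp (-(ε * Y))) ≤ hh q Y (st k s0))
    {η : ℝ} (hη : 0 < η) : ∃ Y0 : ℕ, ∀ y, Y0 ≤ y → ∃ Y : ℕ, y ≤ Y ∧
      ((Y + 1 : ℕ) : ℝ) ≤ (1 + η) * y ∧ hh q Y (st k s0) ≤ 2 * hh q (Y + 1) (st k s0) := by
  obtain ⟨c, hc, h2⟩ := hs (η / 4 / (1 + η)) (by positivity)
  obtain ⟨Y0, h3⟩ := big (c := c) (δ := η / 4) (Real.exp (1 / 2)) hc (by positivity)
  refine ⟨Y0, fun y hy => ?_⟩
  by_contra hcon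
  have hm : ((⌊η * y⌋₊ : ℕ) : ℝ) ≤ η * y := Nat.floor_le (by positivity)
  have hm' : η * y < (⌊η * y⌋₊ : ℕ) + 1 := Nat.lt_floor_add_one _
  have h4 : ∀ m : ℕ, m ≤ ⌊η * y⌋₊ → 2 ^ m * hh q (y + m) (st k s0) ≤ 1 := by
    intro m
    induction m with
    | zero => intro _; simpa using hh_le_one h0 h1 y _
    | succ m ih =>
      intro h
      refine le_trans ?_ (ih (by omega))
      rw [pow_succ, mul_assoc]
      refine mul_le_mul_right (not_le.1 fun h5 => hcon ⟨y + m, by omega, ?_, h5⟩).le _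
      have h6 : ((m + 1 : ℕ) : ℝ) ≤ (⌊η * y⌋₊ : ℕ) := by exact_mod_cast h
      push_cast at h6 ⊢
      linarith
  have h5 := (mul_le_mul_right (h2 (y + ⌊η * y⌋₊)) _).trans (h4 _ le_rfl)
  rw [show (2 : ENNReal) = ENNReal.ofReal 2 by simp, ← ENNReal.ofReal_pow (by norm_num),
    ← ENNReal.ofReal_mul (by positivity), ENNReal.ofReal_le_one] at h5
  generalize ⌊η * y⌋₊ = m at hm hm' h5
  have h6 : Real.exp (m * (1 / 2)) ≤ 2 ^ m := by
    rw [Real.exp_nat_mul]
    refine pow_le_pow_left₀ (by positivity) ?_ m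
    rw [← Real.le_log_iff_exp_le (by norm_num)]
    linarith [Real.log_two_gt_d9]
  have h7 : η / 4 / (1 + η) * ((y + m : ℕ) : ℝ) ≤ η / 4 * y := by
    rw [div_mul_eq_mul_div, div_le_iff₀ (by positivity), mul_assoc]
    refine mul_le_mul_of_nonneg_left ?_ (by positivity)
    push_cast
    linarith
  have h8 : Real.exp (η / 4 * y) ≤ Real.exp (1 / 2) *
      (Real.exp (m * (1 / 2)) * Real.exp (-(η / 4 / (1 + η) * ((y + m : ℕ) : ℝ)))) := by
    rw [← Real.exp_add, ← Real.exp_add, Real.exp_le_exp]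
    linarith
  have h9 := mul_le_mul_of_nonneg_right h6
    (mul_pos hc (Real.exp_pos (-(η / 4 / (1 + η) * ((y + m : ℕ) : ℝ))))).le
  have h10 := mul_le_mul_of_nonneg_left h8 hc.le
  have h11 := mul_le_mul_of_nonneg_left (h9.trans h5) (Real.exp_pos (1 / 2)).le
  have h12 := h3 y hy
  nlinarith

end FarA

open FarA in
theorem far (hF1 : BlockStmt) (hF2 : BaseStmt) : FarStmt := by
  intro q h0 h1 k s0
  have hs := fun ε (hε : 0 < ε) => subexp hF1 hF2 h0 h1 k s0 hε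
  refine ⟨fun Y h => ?_, fun a ha => far_a h0 h1 k s0 hs ha, fun η hη => far_b h0 h1 k s0 hs hη⟩
  obtain ⟨c, hc, h2⟩ := hs 1 one_pos
  have := h2 Y
  rw [h, nonpos_iff_eq_zero, ENNReal.ofReal_eq_zero] at this
  exact absurd this (not_le.2 (by positivity))

open FarA in
theorem one : OneStmt := by
  intro q h0 h1 s0 X Y hY
  obtain ⟨n, rfl⟩ : ∃ n, Y = n + 1 := ⟨Y - 1, by omega⟩
  rw [hh_triv h0 h1 le_rfl, mul_one, Pr, Ex_succ]
  have h2 : ∀ m : St 1, (Ex q n m fun x => Set.indicator {x : ℕ → St 1 | x 1 0 < X}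
      (fun _ => (1 : ENNReal)) (cons (st 1 s0) x)) ≤ if m 0 < X then 1 else 0 := fun m => by
    refine le_trans (Ex_mono q (G' := fun _ => (if m 0 < X then 1 else 0) * 1) fun x hx => ?_) ?_
    · by_cases h : m 0 < X
      · rw [if_pos h, mul_one]
        exact Set.indicator_le_self' (fun _ _ => bot_le) _
      · rw [Set.indicator_of_notMem]
        · exact bot_le
        · show ¬ x 0 0 < X
          rwa [hx.1]
    · rw [Ex_const_mul]
      exact (mul_le_mul_right (hh_le_one h0 h1 n m) _).trans (mul_one _).le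
  refine (P_mono q fun m _ => h2 m).trans ((P_le q _ _).trans ?_)
  have h3 := tsum_pi 1 fun _ (b : ℕ) => w q b * if s0 + b < X then 1 else 0
  simp only [Fin.prod_univ_one] at h3
  simp only [Fin.prod_univ_one, add, st, Fin.val_zero, Nat.cast_zero, sub_zero]
  rw [h3, tsum_eq_sum (s := Finset.range (X - s0).natAbs) (fun b hb => by
    rw [Finset.mem_range] at hb
    rw [if_neg (by omega), mul_zero])]
  refine (Finset.sum_le_card_nsmul _ _ (ENNReal.ofReal (1 - q)) fun b _ => ?_).trans ?_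
  · refine le_trans (mul_le_mul_right (show _ ≤ (1 : ENNReal) by split_ifs <;> simp) _) ?_
    rw [mul_one, w]
    exact ENNReal.ofReal_le_ofReal
      (mul_le_of_le_one_right (by linarith) (pow_le_one₀ h0.le h1.le))
  · rw [Finset.card_range, nsmul_eq_mul, ENNReal.ofReal_mul (abs_nonneg _), ← Int.cast_abs,
      ← Int.natCast_natAbs, Int.cast_natCast, ENNReal.ofReal_natCast]

end Pool.Agent.MP_151d89_pr.H33
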