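import Pool.Agent.MP_151d89_pr.H33.Model

set_option autoImplicit false
open MeasureTheory Filter

namespace Pool.Agent.MP_151d89_pr.H33

namespace Pair

/-- the right line of a pair -/
def ev {p : ℕ} (i : Fin p) : Fin (2 * p) := ⟨2 * i.val, by omega⟩

/-- the left line of a pair -/
def od {p : ℕ} (i : Fin p) : Fin (2 * p) := ⟨2 * i.val + 1, by omega⟩

theorem range_pairs {M : Type*} [CommMonoid M] (p : ℕ) (g : ℕ → M) :
    ∏ j ∈ Finset.range (2 * p), g j = ∏ i ∈ Finset.range p, g (2 * i) * g (2 * i + 1) := by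
  induction p with
  | zero => simp
  | succ p ih =>
    rw [show 2 * (p + 1) = 2 * p + 1 + 1 by ring, Finset.prod_range_succ, Finset.prod_range_succ,
      Finset.prod_range_succ, ih, mul_assoc]

theorem prod_pairs {M : Type*} [CommMonoid M] (p : ℕ) (f : Fin (2 * p) → M) :
    ∏ j, f j = ∏ i : Fin p, f (ev i) * f (od i) := by
  have h := range_pairs p fun n => if h : n < 2 * p then f ⟨n, h⟩ else 1
  rw [Finset.prod_range, Finset.prod_range] at h
  refine Eq.trans (Finset.prod_congr rfl fun j _ => ?_) (h.trans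
    (Finset.prod_congr rfl fun i _ => ?_))
  · rw [dif_pos j.2]
  · have hi := i.2
    rw [dif_pos (by omega), dif_pos (by omega)]
    rfl

theorem pairs_inj (p : ℕ) : Function.Injective
    fun (a : Fin (2 * p) → ℕ) (i : Fin p) => (a (ev i), a (od i)) := by
  intro a b h
  funext j
  have hj := j.2
  have h1 := congrFun h ⟨j.val / 2, by omega⟩
  rcases Nat.mod_two_eq_zero_or_one j.val with h2 | h2
  · have e : j = ev ⟨j.val / 2, by omega⟩ := Fin.ext (by simp only [ev]; omega)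
    rw [e]
    exact congrArg Prod.fst h1
  · have e : j = od ⟨j.val / 2, by omega⟩ := Fin.ext (by simp only [od]; omega)
    rw [e]
    exact congrArg Prod.snd h1

theorem cnt_eq {p : ℕ} (L : ℕ) (l : St (2 * p)) :
    cnt L l = ∑ i : Fin p, if l (ev i) - l (od i) ≤ L then 1 else 0 := by
  unfold cnt
  rw [Finset.card_filter, show 2 * p / 2 = p by omega, Finset.sum_range]
  refine Finset.sum_congr rfl fun i _ => ?_
  have h1 : ext l (2 * i.val) = l (ev i) := dif_pos (ev i).2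
  have h2 : ext l (2 * i.val + 1) = l (od i) := dif_pos (od i).2
  rw [h1, h2]

/-- the potential of one pair -/
noncomputable def ph (z : ℝ) (g : ℤ) : ENNReal := ENNReal.ofReal (1 - z ^ g.toNat / 4)

/-- one step for one pair -/
noncomputable def T (q z : ℝ) (g : ℤ) : ENNReal :=
  ∑' c : ℕ × ℕ, w q c.1 * w q c.2 * if (c.2 : ℤ) ≤ g then ph z (g + c.1 - c.2) else 0

theorem inner {q z be : ℝ} (h0 : 0 < q) (h1 : q < 1) (z0 : 0 ≤ z) (z1 : z ≤ 1)
    (hbe : be * (4 * (1 - q * z)) = 1 - q) (n : ℕ) :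
    ∑' a : ℕ, w q a * ENNReal.ofReal (1 - z ^ (n + a) / 4) = ENNReal.ofReal (1 - be * z ^ n) := by
  have hq : 0 < 1 - q := by linarith
  have hqz : q * z < 1 := by nlinarith
  have s1 := (hasSum_geometric_of_lt_one h0.le h1).mul_left (1 - q)
  have s2 := (hasSum_geometric_of_lt_one (by positivity) hqz).mul_left ((1 - q) * z ^ n / 4)
  have s3 : HasSum (fun a : ℕ => (1 - q) * q ^ a * (1 - z ^ (n + a) / 4)) (1 - be * z ^ n) := by
    have e1 : (fun a : ℕ => (1 - q) * q ^ a * (1 - z ^ (n + a) / 4)) =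
        fun a : ℕ => (1 - q) * q ^ a - (1 - q) * z ^ n / 4 * (q * z) ^ a := by
      funext a
      rw [mul_pow, pow_add]
      ring
    have e2 : 1 - be * z ^ n = (1 - q) * (1 - q)⁻¹ - (1 - q) * z ^ n / 4 * (1 - q * z)⁻¹ := by
      have h2 : 1 - q * z ≠ 0 := by linarith
      rw [mul_inv_cancel₀ hq.ne', ← hbe]
      field_simp
    rw [e1, e2]
    exact s1.sub s2
  have h2 : ∀ a : ℕ, 0 ≤ 1 - z ^ (n + a) / 4 := fun a => by
    have := pow_le_one₀ z0 z1 (n := n + a)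
    linarith
  rw [← s3.tsum_eq, ENNReal.ofReal_tsum_of_nonneg
    (fun a => mul_nonneg (by positivity) (h2 a)) s3.summable]
  exact tsum_congr fun a => by rw [w, ← ENNReal.ofReal_mul (by positivity)]

theorem outer {q z be Γ : ℝ} (h0 : 0 ≤ q) (z0 : 0 < z) (hΓ : Γ * (z - q) = be * (1 - q) * z)
    (hz : Γ ≤ z) (n : ℕ) :
    ∑ b ∈ Finset.range (n + 1), (1 - q) * q ^ b * (1 - be * z ^ (n - b)) ≤ 1 - Γ * z ^ n := by
  induction n with
  | zero =>
    simp only [zero_add, Finset.range_one, Finset.sum_singleton, pow_zero, mul_one, le_refl,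
      Nat.sub_eq_zero_of_le]
    refine le_of_mul_le_mul_left ?_ z0
    nlinarith
  | succ n ih =>
    rw [Finset.sum_range_succ']
    have e : ∑ b ∈ Finset.range (n + 1), (1 - q) * q ^ (b + 1) * (1 - be * z ^ (n + 1 - (b + 1))) =
        q * ∑ b ∈ Finset.range (n + 1), (1 - q) * q ^ b * (1 - be * z ^ (n - b)) := by
      rw [Finset.mul_sum]
      refine Finset.sum_congr rfl fun b _ => ?_
      rw [Nat.add_sub_add_right]
      ring
    have h1 := mul_le_mul_of_nonneg_left ih h0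
    have h2 : Γ * z ^ (n + 1) = q * Γ * z ^ n + be * (1 - q) * z * z ^ n := by
      rw [← hΓ]; ring
    rw [e, h2, Nat.sub_zero, pow_succ]
    linarith

theorem T_neg (q z : ℝ) {g : ℤ} (hg : g < 0) : T q z g = 0 := by
  unfold T
  refine ENNReal.tsum_eq_zero.2 fun c => ?_
  rw [if_neg (by omega), mul_zero]

theorem T_le {q z be Γ : ℝ} (h0 : 0 < q) (h1 : q < 1) (z0 : 0 < z) (z1 : z ≤ 1)
    (hbe : be * (4 * (1 - q * z)) = 1 - q) (b1 : be ≤ 1) (b0 : 0 ≤ be)
    (hΓ : Γ * (z - q) = be * (1 - q) * z) (hz : Γ ≤ z) (n : ℕ) :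
    T q z n ≤ ENNReal.ofReal (1 - Γ * z ^ n) := by
  have hq : 0 < 1 - q := by linarith
  unfold T
  rw [ENNReal.tsum_prod', ENNReal.tsum_comm, tsum_eq_sum (s := Finset.range (n + 1))]
  · refine le_trans (le_of_eq ?_) (ENNReal.ofReal_le_ofReal (outer h0.le z0 hΓ hz n))
    have h2 : ∀ k : ℕ, 0 ≤ 1 - be * z ^ k := fun k => by
      have := mul_le_one₀ b1 (pow_nonneg z0.le k) (pow_le_one₀ z0.le z1)
      linarith
    rw [ENNReal.ofReal_sum_of_nonneg fun b _ => mul_nonneg (by positivity) (h2 _)]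
    refine Finset.sum_congr rfl fun b hb => ?_
    have hb' := Finset.mem_range.1 hb
    rw [ENNReal.ofReal_mul (by positivity), ← inner h0 h1 z0.le z1 hbe, ← ENNReal.tsum_mul_left]
    refine tsum_congr fun a => ?_
    have e : ((n : ℤ) + a - b).toNat = n - b + a := by omega
    simp only
    rw [if_pos (by omega), ph, e, w, w]
    ring
  · intro b hb
    have hb' := mt Finset.mem_range.2 hb
    refine ENNReal.tsum_eq_zero.2 fun a => ?_
    simp only
    rw [if_neg (by omega), mul_zero]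

theorem consts {q δ : ℝ} (h0 : 0 < q) (d0 : 0 < δ) (d1 : 4 * δ ≤ 1 - q) :
    ∃ be Γ : ℝ, be * (4 * (1 - q * (1 - δ))) = 1 - q ∧ be ≤ 1 ∧ 0 ≤ be ∧
      Γ * (1 - δ - q) = be * (1 - q) * (1 - δ) ∧ Γ ≤ 1 - δ ∧ 1 / 4 + q * δ ^ 2 / 4 ≤ Γ := by
  have hA : 1 - q ≤ 1 - q * (1 - δ) := by nlinarith
  have hA0 : 0 < 1 - q * (1 - δ) := by linarith
  have hA1 : 1 - q * (1 - δ) ≤ 1 := by nlinarith
  have hB0 : 0 < 1 - δ - q := by linarith
  have hAB := mul_pos hA0 hB0
  refine ⟨(1 - q) / (4 * (1 - q * (1 - δ))),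
    1 / 4 + q * δ ^ 2 / (4 * ((1 - q * (1 - δ)) * (1 - δ - q))), by field_simp, ?_,
    div_nonneg (by linarith) (by linarith), ?_, ?_, ?_⟩
  · rw [div_le_one (by linarith)]
    linarith
  · field_simp
    ring
  · have h1 : q * δ ^ 2 / (4 * ((1 - q * (1 - δ)) * (1 - δ - q))) ≤ 1 / 4 := by
      rw [div_le_div_iff₀ (by linarith) (by norm_num)]
      have h2 : δ * δ ≤ (1 - q * (1 - δ)) * (1 - δ - q) :=
        mul_le_mul (by linarith) (by linarith) d0.le hA0.le
      have h3 : q * δ ^ 2 ≤ 1 * δ ^ 2 := by gcongr; linarith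
      nlinarith
    linarith
  · have h1 : (1 - q * (1 - δ)) * (1 - δ - q) ≤ 1 := mul_le_one₀ hA1 hB0.le (by linarith)
    have h2 : q * δ ^ 2 / 4 ≤ q * δ ^ 2 / (4 * ((1 - q * (1 - δ)) * (1 - δ - q))) :=
      div_le_div_of_nonneg_left (by positivity) (by linarith) (by linarith)
    linarith

theorem T_bound {q δ : ℝ} {L : ℕ} (h0 : 0 < q) (d0 : 0 < δ) (d1 : 4 * δ ≤ 1 - q)
    (hL : L * δ = 1 / 2) (g : ℤ) :
    T q (1 - δ) g ≤
      ENNReal.ofReal (1 - q * δ ^ 2 / 8) ^ (if g ≤ L then 1 else 0) * ph (1 - δ) g := by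
  rcases lt_or_ge g 0 with hg | hg
  · rw [T_neg q _ hg]
    exact bot_le
  obtain ⟨n, rfl⟩ := Int.eq_ofNat_of_zero_le hg
  obtain ⟨be, Γ, c1, c2, c3, c4, c5, c6⟩ := consts h0 d0 d1
  have z0 : 0 < 1 - δ := by linarith
  have z1 : 1 - δ ≤ 1 := by linarith
  have hn := pow_pos z0 n
  have hk : 0 ≤ q * δ ^ 2 := by positivity
  refine (T_le h0 (by linarith) z0 z1 c1 c2 c3 c4 c5 n).trans ?_
  rw [ph, Int.toNat_natCast]
  have h1 := mul_le_mul_of_nonneg_right c6 hn.le
  split_ifs with h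
  · have h2 : 1 / 2 ≤ (1 - δ) ^ n := by
      have h3 := one_add_mul_le_pow (a := -δ) (by linarith) n
      have h4 : (n : ℝ) ≤ L := by exact_mod_cast h
      have h5 : n * δ ≤ L * δ := by gcongr
      rw [← sub_eq_add_neg] at h3
      linarith
    have h6 : q * δ ^ 2 ≤ 1 * 1 ^ 2 := by gcongr <;> linarith
    rw [pow_one, ← ENNReal.ofReal_mul (by linarith)]
    refine ENNReal.ofReal_le_ofReal ?_
    nlinarith
  · rw [pow_zero, one_mul]
    refine ENNReal.ofReal_le_ofReal ?_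
    nlinarith

/-- the potential of all pairs -/
noncomputable def Phi (z : ℝ) {p : ℕ} (l : St (2 * p)) : ENNReal :=
  ∏ i : Fin p, ph z (l (ev i) - l (od i))

theorem P_Phi (q z : ℝ) {p : ℕ} (l : St (2 * p)) :
    P q (Phi z) l ≤ ∏ i : Fin p, T q z (l (ev i) - l (od i)) := by
  unfold T
  rw [← tsum_pi]
  refine le_trans ?_ (ENNReal.tsum_comp_le_tsum_of_injective (pairs_inj p) _)
  unfold P
  refine ENNReal.tsum_le_tsum fun a => ?_
  by_cases h : Rel l (add l a)
  · rw [if_pos h, prod_pairs, Phi, ← Finset.prod_mul_distrib]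
    refine le_of_eq (Finset.prod_congr rfl fun i _ => ?_)
    have h1 := (h.2 (ev i) (od i) rfl).1
    simp only [add] at h1 ⊢
    rw [if_pos (by omega), show l (ev i) + a (ev i) - (l (od i) + a (od i)) =
      l (ev i) - l (od i) + a (ev i) - a (od i) by ring]
  · rw [if_neg h, mul_zero]
    exact bot_le

theorem Phi_le {z : ℝ} (z0 : 0 ≤ z) {p : ℕ} (l : St (2 * p)) : Phi z l ≤ 1 := by
  refine Finset.prod_le_one' fun i _ => ENNReal.ofReal_le_one.2 ?_
  have := pow_nonneg z0 (l (ev i) - l (od i)).toNat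
  linarith

theorem le_Phi {z : ℝ} (z0 : 0 ≤ z) (z1 : z ≤ 1) {p : ℕ} (l : St (2 * p)) :
    ENNReal.ofReal (3 / 4) ^ p ≤ Phi z l := by
  have h : ∏ _i : Fin p, ENNReal.ofReal (3 / 4) ≤ Phi z l := by
    refine Finset.prod_le_prod' fun i _ => ENNReal.ofReal_le_ofReal ?_
    have := pow_le_one₀ z0 z1 (n := (l (ev i) - l (od i)).toNat)
    linarith
  rwa [Finset.prod_const, Finset.card_univ, Fintype.card_fin] at h

end Pair

open Pair in
theorem pair : PairStmt := by
  intro q h0 h1 p L y N s hL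
  have hL0 : (0 : ℝ) < L := by
    by_contra h
    nlinarith
  obtain ⟨δ, d0, hδ⟩ : ∃ δ : ℝ, 0 < δ ∧ L * δ = 1 / 2 :=
    ⟨1 / (2 * L), by positivity, by field_simp⟩
  have d1 : 4 * δ ≤ 1 - q := by
    refine le_of_mul_le_mul_left ?_ hL0
    linarith
  have e : q / (32 * (L : ℝ) ^ 2) = q * δ ^ 2 / 8 := by
    have : δ = 1 / (2 * L) := by field_simp; linarith
    rw [this]
    field_simp
    norm_num
  rw [e]
  obtain ⟨r, hr⟩ : ∃ r : ℝ, r = 1 - q * δ ^ 2 / 8 := ⟨_, rfl⟩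
  have h6 : q * δ ^ 2 ≤ 1 * 1 ^ 2 := by gcongr; linarith
  have h7 : 0 ≤ q * δ ^ 2 := by positivity
  have r0 : 0 < r := by linarith
  have r1 : r ≤ 1 := by linarith
  have ri : ENNReal.ofReal r⁻¹ * ENNReal.ofReal r = 1 := by
    rw [← ENNReal.ofReal_mul (by positivity), inv_mul_cancel₀ r0.ne', ENNReal.ofReal_one]
  have hs := super q (fun l : St (2 * p) => ENNReal.ofReal r⁻¹ ^ cnt L l) (Phi (1 - δ)) (fun l => by
    have h2 : P q (Phi (1 - δ)) l ≤ ENNReal.ofReal r ^ cnt L l * Phi (1 - δ) l := by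
      refine (P_Phi q _ l).trans ?_
      rw [cnt_eq, ← Finset.prod_pow_eq_pow_sum, Phi, ← Finset.prod_mul_distrib, hr]
      exact Finset.prod_le_prod' fun i _ => T_bound h0 d0 d1 hδ _
    refine (mul_le_mul_right h2 _).trans (le_of_eq ?_)
    rw [← mul_assoc, ← mul_pow, ri, one_pow, one_mul]) y s
  have h3 := (Pr_markov q (A := {x | N ≤ ∑ t ∈ Finset.range y, cnt L (x t)})
    (c := ENNReal.ofReal r⁻¹ ^ N * ENNReal.ofReal (3 / 4) ^ p) fun x _ hx => by
      rw [Finset.prod_pow_eq_pow_sum]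
      exact mul_le_mul' (pow_le_pow_right₀
        (ENNReal.one_le_ofReal.2 ((one_le_inv₀ r0).2 r1)) hx)
        (le_Phi (by linarith) (by linarith) _)).trans (hs.trans (Phi_le (by linarith) s))
  have h4 : ENNReal.ofReal ((4 / 3) ^ p * r ^ N) *
      (ENNReal.ofReal r⁻¹ ^ N * ENNReal.ofReal (3 / 4) ^ p) = 1 := by
    rw [← ENNReal.ofReal_pow (by positivity), ← ENNReal.ofReal_pow (by positivity),
      ← ENNReal.ofReal_mul (by positivity), ← ENNReal.ofReal_mul (by positivity),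
      show (4 / 3 : ℝ) ^ p * r ^ N * (r⁻¹ ^ N * (3 / 4) ^ p) =
        (4 / 3 * (3 / 4)) ^ p * (r * r⁻¹) ^ N by rw [mul_pow, mul_pow]; ring,
      mul_inv_cancel₀ r0.ne']
    norm_num
  have h5 := mul_le_mul_right h3 (ENNReal.ofReal ((4 / 3) ^ p * r ^ N))
  rw [← mul_assoc, h4, one_mul, mul_one] at h5
  rw [← hr]
  exact h5

end Pool.Agent.MP_151d89_pr.H33
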