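import Pool.Agent.MP_151d89_pr.H33.Model

set_option autoImplicit false
open MeasureTheory Filter

namespace Pool.Agent.MP_151d89_pr.H33
open Pool.Agent.MP_151d89_pr.H82

namespace TransferA

/-- the weight of a path with end point t -/
noncomputable def cw (q : ℝ) {k : ℕ} (n : ℕ) (s t : St k) : ENNReal :=
  ENNReal.ofReal ((1 - q) ^ (k * n) * q ^ (∑ j, (t j - s j).toNat))

theorem Pr_eq {q : ℝ} (h0 : 0 < q) (h1 : q < 1) {k : ℕ} (n : ℕ) (s : St k)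
    (A : Set (ℕ → St k)) : Pr q n s A =
      ∑' t : St k, ({x | Path n s x ∧ x n = t ∧ x ∈ A}.encard : ENNReal) * cw q n s t := by
  classical
  have e : ∀ t : St k, ({x | Path n s x ∧ x n = t ∧ x ∈ A}.encard : ENNReal) * cw q n s t =
      ∑' x : ℕ → St k, if Path n s x ∧ x n = t ∧ x ∈ A then cw q n s t else 0 := fun t => by
    rw [← ENNReal.tsum_set_const, tsum_subtype _ fun _ => cw q n s t]
    exact tsum_congr fun x => Set.indicator_apply _ _ _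
  simp_rw [e]
  rw [ENNReal.tsum_comm]
  unfold Pr Ex
  refine tsum_congr fun x => ?_
  rw [tsum_eq_single (x n) fun t ht => if_neg fun h => ht h.2.1.symm]
  by_cases hp : Path n s x
  · by_cases hA : x ∈ A
    · rw [if_pos hp, if_pos ⟨hp, rfl, hA⟩, Set.indicator_of_mem hA, mul_one, wt_eq h0 h1 hp, cw]
    · rw [if_pos hp, if_neg fun h => hA h.2.2, Set.indicator_of_notMem hA, mul_zero]
  · rw [if_neg hp, if_neg fun h => hp h.1]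

theorem count {q : ℝ} (h0 : 0 < q) (h1 : q < 1) {k : ℕ} (n : ℕ) (s : St k) (X : ℤ)
    (A : Set (ℕ → St k)) (a b θ : ENNReal)
    (h : ∀ t : St k, (∀ j, t j ≤ X) → a * ({x : ℕ → St k | Path n s x ∧ x n = t}.encard : ENNReal) ≤
      ({x : ℕ → St k | Path n s x ∧ x n = t ∧ x ∈ A}.encard : ENNReal) * b)
    (h2 : Pr q n s A ≤ θ * Pr q n s {x | ∀ j, x n j ≤ X})
    (h3 : Pr q n s {x | ∀ j, x n j ≤ X} ≠ 0) : a ≤ θ * b := by
  have h4 : a * Pr q n s {x | ∀ j, x n j ≤ X} ≤ Pr q n s A * b := by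
    rw [Pr_eq h0 h1, Pr_eq h0 h1, ← ENNReal.tsum_mul_left, ← ENNReal.tsum_mul_right]
    refine ENNReal.tsum_le_tsum fun t => ?_
    by_cases ht : ∀ j, t j ≤ X
    · rw [← mul_assoc, mul_right_comm _ _ b]
      refine mul_le_mul_left (le_trans (mul_le_mul_right ?_ a) (h t ht)) _
      exact ENat.toENNReal_le.2 (Set.encard_le_encard fun x hx => ⟨hx.1, hx.2.1⟩)
    · have : {x : ℕ → St k | Path n s x ∧ x n = t ∧ x ∈ {x : ℕ → St k | ∀ j, x n j ≤ X}} = ∅ :=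
        Set.eq_empty_of_forall_notMem fun x hx => ht (hx.2.1 ▸ hx.2.2)
      rw [this]
      simp
  have h5 : Pr q n s {x | ∀ j, x n j ≤ X} ≠ ⊤ :=
    ne_top_of_le_ne_top ENNReal.one_ne_top ((Pr_le_hh q n s _).trans (hh_le_one h0 h1 n s))
  refine (ENNReal.mul_le_mul_iff_left h3 h5).1 (h4.trans ((mul_le_mul_left h2 b).trans ?_))
  rw [mul_right_comm]

theorem meas_at (p : ℤ × ℤ) (P : ℤ → Prop) : MeasurableSet {f : ℤ × ℤ → ℤ | P (f p)} :=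
  measurable_pi_apply p (MeasurableSet.of_discrete (s := {z | P z}))

/-- the piece where Y is the last good row up to Y1 -/
def BB (D : Set (ℤ × ℤ → ℤ)) (k : ℕ) (X : ℕ → ℤ) (S : Set ℕ) (Y1 Y : ℕ) : Set (ℤ × ℤ → ℤ) :=
  {f | f ∈ D ∧ f (0, 0) % 2 = 0 ∧ (∀ x : ℤ, f (x, 0) ≤ -x) ∧ Y ∈ S ∧ Ge k (X Y) Y f ∧
    ∀ Y' : ℕ, Y' ∈ S → Y < Y' → Y' ≤ Y1 → ¬ Ge k (X Y') Y' f}

theorem meas_BB {D : Set (ℤ × ℤ → ℤ)} (hD : MeasurableSet D) (k : ℕ) (X : ℕ → ℤ) (S : Set ℕ)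
    (Y1 Y : ℕ) : MeasurableSet (BB D k X S Y1 Y) := by
  have e : BB D k X S Y1 Y = D ∩ ({f | f (0, 0) % 2 = 0} ∩ ((⋂ x : ℤ, {f | f (x, 0) ≤ -x}) ∩
      ({f | Y ∈ S ∧ Ge k (X Y) Y f} ∩
        ⋂ Y' : ℕ, {f | Y' ∈ S → Y < Y' → Y' ≤ Y1 → ¬ Ge k (X Y') Y' f}))) := by
    ext f
    simp only [BB, Set.mem_ofPred_eq, Set.mem_inter_iff, Set.mem_iInter, and_assoc]
  rw [e]
  exact hD.inter ((meas_at _ fun z => z % 2 = 0).inter
    ((MeasurableSet.iInter fun x => meas_at _ fun z => z ≤ -x).inter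
      ((meas_at _ fun z => Y ∈ S ∧ z ≤ Y - X Y - 2 * k).inter
        (MeasurableSet.iInter fun Y' => meas_at _ fun z =>
          Y' ∈ S → Y < Y' → Y' ≤ Y1 → ¬ z ≤ Y' - X Y' - 2 * k))))

theorem BB_congr {D : Set (ℤ × ℤ → ℤ)}
    (hD : ∀ f g : ℤ × ℤ → ℤ, (∀ x : ℤ, f (x, 0) = g (x, 0)) → f ∈ D → g ∈ D) {k : ℕ} {X : ℕ → ℤ}
    {S : Set ℕ} {Y1 Y : ℕ} {f g : ℤ × ℤ → ℤ}
    (h : ∀ x y : ℤ, y = 0 ∨ (Y : ℤ) ≤ y → f (x, y) = g (x, y)) (hf : f ∈ BB D k X S Y1 Y) :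
    g ∈ BB D k X S Y1 Y := by
  obtain ⟨a1, a2, a3, a4, a5, a6⟩ := hf
  have h0 : ∀ x, f (x, 0) = g (x, 0) := fun x => h x 0 (Or.inl rfl)
  refine ⟨hD f g h0 a1, h0 0 ▸ a2, fun x => h0 x ▸ a3 x, a4, ?_, fun Y' b1 b2 b3 b4 =>
    a6 Y' b1 b2 b3 ?_⟩
  · unfold Ge at a5 ⊢
    rwa [← h _ _ (Or.inr le_rfl)]
  · unfold Ge at b4 ⊢
    rwa [h _ _ (Or.inr (by exact_mod_cast b2.le))]

end TransferA

open TransferA

theorem transfer (hA : DLRStmt) (hB : CompareStmt) : TransferStmt := by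
  classical
  intro μ hμ hae q h0 h1 k s0 Γ X S D θ hD hD0 hDk hS hY
  have piece : ∀ Y1 Y, μ (FG Γ ∩ BB D k X S Y1 Y) ≤ θ * μ (BB D k X S Y1 Y) := fun Y1 Y => by
    by_cases hYS : Y ∈ S
    swap
    · have : BB D k X S Y1 Y = ∅ := Set.eq_empty_of_forall_notMem fun f hf => hYS hf.2.2.2.1
      simp [this]
    obtain ⟨g1, g2, g3⟩ := hY Y hYS
    obtain ⟨l, hl⟩ := (Γ.image Prod.fst).bddBelow
    obtain ⟨u, hu⟩ := (Γ.image Prod.fst).bddAbove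
    have hΓ : ∀ γ ∈ Γ, min l (s0 - k + 1) ≤ γ.1 ∧ γ.1 ≤ max u (X Y + 1) ∧ γ.2.1 ≤ Y :=
      fun γ hγ => ⟨(min_le_left _ _).trans (hl (Finset.mem_image_of_mem _ hγ)),
        (hu (Finset.mem_image_of_mem _ hγ)).trans (le_max_left _ _), g1 γ hγ⟩
    have hrep : ∀ (b f : ℤ × ℤ → ℤ) (x y : ℤ), y = 0 ∨ (Y : ℤ) ≤ y →
        rep (Finset.Ioo (min l (s0 - k + 1)) (max u (X Y + 1)) ×ˢ Finset.Ioo (0 : ℤ) Y) b f (x, y) =
          f (x, y) := fun b f x y hy => if_neg fun h => by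
      have := Finset.mem_Ioo.1 (Finset.mem_product.1 h).2
      omega
    refine hA μ hμ (Finset.Ioo (min l (s0 - k + 1)) (max u (X Y + 1)) ×ˢ Finset.Ioo (0 : ℤ) Y)
      (Finset.Icc (min l (s0 - k + 1)) (max u (X Y + 1)) ×ˢ Finset.Icc (0 : ℤ) Y) ?_ _ _ θ
      (meas_BB hD k X S Y1 Y) (fun b => Set.ext fun f =>
        ⟨BB_congr hD0 (hrep b f), BB_congr hD0 fun x y hy => (hrep b f x y hy).symm⟩)
      (fun f g h hf γ hγ hg => hf γ hγ ?_) fun g hg hgB => ?_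
    · generalize min l (s0 - k + 1) = xl
      generalize max u (X Y + 1) = xr
      intro x hx
      simp only [Finset.mem_product, Finset.mem_Ioo, Finset.mem_Icc] at hx ⊢
      refine ⟨by omega, fun y hy => ?_⟩
      have := abs_nonneg (x.1 - y.1)
      have := abs_nonneg (x.2 - y.2)
      have := abs_le.1 (show |x.1 - y.1| ≤ 1 by omega)
      have := abs_le.1 (show |x.2 - y.2| ≤ 1 by omega)
      omega
    · obtain ⟨c1, c2, c3⟩ := hΓ γ hγ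
      unfold Ge at hg ⊢
      rwa [h _ (Finset.mem_product.2 ⟨Finset.mem_Icc.2 ⟨c1, c2⟩,
        Finset.mem_Icc.2 ⟨Int.natCast_nonneg _, Int.ofNat_le.2 c3⟩⟩)]
    · exact count h0 h1 Y _ (X Y) (FP Γ) _ _ θ (fun t ht => hB k Y s0 (X Y) _ _ t Γ g hg hgB.2.1
        hgB.2.2.1 (hDk g hgB.1) hgB.2.2.2.2.1 ht (min_le_right _ _)
        (lt_of_lt_of_le (lt_add_one _) (le_max_right _ _)) hΓ) g2 g3
  let U : ℕ → Set (ℤ × ℤ → ℤ) := fun Y1 =>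
    {f | f ∈ FG Γ ∩ D ∧ (f (0, 0) % 2 = 0 ∧ ∀ x : ℤ, f (x, 0) ≤ -x) ∧
      ∃ Y, Y ≤ Y1 ∧ Y ∈ S ∧ Ge k (X Y) Y f}
  have hU : ∀ Y1, μ (U Y1) ≤ θ * μ D := fun Y1 => by
    have sub : U Y1 ⊆ ⋃ Y ∈ Finset.range (Y1 + 1), FG Γ ∩ BB D k X S Y1 Y := by
      rintro f ⟨a1, a2, Y, a3, a4⟩
      have b1 := Nat.findGreatest_spec (P := fun Y => Y ∈ S ∧ Ge k (X Y) Y f) a3 a4
      refine Set.mem_iUnion₂.2 ⟨_, Finset.mem_range.2 (Nat.lt_succ_of_le (Nat.findGreatest_le Y1)),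
        a1.1, a1.2, a2.1, a2.2, b1.1, b1.2, fun Y' c1 c2 c3 c4 => ?_⟩
      exact Nat.findGreatest_is_greatest c2 c3 ⟨c1, c4⟩
    have dis : Set.PairwiseDisjoint (↑(Finset.range (Y1 + 1)) : Set ℕ) (BB D k X S Y1) := by
      intro Y hY Y' hY' hne
      have e1 := Finset.mem_range.1 hY
      have e2 := Finset.mem_range.1 hY'
      refine Set.disjoint_left.2 fun f hf hf' => ?_
      rcases lt_or_gt_of_ne hne with h | h
      · exact hf.2.2.2.2.2 Y' hf'.2.2.2.1 h (by omega) hf'.2.2.2.2.1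
      · exact hf'.2.2.2.2.2 Y hf.2.2.2.1 h (by omega) hf.2.2.2.2.1
    refine (measure_mono sub).trans ((measure_biUnion_finset_le _ _).trans
      ((Finset.sum_le_sum fun Y _ => piece Y1 Y).trans ?_))
    rw [← Finset.mul_sum, ← measure_biUnion_finset dis fun Y _ => meas_BB hD k X S Y1 Y]
    exact mul_le_mul_right (measure_mono (Set.iUnion₂_subset fun Y _ f hf => hf.1)) θ
  have mono : Monotone U := fun a b hab f ⟨a1, a2, Y, a3, a4⟩ => ⟨a1, a2, Y, a3.trans hab, a4⟩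
  have fin : (FG Γ ∩ D : Set (ℤ × ℤ → ℤ)) ≤ᵐ[μ] (⋃ Y1, U Y1 : Set (ℤ × ℤ → ℤ)) := by
    filter_upwards [hae, hS] with f a1 ⟨Y, a2, a3⟩ hf
    exact Set.mem_iUnion.2 ⟨Y, hf, a1, Y, le_rfl, a2, a3⟩
  refine (measure_mono_ae fin).trans ?_
  rw [mono.measure_iUnion]
  exact iSup_le hU

end Pool.Agent.MP_151d89_pr.H33
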