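import Pool.Agent.MP_151d89_pr.H33.Key
import Pool.Agent.MP_151d89_pr.H33.DLR
import Pool.Agent.MP_151d89_pr.H33.Compare
import Pool.Agent.MP_151d89_pr.H33.Transfer
import Pool.Agent.MP_151d89_pr.H33.Del
import Pool.Agent.MP_151d89_pr.H33.Pair
import Pool.Agent.MP_151d89_pr.H33.Block
import Pool.Agent.MP_151d89_pr.H33.Base
import Pool.Agent.MP_151d89_pr.H33.Far
import Pool.Agent.MP_151d89_pr.H33.Core
import Pool.Agent.MP_151d89_pr.H33.Final

set_option autoImplicit false

namespace Pool.Agent.MP_151d89_pr.H33

theorem coreAll : CoreStmt :=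
  core (transfer dlr compare) (key del pair block base) (far block base) one

theorem finalAll : FinalStmt := final coreAll

end Pool.Agent.MP_151d89_pr.H33
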