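import Pool.Agent.MP_151d89_pr.H33.Model

set_option autoImplicit false
open Finset

namespace Pool.Agent.MP_151d89_pr.H33

/-- window lengths -/
noncomputable def nn (ρ : ℝ) (l : ℕ) : ℕ := ⌈ρ ^ l⌉₊

/-- grid rows -/
noncomputable def ph (ρ : ℝ) : ℕ → ℕ
  | 0 => 0
  | l + 1 => ph ρ l + nn ρ l + 1

theorem nn_ge (ρ : ℝ) (l : ℕ) : ρ ^ l ≤ nn ρ l := Nat.le_ceil _

theorem nn_le {ρ : ℝ} (h : 1 ≤ ρ) (l : ℕ) : (nn ρ l : ℝ) ≤ ρ ^ l + 1 :=
  (Nat.ceil_lt_add_one (by positivity)).le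

theorem nn_pos {ρ : ℝ} (h : 1 ≤ ρ) (l : ℕ) : 1 ≤ nn ρ l :=
  Nat.one_le_iff_ne_zero.2 (Nat.ceil_pos.2 (by positivity)).ne'

theorem ph_strict (ρ : ℝ) : StrictMono (ph ρ) :=
  strictMono_nat_of_lt_succ fun l => by simp only [ph]; omega

theorem le_ph (ρ : ℝ) (l : ℕ) : l ≤ ph ρ l := (ph_strict ρ).le_apply

theorem ph_le {ρ : ℝ} (h : 1 ≤ ρ) (l : ℕ) : (ph ρ l : ℝ) ≤ l * (ρ ^ l + 2) := by
  induction l with
  | zero => simp [ph]
  | succ l ih =>
    have h1 := nn_le h l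
    have h2 : ρ ^ l ≤ ρ ^ (l + 1) := pow_le_pow_right₀ h (Nat.le_succ l)
    have h3 : (l : ℝ) * ρ ^ l ≤ l * ρ ^ (l + 1) := mul_le_mul_of_nonneg_left h2 (by positivity)
    simp only [ph]
    push_cast
    nlinarith

theorem ph_top {ρ : ℝ} {k M : ℕ} (h : 1 ≤ ρ) (hk : ρ ^ k = 2) {l : ℕ} (hl : l ≤ k * (M + 1)) :
    ph ρ l ≤ (M + 1) * 2 ^ (M + 2) * k := by
  refine ((ph_strict ρ).monotone hl).trans ?_
  have h1 := ph_le h (k * (M + 1))
  rw [pow_mul, hk] at h1
  have h2 : (2 : ℝ) ≤ 2 ^ (M + 1) := le_self_pow₀ (by norm_num) (by omega)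
  have h3 : ((k * (M + 1) : ℕ) : ℝ) * (2 ^ (M + 1) + 2) ≤
      (((M + 1) * 2 ^ (M + 2) * k : ℕ) : ℝ) := by
    push_cast
    rw [pow_succ 2 (M + 1)]
    have : (0 : ℝ) ≤ k * (M + 1) := by positivity
    nlinarith
  exact_mod_cast h1.trans h3

/-- exponent in the deletion inequality for the family r -/
noncomputable def Xr (q ρ : ℝ) {k : ℕ} (r : ℕ) (x : ℕ → St k) : ℝ :=
  (1 - q) * ∑ j : Fin k, (q / (1 - q) -
    ((x (ph ρ (j.val + r) + nn ρ (j.val + r) + 1) j - x (ph ρ (j.val + r)) j : ℤ) : ℝ) /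
      nn ρ (j.val + r))

/-- weighted sum of the exponentials -/
noncomputable def Vs (q ρ : ℝ) {k : ℕ} (m : ℕ) (x : ℕ → St k) : ℝ :=
  ∑ r ∈ range m, ρ ^ r * Real.exp (Xr q ρ r x)

/-- lag behind the wall -/
noncomputable def U (q A : ℝ) {k : ℕ} (s0 : ℤ) (y : ℕ) (l : St k) (j : Fin k) : ℝ :=
  s0 + q / (1 - q) * y + A * k - l j

/-- total lag of the lines with index at least K -/
noncomputable def Sl (q A : ℝ) {k : ℕ} (s0 : ℤ) (K y : ℕ) (l : St k) : ℝ :=
  ∑ j : Fin k, if K ≤ j.val then U q A s0 y l j else 0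

theorem lag {q A ρ : ℝ} (h0 : 0 < q) (h1 : q < 1) (hρ : 1 ≤ ρ) {k Y : ℕ} {s0 : ℤ} {s : St k}
    {x : ℕ → St k} (hx : Path Y s x) (m : ℕ) :
    ∑ j : Fin k, (ρ ^ j.val)⁻¹ * U q A s0 (ph ρ (j.val + m)) (x (ph ρ (j.val + m))) j ≤
      ∑ j : Fin k, (ρ ^ j.val)⁻¹ * (U q A s0 (ph ρ j.val) (x (ph ρ j.val)) j +
        2 * (q / (1 - q)) * m) + Vs q ρ m x / (1 - q) := by
  have hq : 0 < 1 - q := by linarith
  have hα : 0 ≤ q / (1 - q) := by positivity
  induction m with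
  | zero => simp [Vs]
  | succ m ih =>
    have key : ∑ j : Fin k, ((ρ ^ j.val)⁻¹ * U q A s0 (ph ρ (j.val + (m + 1)))
        (x (ph ρ (j.val + (m + 1)))) j - (ρ ^ j.val)⁻¹ * U q A s0 (ph ρ (j.val + m))
        (x (ph ρ (j.val + m))) j - (ρ ^ j.val)⁻¹ * (2 * (q / (1 - q)))) ≤
        ρ ^ m * Real.exp (Xr q ρ m x) / (1 - q) := by
      have e1 : ρ ^ m * (Xr q ρ m x / (1 - q)) ≤ ρ ^ m * Real.exp (Xr q ρ m x) / (1 - q) := by
        rw [mul_div_assoc]
        refine mul_le_mul_of_nonneg_left (div_le_div_of_nonneg_right ?_ hq.le) (by positivity)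
        linarith [Real.add_one_le_exp (Xr q ρ m x)]
      refine le_trans ?_ e1
      unfold Xr
      rw [mul_div_cancel_left₀ _ hq.ne', mul_sum]
      refine sum_le_sum fun j _ => ?_
      have a1 := nn_ge ρ (j.val + m)
      have a2 := nn_le hρ (j.val + m)
      have a3 : (0 : ℝ) < ρ ^ j.val := by positivity
      have a4 : (0 : ℝ) < ρ ^ m := by positivity
      have a5 : (0 : ℝ) ≤ ((x (ph ρ (j.val + m) + nn ρ (j.val + m) + 1) j -
          x (ph ρ (j.val + m)) j : ℤ) : ℝ) := by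
        have := hx.mono (show ph ρ (j.val + m) ≤ ph ρ (j.val + m) + nn ρ (j.val + m) + 1 by omega) j
        exact_mod_cast sub_nonneg.2 this
      rw [show j.val + (m + 1) = j.val + m + 1 by omega]
      simp only [ph, U]
      push_cast at a5 ⊢
      rw [pow_add] at a1 a2
      generalize (x (ph ρ (j.val + m) + nn ρ (j.val + m) + 1) j : ℝ) = u at *
      generalize (x (ph ρ (j.val + m)) j : ℝ) = v at *
      generalize (nn ρ (j.val + m) : ℝ) = n at *
      generalize q / (1 - q) = α at *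
      generalize ρ ^ j.val = a at *
      generalize ρ ^ m = b at *
      have hn : 0 < n := lt_of_lt_of_le (mul_pos a3 a4) a1
      have b1 : a⁻¹ * (α * (n - 1)) ≤ b * α := by
        rw [inv_mul_le_iff₀ a3]
        nlinarith
      have b2 : b * ((u - v) / n) ≤ a⁻¹ * (u - v) := by
        rw [le_inv_mul_iff₀ a3, ← mul_assoc, ← mul_div_assoc, div_le_iff₀ hn]
        nlinarith
      nlinarith
    simp only [sum_sub_distrib] at key
    have e2 : ∑ j : Fin k, (ρ ^ j.val)⁻¹ * (U q A s0 (ph ρ j.val) (x (ph ρ j.val)) j +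
        2 * (q / (1 - q)) * ((m + 1 : ℕ) : ℝ)) =
        ∑ j : Fin k, (ρ ^ j.val)⁻¹ * (U q A s0 (ph ρ j.val) (x (ph ρ j.val)) j +
        2 * (q / (1 - q)) * m) + ∑ j : Fin k, (ρ ^ j.val)⁻¹ * (2 * (q / (1 - q))) := by
      rw [← sum_add_distrib]
      refine sum_congr rfl fun j _ => ?_
      push_cast
      ring
    have e3 : Vs q ρ (m + 1) x / (1 - q) =
        Vs q ρ m x / (1 - q) + ρ ^ m * Real.exp (Xr q ρ m x) / (1 - q) := by
      unfold Vs
      rw [sum_range_succ, add_div]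
    rw [e2, e3]
    linarith

theorem Vs_mono (q : ℝ) {ρ : ℝ} (hρ : 1 ≤ ρ) {k : ℕ} {m m' : ℕ} (h : m ≤ m') (x : ℕ → St k) :
    Vs q ρ m x ≤ Vs q ρ m' x :=
  sum_le_sum_of_subset_of_nonneg (range_mono h) fun _ _ _ => by positivity

theorem card_lt (k K : ℕ) : (univ.filter fun j : Fin k => ¬K ≤ j.val).card ≤ K := by
  calc _ ≤ (range K).card := card_le_card_of_injOn (fun j => j.val)
        (fun j hj => by simpa using hj) (fun i _ j _ h => Fin.ext h)
    _ = K := card_range K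

theorem lag2 {q A A1 ρ V0 : ℝ} (h0 : 0 < q) (h1 : q < 1) (hA : 0 ≤ A) (hA1 : 0 ≤ A1) (hρ : 1 ≤ ρ)
    {k Y M K y0 : ℕ} (hk : ρ ^ k = 2) {s0 : ℤ} {x : ℕ → St k} (hx : Path Y (st k s0) x)
    (hW : x ∈ Wall q A A1 k s0 ((M + 1) * 2 ^ (M + 2)) K y0) (hV : Vs q ρ (k * M) x ≤ V0)
    {m : ℕ} (hm0 : y0 ≤ m) (hm : m ≤ k * M) :
    ∑ j : Fin k, (if K ≤ j.val then U q A s0 (ph ρ (j.val + m)) (x (ph ρ (j.val + m))) j else 0) ≤
      2 * (k * (4 * (q / (1 - q)) * k + (A + 1) * k + 2 * (q / (1 - q)) * (k * M)) +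
        V0 / (1 - q) + K * (A1 * ((M + 1) * 2 ^ (M + 2) : ℕ) * k)) := by
  have hq : 0 < 1 - q := by linarith
  have hα : 0 ≤ q / (1 - q) := by positivity
  have l1 := lag (A := A) (s0 := s0) h0 h1 hρ hx m
  have hc1 : ∀ j : Fin k, (ρ ^ j.val)⁻¹ ≤ 1 := fun j => inv_le_one_of_one_le₀ (one_le_pow₀ hρ)
  have hc2 : ∀ j : Fin k, 1 / 2 ≤ (ρ ^ j.val)⁻¹ := fun j => by
    rw [one_div]
    exact inv_anti₀ (by positivity) (hk ▸ pow_le_pow_right₀ hρ j.2.le)
  have l2 : ∑ j : Fin k, (ρ ^ j.val)⁻¹ * (U q A s0 (ph ρ j.val) (x (ph ρ j.val)) j +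
      2 * (q / (1 - q)) * m) ≤
      k * (4 * (q / (1 - q)) * k + (A + 1) * k + 2 * (q / (1 - q)) * (k * M)) := by
    refine (sum_le_card_nsmul _ _ _ fun j _ => ?_).trans
      (le_of_eq (by rw [card_univ, Fintype.card_fin, nsmul_eq_mul]))
    have a1 : (ph ρ j.val : ℝ) ≤ 4 * k := by
      have b1 : (ph ρ j.val : ℝ) ≤ ph ρ k := by exact_mod_cast (ph_strict ρ).monotone j.2.le
      have b2 := ph_le hρ k
      rw [hk] at b2
      linarith
    have a2 : (s0 : ℝ) - k ≤ x (ph ρ j.val) j := by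
      have b1 := hx.mono (Nat.zero_le (ph ρ j.val)) j
      rw [hx.1] at b1
      have b2 := j.2
      have : s0 - k ≤ x (ph ρ j.val) j := by simp only [st] at b1; omega
      exact_mod_cast this
    have a3 : (m : ℝ) ≤ k * M := by exact_mod_cast hm
    have a4 : U q A s0 (ph ρ j.val) (x (ph ρ j.val)) j + 2 * (q / (1 - q)) * m ≤
        4 * (q / (1 - q)) * k + (A + 1) * k + 2 * (q / (1 - q)) * (k * M) := by
      unfold U
      nlinarith
    have a5 : 0 ≤ 4 * (q / (1 - q)) * k + (A + 1) * k + 2 * (q / (1 - q)) * (k * M) := by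
      positivity
    have a6 := hc1 j
    have a7 := hc2 j
    nlinarith
  have l3 : Vs q ρ m x / (1 - q) ≤ V0 / (1 - q) :=
    div_le_div_of_nonneg_right ((Vs_mono q hρ hm x).trans hV) hq.le
  set T : ℝ := A1 * ((M + 1) * 2 ^ (M + 2) : ℕ) * k with hT
  have hT0 : 0 ≤ T := by positivity
  have l4 : ∑ j : Fin k, (1 / 2 * (if K ≤ j.val then U q A s0 (ph ρ (j.val + m))
      (x (ph ρ (j.val + m))) j else 0) - (if ¬K ≤ j.val then T else 0)) ≤
      ∑ j : Fin k, (ρ ^ j.val)⁻¹ * U q A s0 (ph ρ (j.val + m)) (x (ph ρ (j.val + m))) j := by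
    refine sum_le_sum fun j _ => ?_
    have hj := j.2
    have hw := hW (ph ρ (j.val + m)) (hm0.trans ((Nat.le_add_left _ _).trans (le_ph ρ _)))
      (ph_top hρ hk (by rw [mul_add]; omega))
    have a6 := hc1 j
    have a7 := hc2 j
    by_cases hK : K ≤ j.val
    · have a1 := hw.1 j hK
      have a2 : 0 ≤ U q A s0 (ph ρ (j.val + m)) (x (ph ρ (j.val + m))) j := by
        unfold U; linarith
      simp only [hK, if_true, not_true, if_false]
      nlinarith
    · have a1 := hw.2 j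
      have a2 : -T ≤ U q A s0 (ph ρ (j.val + m)) (x (ph ρ (j.val + m))) j := by
        unfold U
        have : 0 ≤ q / (1 - q) * (ph ρ (j.val + m) : ℝ) + A * k := by positivity
        linarith
      simp only [hK, if_false, not_false_eq_true, if_true]
      nlinarith
  rw [sum_sub_distrib, ← mul_sum, ← sum_filter (fun j : Fin k => ¬K ≤ j.val), sum_const,
    nsmul_eq_mul] at l4
  have l5 : ((univ.filter fun j : Fin k => ¬K ≤ j.val).card : ℝ) * T ≤ K * T :=
    mul_le_mul_of_nonneg_right (by exact_mod_cast card_lt k K) hT0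
  linarith

theorem ext_val {k : ℕ} (l : St k) (j : Fin k) : ext l j.val = l j := by simp [ext]

theorem cnt_ge {q A L2 : ℝ} {p K L y : ℕ} {s0 : ℤ} {l : St (2 * p)}
    (hl : ∀ i j : Fin (2 * p), i.val + 1 = j.val → l j < l i)
    (hU : ∀ j : Fin (2 * p), K ≤ j.val → 0 ≤ U q A s0 y l j) (hS : Sl q A s0 K y l ≤ L2)
    (hL : 1 ≤ L) (hL2 : L2 ≤ L * p ^ 2 / 8) (hp : 8 * K + 4 ≤ p) : p ≤ 4 * cnt L l := by
  have hext : ∀ i j : ℕ, i ≤ j → j < 2 * p → ext l j ≤ ext l i := by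
    intro i j hij hj
    have := anti_of_strict hl (i := ⟨i, by omega⟩) (j := ⟨j, hj⟩) hij
    simp only [ext, dif_pos hj, dif_pos (show i < 2 * p by omega)]
    simp only at this
    omega
  set c : ℝ := s0 + q / (1 - q) * y + A * (2 * p : ℕ) with hc
  have hU' : ∀ j : ℕ, K ≤ j → j < 2 * p → (ext l j : ℝ) ≤ c := by
    intro j h1 h2
    have := hU ⟨j, h2⟩ h1
    simp only [ext, dif_pos h2]
    unfold U at this
    linarith
  have a1 : (p : ℝ) * (c - ext l p) ≤ L2 := by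
    refine le_trans ?_ hS
    unfold Sl
    have e : ∑ j : Fin (2 * p), (if K ≤ j.val then U q A s0 y l j else 0) =
        ∑ j ∈ range (2 * p), (if K ≤ j then c - ext l j else 0) := by
      rw [← Fin.sum_univ_eq_sum_range (fun j => if K ≤ j then c - (ext l j : ℝ) else 0)]
      refine sum_congr rfl fun j _ => ?_
      rw [ext_val]; rfl
    rw [e]
    calc (p : ℝ) * (c - ext l p) = ∑ _j ∈ Ico p (2 * p), (c - ext l p) := by
          rw [sum_const, Nat.card_Ico, show 2 * p - p = p by omega, nsmul_eq_mul]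
      _ ≤ ∑ j ∈ Ico p (2 * p), (if K ≤ j then c - ext l j else 0) := by
          refine sum_le_sum fun j hj => ?_
          rw [mem_Ico] at hj
          rw [if_pos (by omega)]
          have : (ext l j : ℝ) ≤ ext l p := by exact_mod_cast hext p j hj.1 hj.2
          linarith
      _ ≤ _ := by
          refine sum_le_sum_of_subset_of_nonneg (fun j hj => ?_) fun j hj _ => ?_
          · rw [mem_Ico] at hj; exact mem_range.2 hj.2
          · split_ifs with h
            · linarith [hU' j h (mem_range.1 hj)]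
            · exact le_rfl
  have a2 : ∀ b, K ≤ b → 2 * b ≤ p →
      ∑ i ∈ Ico K b, (ext l (2 * i) - ext l (2 * i + 1)) ≤ ext l (2 * K) - ext l (2 * b) := by
    intro b hb
    induction b, hb using Nat.le_induction with
    | base => simp
    | succ b hb ih =>
      intro h
      rw [sum_Ico_succ_top hb]
      have := ih (by omega)
      have := hext (2 * b + 1) (2 * (b + 1)) (by omega) (by omega)
      omega
  have a3 := a2 (p / 2) (by omega) (by omega)
  have a4 := hext (2 * (p / 2)) p (by omega) (by omega)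
  have a5 := hU' (2 * K) (by omega) (by omega)
  set Bd := (Ico K (p / 2)).filter fun i => ¬ext l (2 * i) - ext l (2 * i + 1) ≤ L with hBd
  have a6 : (Bd.card : ℤ) * L ≤ ∑ i ∈ Ico K (p / 2), (ext l (2 * i) - ext l (2 * i + 1)) := by
    calc (Bd.card : ℤ) * L = ∑ _i ∈ Bd, (L : ℤ) := by rw [sum_const, nsmul_eq_mul]
      _ ≤ ∑ i ∈ Bd, (ext l (2 * i) - ext l (2 * i + 1)) :=
          sum_le_sum fun i hi => (not_le.1 (mem_filter.1 hi).2).le
      _ ≤ _ := by
          refine sum_le_sum_of_subset_of_nonneg (filter_subset _ _) fun i hi _ => ?_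
          rw [mem_Ico] at hi
          have := hext (2 * i) (2 * i + 1) (by omega) (by omega)
          omega
  have a7 : (Bd.card : ℝ) * L ≤ c - ext l p := by
    have : (Bd.card : ℤ) * L ≤ ext l (2 * K) - ext l p := by omega
    have : (Bd.card : ℝ) * L ≤ ext l (2 * K) - ext l p := by exact_mod_cast this
    linarith
  have hp0 : (0 : ℝ) < p := by exact_mod_cast (show 0 < p by omega)
  have hL0 : (0 : ℝ) < L := by exact_mod_cast hL
  have a8 : 8 * Bd.card ≤ p := by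
    have b1 : (p : ℝ) * (Bd.card * L) ≤ L * p ^ 2 / 8 :=
      ((mul_le_mul_of_nonneg_left a7 hp0.le).trans a1).trans hL2
    have b2 : (p * L : ℝ) * (8 * Bd.card) ≤ (p * L) * p := by nlinarith
    have b3 := le_of_mul_le_mul_left b2 (mul_pos hp0 hL0)
    exact_mod_cast b3
  have a9 := card_filter_add_card_filter_not (s := Ico K (p / 2))
    (fun i => ext l (2 * i) - ext l (2 * i + 1) ≤ L)
  rw [Nat.card_Ico, ← hBd] at a9
  have a10 : ((Ico K (p / 2)).filter fun i => ext l (2 * i) - ext l (2 * i + 1) ≤ L).card ≤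
      cnt L l := by
    refine card_le_card (filter_subset_filter _ fun i hi => ?_)
    rw [mem_Ico] at hi
    exact mem_range.2 (by omega)
  omega

theorem sum_ph (ρ : ℝ) (c : ℕ → ℕ) (l : ℕ) :
    ∑ t ∈ range (ph ρ l), c t = ∑ i ∈ range l, ∑ t ∈ range (nn ρ i + 1), c (ph ρ i + t) := by
  induction l with
  | zero => simp [ph]
  | succ l ih => rw [sum_range_succ, ← ih, ← sum_range_add]; rfl

theorem comb {q A A1 ρ V0 L1 : ℝ} (h0 : 0 < q) (h1 : q < 1) (hA : 0 ≤ A) (hA1 : 0 ≤ A1)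
    (hρ : 1 ≤ ρ) {p Y M K y0 L : ℕ} (hk : ρ ^ (2 * p) = 2) (hM : 4 ≤ M) (hy0 : y0 ≤ p)
    (hp : 8 * K + 4 ≤ p) (hL : 1 ≤ L) (hL10 : 0 < L1)
    (hL1 : 2 * ((2 * p : ℕ) * (4 * (q / (1 - q)) * (2 * p : ℕ) + (A + 1) * (2 * p : ℕ) +
      2 * (q / (1 - q)) * ((2 * p : ℕ) * M)) + V0 / (1 - q) +
        K * (A1 * ((M + 1) * 2 ^ (M + 2) : ℕ) * (2 * p : ℕ))) ≤ L1)
    (hL2 : 4 * L1 + (2 * p : ℕ) * (q / (1 - q) * (2 ^ M + 2)) ≤ L * p ^ 2 / 8)
    {s0 : ℤ} {x : ℕ → St (2 * p)} (hx : Path Y (st (2 * p) s0) x)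
    (hW : x ∈ Wall q A A1 (2 * p) s0 ((M + 1) * 2 ^ (M + 2)) K y0)
    (hV : Vs q ρ (2 * p * M) x ≤ V0) :
    ∃ y, y0 ≤ y ∧ y ≤ (M + 1) * 2 ^ (M + 2) * (2 * p) ∧ Sl q A s0 K y (x y) ≤ 4 * L1 ∧
      p ^ 2 * 2 ^ (M - 4) ≤ ∑ t ∈ range y, cnt L (x t) := by
  have hq : 0 < 1 - q := by linarith
  have hα : 0 ≤ q / (1 - q) := by positivity
  obtain ⟨N, rfl⟩ : ∃ N, M = N + 4 := ⟨M - 4, by omega⟩
  have hU : ∀ y, y0 ≤ y → y ≤ (N + 4 + 1) * 2 ^ (N + 4 + 2) * (2 * p) → ∀ j : Fin (2 * p),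
      K ≤ j.val → 0 ≤ U q A s0 y (x y) j := by
    intro y a b j hj
    have := (hW y a b).1 j hj
    unfold U
    linarith
  set a := 2 * p * (N + 2) with ha
  have ea : p ≤ a := by rw [ha]; nlinarith
  have e1 : 2 * p * (N + 4) = a + 4 * p := by rw [ha]; ring
  have e2 : 2 * p * (N + 4 + 1) = a + 6 * p := by rw [ha]; ring
  have e3 : 2 * p * (N + 3) = a + 2 * p := by rw [ha]; ring
  have s1 : ∑ l ∈ Ico (a + 2 * p) (a + 4 * p), Sl q A s0 K (ph ρ l) (x (ph ρ l)) ≤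
      4 * p * L1 := by
    unfold Sl
    rw [sum_comm]
    calc _ ≤ ∑ j : Fin (2 * p), ∑ m ∈ Ico a (a + 4 * p), (if K ≤ j.val then
          U q A s0 (ph ρ (j.val + m)) (x (ph ρ (j.val + m))) j else 0) := by
          refine sum_le_sum fun j _ => ?_
          have hj := j.2
          rw [sum_Ico_add (fun l => if K ≤ j.val then U q A s0 (ph ρ l) (x (ph ρ l)) j else 0)]
          refine sum_le_sum_of_subset_of_nonneg (Ico_subset_Ico (by omega) (by omega))
            fun l hl _ => ?_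
          rw [mem_Ico] at hl
          split_ifs with h
          · exact hU _ (le_trans (by omega) (le_ph ρ l)) (ph_top hρ hk (by omega)) j h
          · exact le_rfl
      _ ≤ ∑ _m ∈ Ico a (a + 4 * p), L1 := by
          rw [sum_comm]
          refine sum_le_sum fun m hm => ?_
          rw [mem_Ico] at hm
          exact (lag2 h0 h1 hA hA1 hρ hk hx hW hV (by omega) (by omega)).trans hL1
      _ = 4 * p * L1 := by
          rw [sum_const, Nat.card_Ico, show a + 4 * p - a = 4 * p by omega, nsmul_eq_mul]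
          push_cast; ring
  have hS0 : ∀ l, a ≤ l → l ≤ a + 6 * p → 0 ≤ Sl q A s0 K (ph ρ l) (x (ph ρ l)) := by
    intro l b1 b2
    refine sum_nonneg fun j _ => ?_
    split_ifs with h
    · exact hU _ (le_trans (by omega) (le_ph ρ l)) (ph_top hρ hk (by omega)) j h
    · exact le_rfl
  set Gd := (Ico (a + 2 * p) (a + 4 * p)).filter
    fun l => Sl q A s0 K (ph ρ l) (x (ph ρ l)) ≤ 4 * L1 with hGd
  have s2 : p ≤ Gd.card := by
    set Bd := (Ico (a + 2 * p) (a + 4 * p)).filter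
      fun l => ¬Sl q A s0 K (ph ρ l) (x (ph ρ l)) ≤ 4 * L1 with hBd
    have b1 : (Bd.card : ℝ) * (4 * L1) ≤ 4 * p * L1 := by
      calc (Bd.card : ℝ) * (4 * L1) = ∑ _i ∈ Bd, 4 * L1 := by rw [sum_const, nsmul_eq_mul]
        _ ≤ ∑ l ∈ Bd, Sl q A s0 K (ph ρ l) (x (ph ρ l)) :=
            sum_le_sum fun i hi => (not_le.1 (mem_filter.1 hi).2).le
        _ ≤ _ := by
            refine le_trans (sum_le_sum_of_subset_of_nonneg (filter_subset _ _)
              fun i hi _ => ?_) s1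
            rw [mem_Ico] at hi
            exact hS0 i (by omega) (by omega)
    have b2 : Bd.card ≤ p := by
      have : (Bd.card : ℝ) ≤ p := by nlinarith
      exact_mod_cast this
    have b3 := card_filter_add_card_filter_not (s := Ico (a + 2 * p) (a + 4 * p))
      (fun l => Sl q A s0 K (ph ρ l) (x (ph ρ l)) ≤ 4 * L1)
    rw [Nat.card_Ico, ← hBd, ← hGd] at b3
    omega
  have hne : Gd.Nonempty := card_pos.1 (by omega)
  have hmem := mem_filter.1 (Gd.max'_mem hne)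
  rw [mem_Ico] at hmem
  refine ⟨ph ρ (Gd.max' hne), le_trans (by omega) (le_ph ρ _), ph_top hρ hk (by omega), hmem.2, ?_⟩
  have s3 : ∀ l ∈ Gd.erase (Gd.max' hne), 2 ^ (N + 3) * p ≤
      4 * ∑ t ∈ range (nn ρ l + 1), cnt L (x (ph ρ l + t)) := by
    intro l hl
    have hl' := mem_filter.1 (mem_of_mem_erase hl)
    rw [mem_Ico] at hl'
    have b1 : 2 ^ (N + 3) ≤ nn ρ l := by
      have c1 : ρ ^ (2 * p * (N + 3)) ≤ ρ ^ l := pow_le_pow_right₀ hρ (by omega)
      rw [pow_mul, hk] at c1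
      exact_mod_cast c1.trans (nn_ge ρ l)
    have b2 : (nn ρ l : ℝ) ≤ 2 ^ (N + 4) + 1 := by
      have c1 : ρ ^ l ≤ ρ ^ (2 * p * (N + 4)) := pow_le_pow_right₀ hρ (by omega)
      rw [pow_mul, hk] at c1
      linarith [nn_le hρ l]
    rw [mul_sum]
    refine le_trans ?_ (card_nsmul_le_sum _ _ p fun t ht => ?_)
    · rw [card_range, smul_eq_mul]
      exact Nat.mul_le_mul_right _ (by omega)
    · have ht' := mem_range.1 ht
      have c1 : ph ρ l + t ≤ ph ρ (l + 1) := by simp only [ph]; omega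
      refine cnt_ge (q := q) (A := A) (s0 := s0) (y := ph ρ l + t) (hx.strict _)
        (hU _ (le_trans (by omega) ((le_ph ρ l).trans (Nat.le_add_right _ _)))
          (c1.trans (ph_top hρ hk (by omega)))) ?_ hL hL2 hp
      refine le_trans ?_ (add_le_add_left hl'.2 _)
      unfold Sl
      have c2 : ((2 * p : ℕ) : ℝ) * (q / (1 - q) * (2 ^ (N + 4) + 2)) =
          ∑ _j : Fin (2 * p), q / (1 - q) * (2 ^ (N + 4) + 2) := by
        rw [sum_const, card_univ, Fintype.card_fin, nsmul_eq_mul]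
      rw [c2, ← sum_add_distrib]
      refine sum_le_sum fun j _ => ?_
      have c3 : (x (ph ρ l) j : ℝ) ≤ x (ph ρ l + t) j := by
        exact_mod_cast hx.mono (Nat.le_add_right _ _) j
      have c4 : (t : ℝ) ≤ 2 ^ (N + 4) + 2 := by
        have : (t : ℝ) ≤ nn ρ l := by exact_mod_cast (show t ≤ nn ρ l by omega)
        linarith
      have c5 := mul_le_mul_of_nonneg_left c4 hα
      split_ifs
      · unfold U
        push_cast
        linarith
      · positivity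
  rw [sum_ph ρ fun t => cnt L (x t), show N + 4 - 4 = N by omega]
  have s4 := card_nsmul_le_sum _ _ _ s3
  rw [card_erase_of_mem (Gd.max'_mem hne), smul_eq_mul, ← mul_sum] at s4
  have s5 : ∑ l ∈ Gd.erase (Gd.max' hne), ∑ t ∈ range (nn ρ l + 1), cnt L (x (ph ρ l + t)) ≤
      ∑ l ∈ range (Gd.max' hne), ∑ t ∈ range (nn ρ l + 1), cnt L (x (ph ρ l + t)) :=
    sum_le_sum_of_subset fun l hl => mem_range.2 (lt_max'_of_mem_erase_max' _ hne hl)
  have s6 : (p - 1) * (2 ^ (N + 3) * p) ≤ (Gd.card - 1) * (2 ^ (N + 3) * p) :=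
    Nat.mul_le_mul_right _ (by omega)
  obtain ⟨r, rfl⟩ : ∃ r, p = r + 1 := ⟨p - 1, by omega⟩
  have s7 : 4 * ((r + 1) ^ 2 * 2 ^ N) ≤ (r + 1 - 1) * (2 ^ (N + 3) * (r + 1)) := by
    rw [show r + 1 - 1 = r by omega, pow_add]
    have : r + 1 ≤ 2 * r := by omega
    calc 4 * ((r + 1) ^ 2 * 2 ^ N) = (r + 1) * (4 * (r + 1) * 2 ^ N) := by ring
      _ ≤ 2 * r * (4 * (r + 1) * 2 ^ N) := Nat.mul_le_mul_right _ this
      _ = _ := by ring
  omega

end Pool.Agent.MP_151d89_pr.H33
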