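import Pool.Agent.MP_151d89_pr.H82.Main

set_option autoImplicit false
open MeasureTheory Filter

namespace Pool.Agent.MP_151d89_pr.H33
open Pool.Agent.MP_151d89_pr.H82

/-- tail triviality in the form used here -/
def Triv (μ : Measure (ℤ × ℤ → ℤ)) : Prop :=
  ∀ T : Set (ℤ × ℤ → ℤ), MeasurableSet T → (∀ Λ b, rep Λ b ⁻¹' T = T) → μ T ≠ 0 → μ Tᶜ = 0

/-- at least j level lines of (y - x - f) / 2 pass south-east of the site (X, y) -/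
def Ge (j X y : ℤ) (f : ℤ × ℤ → ℤ) : Prop := f (X, y) ≤ y - X - 2 * j

/-- positions of k lines in one row, index 0 is the rightmost line -/
abbrev St (k : ℕ) := Fin k → ℤ

/-- allowed step from one row to the next -/
def Rel {k : ℕ} (l m : St k) : Prop :=
  (∀ j, l j ≤ m j) ∧ ∀ i j : Fin k, i.val + 1 = j.val → m j ≤ l i ∧ m j < m i

/-- geometric weight -/
noncomputable def w (q : ℝ) (a : ℕ) : ENNReal := ENNReal.ofReal ((1 - q) * q ^ a)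

/-- state after the jumps a -/
def add {k : ℕ} (l : St k) (a : Fin k → ℕ) : St k := fun j => l j + a j

open Classical in
/-- one step of independent geometric walks killed at a forbidden step -/
noncomputable def P (q : ℝ) {k : ℕ} (G : St k → ENNReal) (l : St k) : ENNReal :=
  ∑' a : Fin k → ℕ, (∏ j, w q (a j)) * (if Rel l (add l a) then G (add l a) else 0)

/-- allowed paths with n steps from s, constant after time n -/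
def Path {k : ℕ} (n : ℕ) (s : St k) (x : ℕ → St k) : Prop :=
  x 0 = s ∧ (∀ y, y < n → Rel (x y) (x (y + 1))) ∧ ∀ y, n ≤ y → x y = x n

/-- weight of a path -/
noncomputable def wt (q : ℝ) {k : ℕ} (n : ℕ) (x : ℕ → St k) : ENNReal :=
  ∏ y ∈ Finset.range n, ∏ j, w q (x (y + 1) j - x y j).toNat

open Classical in
/-- weighted sum over allowed paths -/
noncomputable def Ex (q : ℝ) {k : ℕ} (n : ℕ) (s : St k) (G : (ℕ → St k) → ENNReal) : ENNReal :=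
  ∑' x : ℕ → St k, if Path n s x then wt q n x * G x else 0

/-- survival probability -/
noncomputable def hh (q : ℝ) {k : ℕ} (n : ℕ) (s : St k) : ENNReal := Ex q n s fun _ => 1

/-- weight of an event -/
noncomputable def Pr (q : ℝ) {k : ℕ} (n : ℕ) (s : St k) (A : Set (ℕ → St k)) : ENNReal :=
  Ex q n s (A.indicator fun _ => 1)

/-- packed state -/
def st (k : ℕ) (s0 : ℤ) : St k := fun j => s0 - j.val

/-- law of the sum of n geometric jumps -/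
noncomputable def nb (q : ℝ) : ℕ → ℤ → ENNReal
  | 0, m => if m = 0 then 1 else 0
  | n + 1, m => ∑' a : ℕ, w q a * nb q n (m - a)

/-- position of line number n, zero when there is no such line -/
def ext {k : ℕ} (l : St k) (n : ℕ) : ℤ := if h : n < k then l ⟨n, h⟩ else 0

/-- number of pairs (2 i, 2 i + 1) of lines at distance at most L -/
def cnt {k : ℕ} (L : ℕ) (l : St k) : ℕ :=
  ((Finset.range (k / 2)).filter fun i => ext l (2 * i) - ext l (2 * i + 1) ≤ L).card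

/-- fillings of a finite set -/
def Fill (Λ : Finset (ℤ × ℤ)) (g : ℤ × ℤ → ℤ) : Set (ℤ × ℤ → ℤ) :=
  {a | Hom a ∧ ∀ x, x ∉ Λ → a x = g x}

/-- for (X, y, j) in the list, fewer than j lines pass south-east of (X, y) -/
def FG (Γ : Finset (ℤ × ℕ × ℕ)) : Set (ℤ × ℤ → ℤ) := {f | ∀ γ ∈ Γ, ¬ Ge γ.2.2 γ.1 γ.2.1 f}

/-- the same event for paths -/
def FP {k : ℕ} (Γ : Finset (ℤ × ℕ × ℕ)) : Set (ℕ → St k) :=
  {x | ∀ γ ∈ Γ, ∀ i : Fin k, γ.2.2 ≤ i.val + 1 → x γ.2.1 i < γ.1}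

/-- the lines stay left of a wall -/
def Wall (q A A1 : ℝ) (k : ℕ) (s0 : ℤ) (C K y0 : ℕ) : Set (ℕ → St k) :=
  {x | ∀ y : ℕ, y0 ≤ y → y ≤ C * k →
    (∀ j : Fin k, K ≤ j.val → (x y j : ℝ) ≤ s0 + q / (1 - q) * y + A * k) ∧
      ∀ j : Fin k, (x y j : ℝ) ≤ s0 + A1 * C * k}

/-- Row A: the Gibbs property in counting form -/
def DLRStmt : Prop :=
  ∀ μ : Measure (ℤ × ℤ → ℤ), Gibbs μ → ∀ Λ Δ : Finset (ℤ × ℤ),
    (∀ x ∈ Λ, x ∈ Δ ∧ ∀ y : ℤ × ℤ, |x.1 - y.1| + |x.2 - y.2| = 1 → y ∈ Δ) →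
    ∀ (F B : Set (ℤ × ℤ → ℤ)) (θ : ENNReal), MeasurableSet B → (∀ b, rep Λ b ⁻¹' B = B) →
      (∀ f g : ℤ × ℤ → ℤ, (∀ x ∈ Δ, f x = g x) → f ∈ F → g ∈ F) →
      (∀ g, Hom g → g ∈ B →
        ((Fill Λ g ∩ F).encard : ENNReal) ≤ θ * ((Fill Λ g).encard : ENNReal)) →
      μ (F ∩ B) ≤ θ * μ B

/-- Row B: monotone comparison of fillings with systems of k lines -/
def CompareStmt : Prop :=
  ∀ (k Y : ℕ) (s0 X xl xr : ℤ) (t : St k) (Γ : Finset (ℤ × ℕ × ℕ)) (g : ℤ × ℤ → ℤ),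
    Hom g → g (0, 0) % 2 = 0 → (∀ x : ℤ, g (x, 0) ≤ -x) → Ge k (s0 - k + 1) 0 g → Ge k X Y g →
    (∀ j, t j ≤ X) → xl ≤ s0 - k + 1 → X < xr →
    (∀ γ ∈ Γ, xl ≤ γ.1 ∧ γ.1 ≤ xr ∧ γ.2.1 ≤ Y) →
    ((Fill (Finset.Ioo xl xr ×ˢ Finset.Ioo (0 : ℤ) Y) g ∩ FG Γ).encard : ENNReal) *
        ({x : ℕ → St k | Path Y (st k s0) x ∧ x Y = t}.encard : ENNReal) ≤
      ({x : ℕ → St k | Path Y (st k s0) x ∧ x Y = t ∧ x ∈ FP Γ}.encard : ENNReal) *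
        ((Fill (Finset.Ioo xl xr ×ˢ Finset.Ioo (0 : ℤ) Y) g).encard : ENNReal)

/-- Row C: transfer of a bound from the line system to the Gibbs measure -/
def TransferStmt : Prop :=
  ∀ μ : Measure (ℤ × ℤ → ℤ), Gibbs μ →
    (∀ᵐ f ∂μ, f (0, 0) % 2 = 0 ∧ ∀ x : ℤ, f (x, 0) ≤ -x) →
    ∀ q : ℝ, 0 < q → q < 1 → ∀ (k : ℕ) (s0 : ℤ) (Γ : Finset (ℤ × ℕ × ℕ)) (X : ℕ → ℤ)
      (S : Set ℕ) (D : Set (ℤ × ℤ → ℤ)) (θ : ENNReal), MeasurableSet D →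
      (∀ f g : ℤ × ℤ → ℤ, (∀ x : ℤ, f (x, 0) = g (x, 0)) → f ∈ D → g ∈ D) →
      (∀ f ∈ D, Ge k (s0 - k + 1) 0 f) →
      (∀ᵐ f ∂μ, ∃ Y ∈ S, Ge k (X Y) Y f) →
      (∀ Y ∈ S, (∀ γ ∈ Γ, γ.2.1 ≤ Y) ∧
        Pr q Y (st k s0) (FP Γ) ≤ θ * Pr q Y (st k s0) {x | ∀ j, x Y j ≤ X Y} ∧
        Pr q Y (st k s0) {x | ∀ j, x Y j ≤ X Y} ≠ 0) →
      μ (FG Γ ∩ D) ≤ θ * μ D

/-- Row D: staggered deletion of one row from each line -/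
def DelStmt : Prop :=
  ∀ q : ℝ, 0 < q → q < 1 → ∀ (k Y : ℕ) (s : St k) (b n : Fin k → ℕ), (∀ j, 1 ≤ n j) →
    (∀ j, b j + n j ≤ Y) → (∀ i j : Fin k, i.val + 1 = j.val → b i + n i ≤ b j) →
    Ex q (Y + 1) s (fun x => ENNReal.ofReal (Real.exp ((1 - q) * ∑ j, (q / (1 - q) -
      ((x (b j + n j + 1) j - x (b j) j : ℤ) : ℝ) / n j)))) ≤ hh q Y s

/-- Row E: close pairs are costly -/
def PairStmt : Prop :=
  ∀ q : ℝ, 0 < q → q < 1 → ∀ (p L y N : ℕ) (s : St (2 * p)), 2 ≤ L * (1 - q) →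
    Pr q y s {x | N ≤ ∑ t ∈ Finset.range y, cnt L (x t)} ≤
      ENNReal.ofReal ((4 / 3) ^ p * (1 - q / (32 * (L : ℝ) ^ 2)) ^ N)

/-- Row F1: a block displacement with good probability -/
def BlockStmt : Prop :=
  ∀ q0 q1 : ℝ, 0 < q0 → q1 < 1 → ∃ c c3 : ℕ, 1 ≤ c ∧ 1 ≤ c3 ∧ ∀ q, q0 ≤ q → q ≤ q1 → ∀ d0 : ℕ, 1 ≤ d0 →
    ∃ d : ℕ, d0 ≤ d ∧ ENNReal.ofReal (1 / (c3 * d0 : ℝ)) ≤ nb q (c * d0) d

/-- Row F2: reaching a state with larger gaps than l from the packed state -/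
def BaseStmt : Prop :=
  ∀ q : ℝ, 0 < q → q < 1 → ∀ (k : ℕ) (s0 : ℤ) (K : Fin k) (B d bf m : ℕ) (l : St k),
    1 ≤ B → 1 ≤ d → (∀ i j : Fin k, i.val + 1 = j.val → l j < l i) →
    (∀ j : Fin k, j.val + (l K - l j).toNat / d < bf) →
    ENNReal.ofReal ((1 - q) ^ (B * ∑ j : Fin k, (j.val + 1 + (l K - l j).toNat / d)) *
        q ^ (∑ j : Fin k, (l j - l K).toNat)) * nb q B d ^ (k * bf) * hh q m l ≤
      hh q (B * bf + m) (st k s0)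

/-- Row G: far rows -/
def FarStmt : Prop :=
  ∀ q : ℝ, 0 < q → q < 1 → ∀ (k : ℕ) (s0 : ℤ),
    (∀ Y, hh q Y (st k s0) ≠ 0) ∧
    (∀ a : ℝ, q / (1 - q) < a → ∃ Y0 : ℕ, ∀ Y, Y0 ≤ Y →
      3 / 4 * hh q Y (st k s0) ≤ Pr q Y (st k s0) {x | ∀ j, x Y j ≤ ⌈a * Y⌉}) ∧
    ∀ η : ℝ, 0 < η → ∃ Y0 : ℕ, ∀ y, Y0 ≤ y → ∃ Y : ℕ, y ≤ Y ∧ ((Y + 1 : ℕ) : ℝ) ≤ (1 + η) * y ∧
      hh q Y (st k s0) ≤ 2 * hh q (Y + 1) (st k s0)

/-- a single line: the first jump is geometric -/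
def OneStmt : Prop :=
  ∀ q : ℝ, 0 < q → q < 1 → ∀ (s0 X : ℤ) (Y : ℕ), 1 ≤ Y →
    Pr q Y (st 1 s0) {x | x 1 0 < X} ≤
      ENNReal.ofReal (|((X - s0 : ℤ) : ℝ)| * (1 - q)) * hh q Y (st 1 s0)

/-- the key estimate: the lines do not stay left of the wall -/
def KeyStmt : Prop :=
  ∀ q0 q1 A A1 : ℝ, 0 < q0 → q1 < 1 → 0 ≤ A → 0 ≤ A1 → ∃ C : ℕ, 1 ≤ C ∧
    ∀ q, q0 ≤ q → q ≤ q1 → ∀ K y0 : ℕ, ∃ p0 : ℕ, ∀ p, p0 ≤ p → ∃ Y0 : ℕ, ∀ (s0 : ℤ) (Y : ℕ),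
      Y0 ≤ Y → hh q Y (st (2 * p) s0) ≤ 2 * hh q (Y + 1) (st (2 * p) s0) →
      Pr q (Y + 1) (st (2 * p) s0) (Wall q A A1 (2 * p) s0 C K y0) ≤
        1 / 2 * hh q (Y + 1) (st (2 * p) s0)

/-- Row H: the half-plane theorem -/
def CoreStmt : Prop :=
  ∀ μ : Measure (ℤ × ℤ → ℤ), Gibbs μ → Triv μ → (∀ᵐ f ∂μ, ∀ x : ℤ, f (x, 0) ≤ -x) →
    (∀ᵐ f ∂μ, ∀ᶠ n : ℕ in atTop, f ((n : ℤ), 1) = 1 - (n : ℤ)) →
    (∀ᵐ f ∂μ, Tendsto (fun n : ℕ => ((f (-(n : ℤ), 0) : ℤ) : ℝ) / (n : ℝ)) atTop (nhds 1)) ∨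
      ∀ᵐ f ∂μ, Tendsto (fun n : ℕ => ((f (0, (n : ℤ)) : ℤ) : ℝ) / (n : ℝ)) atTop (nhds 1)

/-- Row I: the final statement -/
def FinalStmt : Prop :=
  ∀ μ : Measure (ℤ × ℤ → ℤ), Gibbs μ →
    (∀ ν₁, Gibbs ν₁ → ∀ ν₂, Gibbs ν₂ → ∀ t : ENNReal, 0 < t → t < 1 →
      μ = t • ν₁ + (1 - t) • ν₂ → ν₁ = ν₂) →
    ∀ (v : ℤ × ℤ) (m : ℤ), (∀ᵐ f ∂μ, f v < m) →
      ∃ e : ℤ × ℤ, |e.1| + |e.2| = 1 ∧ ∀ u : ℤ × ℤ, ∀ᵐ f ∂μ,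
        Tendsto (fun n : ℕ => ((f (u + (n : ℤ) • e) - f u : ℤ) : ℝ) / (n : ℝ)) atTop (nhds 1)

end Pool.Agent.MP_151d89_pr.H33
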