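import Pool.Agent.MP_151d89_pr.H33.Key1

set_option autoImplicit false
open Finset

namespace Pool.Agent.MP_151d89_pr.H33

theorem cancel_le {a b : ENNReal} {c c' e : ℝ} (hc : 0 < c) (he : c' ≤ c * e)
    (h : ENNReal.ofReal c * a ≤ ENNReal.ofReal c' * b) : a ≤ ENNReal.ofReal e * b := by
  have h2 : ENNReal.ofReal c * a ≤ ENNReal.ofReal c * (ENNReal.ofReal e * b) := by
    rw [← mul_assoc, ← ENNReal.ofReal_mul hc.le]
    exact h.trans (mul_le_mul_left (ENNReal.ofReal_le_ofReal he) _)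
  exact (ENNReal.mul_le_mul_iff_right (ENNReal.ofReal_pos.2 hc).ne' ENNReal.ofReal_ne_top).1 h2

theorem choose_M {G : ℝ} (hG : 0 < G) (E : ℝ) : ∃ M : ℕ, 2 ≤ M ∧ E * (M : ℝ) ^ 4 ≤ G * 2 ^ M := by
  have h := tendsto_pow_const_div_const_pow_of_one_lt 4 (by norm_num : (1 : ℝ) < 2)
  have h2 := (h.const_mul E).eventually (gt_mem_nhds (show E * 0 < G by simpa using hG))
  obtain ⟨M, hM, h3⟩ := ((Filter.eventually_ge_atTop 2).and h2).exists
  refine ⟨M, hM, ?_⟩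
  rw [← mul_div_assoc, div_lt_iff₀ (by positivity)] at h3
  exact h3.le

theorem coef_le {c1 c D a1 A c3 n m : ℝ} (hc1 : 0 ≤ c1) (hc : 0 ≤ c) (hD : 0 ≤ D) (ha : 0 ≤ a1)
    (hA : 0 ≤ A) (hc3 : 0 ≤ c3) (hn : 1 ≤ n) (hm : 1 ≤ m) :
    c1 * c * n + 4 * c1 * c * D * (2 * m) +
      (1 + ((a1 + 1) * (4 * (2 * m + 1) * n ^ 2) + A + 1) / n) * (c3 + m) ≤
      n * m ^ 2 * (c1 * c + 8 * c1 * c * D + (A + 2 + 12 * (a1 + 1)) * (c3 + 1)) := by
  have hmn : 1 ≤ m * n := one_le_mul_of_one_le_of_one_le hm hn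
  have a1' : ((a1 + 1) * (4 * (2 * m + 1) * n ^ 2) + A + 1) / n ≤
      12 * (a1 + 1) * (m * n) + (A + 1) := by
    rw [div_le_iff₀ (by linarith)]
    have b1 : (a1 + 1) * (4 * (2 * m + 1) * n ^ 2) ≤ (a1 + 1) * (12 * m * n ^ 2) :=
      mul_le_mul_of_nonneg_left (mul_le_mul_of_nonneg_right (by linarith) (by positivity))
        (by linarith)
    nlinarith
  have a2 : 1 + ((a1 + 1) * (4 * (2 * m + 1) * n ^ 2) + A + 1) / n ≤
      (A + 2 + 12 * (a1 + 1)) * (m * n) := by nlinarith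
  have a3 : c3 + m ≤ (c3 + 1) * m := by nlinarith
  have a4 := mul_le_mul a2 a3 (by linarith) (by positivity)
  have a5 : n ≤ n * m ^ 2 := le_mul_of_one_le_right (by linarith) (one_le_pow₀ hm)
  have a6 : m ≤ n * m ^ 2 := by nlinarith
  have a7 := mul_le_mul_of_nonneg_left a5 (mul_nonneg hc1 hc)
  have a8 := mul_le_mul_of_nonneg_left a6 (mul_nonneg (mul_nonneg hc1 hc) hD)
  nlinarith

theorem gain_ge {q q0 L0 m n E p : ℝ} (hq : q0 ≤ q) (hL : 0 < L0) (hm : 1 ≤ m)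
    (hn : 1 ≤ n) (h : (4 * E + 1) * m ^ 4 ≤ q0 / (2048 * L0 ^ 2) * n) :
    (4 * (n * m ^ 2 * E) + 1) * p ^ 2 ≤ q / (32 * (L0 * (2 * m)) ^ 2) * (p ^ 2 * (n ^ 2 / 16)) := by
  have a1 : 4 * (n * m ^ 2 * E) + 1 ≤ q / (32 * (L0 * (2 * m)) ^ 2) * (n ^ 2 / 16) := by
    have hm0 : 0 < m := by linarith
    have e : q / (32 * (L0 * (2 * m)) ^ 2) * (n ^ 2 / 16) = q / (2048 * L0 ^ 2) * n * n / m ^ 2 := by
      field_simp
      ring
    rw [e, le_div_iff₀ (by positivity)]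
    have b1 : q0 / (2048 * L0 ^ 2) * n ≤ q / (2048 * L0 ^ 2) * n :=
      mul_le_mul_of_nonneg_right (div_le_div_of_nonneg_right hq (by positivity)) (by linarith)
    have b2 := mul_le_mul_of_nonneg_right (h.trans b1) (show 0 ≤ n by linarith)
    have b3 : m ^ 2 ≤ m ^ 4 * n :=
      (pow_le_pow_right₀ hm (by norm_num)).trans (le_mul_of_one_le_right (by positivity) hn)
    nlinarith
  nlinarith [sq_nonneg p, mul_le_mul_of_nonneg_right a1 (sq_nonneg p)]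

theorem final_num {C κ cost F : ℝ} {p N : ℕ} (hC : 0 ≤ C) (hκ : κ ≤ 1)
    (h : cost - κ * N ≤ -(p : ℝ) ^ 2 + F * p) (hp : 2 * C + 1 + F + 2 ≤ p) (hp1 : 1 ≤ p) :
    (4 / 3) ^ p * (1 - κ) ^ N ≤ Real.exp (-cost) * (1 / 4 / (C * (2 * p : ℕ) + 1)) := by
  have hp' : (1 : ℝ) ≤ p := by exact_mod_cast hp1
  have a1 : ((4 : ℝ) / 3) ^ p ≤ Real.exp p := by
    have : (4 : ℝ) / 3 ≤ Real.exp 1 := by linarith [Real.add_one_le_exp (1 : ℝ)]
    simpa [← Real.exp_nat_mul] using pow_le_pow_left₀ (by norm_num) this p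
  have a2 : (1 - κ) ^ N ≤ Real.exp (N * -κ) := by
    rw [Real.exp_nat_mul]
    exact pow_le_pow_left₀ (by linarith) (by linarith [Real.add_one_le_exp (-κ)]) N
  have a3 : C * (2 * p : ℕ) + 1 ≤ Real.exp (C * (2 * p : ℕ)) := Real.add_one_le_exp _
  have a4 : (4 : ℝ) ≤ Real.exp 2 := by
    have : (2 : ℝ) ≤ Real.exp 1 := by linarith [Real.add_one_le_exp (1 : ℝ)]
    calc (4 : ℝ) = 2 * 2 := by norm_num
      _ ≤ Real.exp 1 * Real.exp 1 := mul_le_mul this this (by norm_num) (by positivity)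
      _ = Real.exp 2 := by rw [← Real.exp_add]; norm_num
  have hpos : 0 < C * (2 * p : ℕ) + 1 := by positivity
  rw [div_div, mul_one_div, le_div_iff₀ (by positivity)]
  calc _ ≤ Real.exp p * Real.exp (N * -κ) * (Real.exp 2 * Real.exp (C * (2 * p : ℕ))) :=
        mul_le_mul (mul_le_mul a1 a2 (pow_nonneg (by linarith) _) (by positivity))
          (mul_le_mul a4 a3 hpos.le (by positivity)) (by positivity) (by positivity)
    _ ≤ Real.exp (-cost) := by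
        rw [← Real.exp_add, ← Real.exp_add, ← Real.exp_add]
        refine Real.exp_le_exp.2 ?_
        push_cast
        nlinarith

theorem num1 {p m r1 r2 α a1 A : ℝ} (hp : 0 ≤ p) (hm : 1 ≤ m) (hr2 : 0 ≤ r2) (hα0 : 0 ≤ α)
    (hα : α ≤ a1) (hA : 0 ≤ A) (u1 : r1 + 2 * r2 ≤ p) :
    2 * (2 * p * (4 * α * (2 * p) + (A + 1) * (2 * p) + 2 * α * (2 * p * (2 * m))) +
      2 * p * m * r1 + r2 * (2 * p)) ≤ (2 * (6 * a1 + A + 1) + 1) * (2 * m) * (2 * p) ^ 2 := by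
  have u2 : p * m * (r1 + 2 * r2) ≤ p * m * p := mul_le_mul_of_nonneg_left u1 (by positivity)
  have u3 : p * r2 ≤ p * m * r2 :=
    mul_le_mul_of_nonneg_right (le_mul_of_one_le_right hp hm) hr2
  have u4 : p ^ 2 * m * α ≤ p ^ 2 * m * a1 := mul_le_mul_of_nonneg_left hα (by positivity)
  have u5 : p ^ 2 * α ≤ p ^ 2 * m * α :=
    mul_le_mul_of_nonneg_right (le_mul_of_one_le_right (by positivity) hm) hα0
  have u6 : p ^ 2 * (A + 1) ≤ p ^ 2 * m * (A + 1) :=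
    mul_le_mul_of_nonneg_right (le_mul_of_one_le_right (by positivity) hm) (by linarith)
  have ha : 0 ≤ a1 := hα0.trans hα
  have u7 : 0 ≤ p ^ 2 * m * a1 := by positivity
  have u8 : 0 ≤ p ^ 2 * m * (A + 1) := by positivity
  have u9 : 0 ≤ p * m * r2 := by positivity
  have u10 : 0 ≤ p ^ 2 * m := by positivity
  linarith

theorem num2 {p m r D L0 : ℝ} (hp : 0 ≤ p) (hm : 1 ≤ m) (u1 : r ≤ p) (hL : 32 * (4 * D + 1) ≤ L0) :
    4 * (D * (2 * m) * (2 * p) ^ 2) + 2 * p * r ≤ L0 * (2 * m) * p ^ 2 / 8 := by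
  have u2 : (32 * (4 * D + 1)) * (m * p ^ 2) ≤ L0 * (m * p ^ 2) :=
    mul_le_mul_of_nonneg_right hL (by positivity)
  have u3 : p * r ≤ p * p := mul_le_mul_of_nonneg_left u1 hp
  have u4 : p ^ 2 ≤ m * p ^ 2 := le_mul_of_one_le_left (by positivity) hm
  have u5 : 0 ≤ p ^ 2 := by positivity
  linarith

theorem num3 {p x1 x2 x3 x4 x5 x6 bf : ℝ} (hp : 0 ≤ p) (h4 : 0 ≤ x4)
    (g1 : (4 * x5 + 1) * p ^ 2 ≤ x6) (g2 : x1 + (1 + x2) * x4 ≤ x5)
    (g4 : bf ≤ 2 * p + x2 * (2 * p) + 1) :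
    x1 * (4 * p ^ 2) + 2 * x3 * p + x4 * (2 * p) * bf - x6 ≤ -p ^ 2 + 2 * (x3 + x4) * p := by
  have g6 := mul_le_mul_of_nonneg_left g4 (show 0 ≤ x4 * (2 * p) by positivity)
  have g7 := mul_le_mul_of_nonneg_right g2 (show 0 ≤ 4 * p ^ 2 by positivity)
  linarith

theorem num4 {c1 D L0 m q : ℝ} (hc : 0 < c1) (hD : 0 < D) (hL : 32 * (4 * D + 1) + 2 * c1 ≤ L0)
    (hm : 1 ≤ m) (h0 : 0 < q) (h1 : q < 1) (h : 1 ≤ c1 * (1 - q)) :
    2 ≤ L0 * (2 * m) * (1 - q) ∧ q / (32 * (L0 * (2 * m)) ^ 2) ≤ 1 := by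
  have u0 : 1 ≤ L0 := by linarith
  have u1 : L0 ≤ L0 * (2 * m) := le_mul_of_one_le_right (by linarith) (by linarith)
  have u2 := mul_le_mul_of_nonneg_right (show 2 * c1 ≤ L0 * (2 * m) by linarith)
    (show 0 ≤ 1 - q by linarith)
  refine ⟨by linarith, ?_⟩
  have u3 : 1 ≤ (L0 * (2 * m)) ^ 2 := one_le_pow₀ (u0.trans u1)
  rw [div_le_one (by linarith)]
  linarith

theorem key (hD : DelStmt) (hP : PairStmt) (hBl : BlockStmt) (hB : BaseStmt) : KeyStmt := by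
  intro q0 q1 A A1 hq0 hq1 hA hA1
  rcases lt_or_ge q1 q0 with hlt | hle
  · exact ⟨1, le_rfl, fun q a b => absurd (a.trans b) (not_le.2 hlt)⟩
  obtain ⟨c, c3, hc, hc3, hblock⟩ := hBl q0 q1 hq0 hq1
  have hq1' : 0 < 1 - q1 := by linarith
  obtain ⟨a1, ha1⟩ : ∃ a1, a1 = q1 / (1 - q1) := ⟨_, rfl⟩
  have ha1' : 0 ≤ a1 := by rw [ha1]; exact div_nonneg (by linarith) hq1'.le
  obtain ⟨D, hDd⟩ : ∃ D, D = 2 * (6 * a1 + A + 1) + 1 := ⟨_, rfl⟩
  have hD0 : 0 < D := by rw [hDd]; positivity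
  obtain ⟨c1, hc1⟩ : ∃ c1, c1 = 1 / (1 - q1) := ⟨_, rfl⟩
  have hc1' : 0 < c1 := by rw [hc1]; positivity
  obtain ⟨L0, hL0⟩ : ∃ L0 : ℕ, 32 * (4 * D + 1) + 2 * c1 ≤ L0 := exists_nat_ge _
  have hL0' : (0 : ℝ) < L0 := lt_of_lt_of_le (by positivity) hL0
  obtain ⟨E, hE⟩ : ∃ E, E = c1 * c + 8 * c1 * c * D + (A + 2 + 12 * (a1 + 1)) * (c3 + 1) :=
    ⟨_, rfl⟩
  have hE0 : 0 ≤ E := by rw [hE]; positivity
  obtain ⟨m, hm2, hm⟩ := choose_M (show 0 < q0 / (2048 * (L0 : ℝ) ^ 2) by positivity) (4 * E + 1)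
  have hm1 : (1 : ℝ) ≤ m := by exact_mod_cast (show 1 ≤ m by omega)
  refine ⟨(2 * m + 1) * 2 ^ (2 * m + 2), Nat.one_le_iff_ne_zero.2 (by positivity), ?_⟩
  obtain ⟨C, hC⟩ : ∃ C : ℕ, C = (2 * m + 1) * 2 ^ (2 * m + 2) := ⟨_, rfl⟩
  intro q hqa hqb K y0
  have h0 : 0 < q := by linarith
  have h1 : q < 1 := by linarith
  have hq : 0 < 1 - q := by linarith
  have hα0 : 0 ≤ q / (1 - q) := by positivity
  have hα : q / (1 - q) ≤ a1 := by
    rw [ha1]; exact div_le_div₀ (by linarith) hqb hq1' (by linarith)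
  have hc1q : 1 ≤ c1 * (1 - q) := by
    rw [hc1, one_div, ← div_eq_inv_mul, one_le_div hq1']; linarith
  obtain ⟨d, hd, hnb⟩ := hblock q hqa hqb (2 ^ m) Nat.one_le_two_pow
  obtain ⟨F, hF⟩ : ∃ F : ℝ, F = 2 * (1 / q0 * K * (A1 * C + 1) + (c3 + m)) := ⟨_, rfl⟩
  have hF0 : 0 ≤ F := by rw [hF]; positivity
  obtain ⟨p1, hp1⟩ := exists_nat_ge (16 * 2 ^ (2 * m) / (1 - q) + 2 * K * A1 * C +
    a1 * (2 ^ (2 * m) + 2) + (2 * C + 1 + F + 2))
  refine ⟨p1 + y0 + 8 * K + 4, fun p hp => ?_⟩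
  have hp1' : (p1 : ℝ) ≤ p := by exact_mod_cast (show p1 ≤ p by omega)
  have hp0 : (1 : ℝ) ≤ p := by exact_mod_cast (show 1 ≤ p by omega)
  have t1 : 0 ≤ 16 * 2 ^ (2 * m) / (1 - q) := by positivity
  have t2 : 0 ≤ 2 * K * A1 * C := by positivity
  have t3 : 0 ≤ a1 * (2 ^ (2 * m) + 2) := by positivity
  have t4 : 0 ≤ 2 * C + 1 + F + 2 := by positivity
  obtain ⟨T, hT⟩ : ∃ T : ℝ, T = (a1 + 1) * C + A + 1 := ⟨_, rfl⟩
  have hT0 : 0 ≤ T := by rw [hT]; positivity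
  have hCT : (C : ℝ) ≤ T := by
    have : 0 ≤ a1 * C := by positivity
    rw [hT, add_mul]; linarith
  have hαT : q / (1 - q) * C + A + 1 ≤ T := by
    have := mul_le_mul_of_nonneg_right hα (Nat.cast_nonneg (α := ℝ) C)
    rw [hT, add_mul]; linarith [Nat.cast_nonneg (α := ℝ) C]
  obtain ⟨bf, hbf⟩ : ∃ bf : ℕ, bf = 2 * p + ⌈T * (2 * p : ℕ) / (2 ^ m : ℕ)⌉₊ := ⟨_, rfl⟩
  refine ⟨c * 2 ^ m * bf + C * (2 * p), fun s0 Y hY hgood => ?_⟩
  obtain ⟨ρ, hρ, hk⟩ : ∃ ρ : ℝ, 1 ≤ ρ ∧ ρ ^ (2 * p) = 2 :=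
    ⟨2 ^ (((2 * p : ℕ) : ℝ)⁻¹), Real.one_le_rpow (by norm_num) (by positivity),
      Real.rpow_inv_natCast_pow (by norm_num) (by omega)⟩
  rw [← hC]
  obtain ⟨L1, hL1⟩ : ∃ L1 : ℝ, L1 = D * (2 * m) * (2 * p) ^ 2 := ⟨_, rfl⟩
  obtain ⟨v, hv⟩ : ∃ v : ℝ, v = (2 * p : ℕ) * (2 * m : ℕ) * 2 ^ (2 * m) := ⟨_, rfl⟩
  have hv0 : 0 < v := by rw [hv]; push_cast; positivity
  have cover := Pr_cover q (n := Y + 1) (s := st (2 * p) s0) (Wall q A A1 (2 * p) s0 C K y0)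
    {x | 8 * v < Vs q ρ (2 * p * (2 * m)) x} (range (C * (2 * p) + 1))
    (fun y => Ecut q A A1 (4 * L1) (2 * p) s0 C K (L0 * (2 * m)) (p ^ 2 * 2 ^ (2 * m - 4)) y) (by
      intro x hx hW hV
      have hW' := hW
      rw [hC] at hW'
      obtain ⟨y, y1, y2, y3, y4⟩ := comb (L := L0 * (2 * m)) (L1 := L1) h0 h1 hA hA1 hρ hk
        (show 4 ≤ 2 * m by omega) (show y0 ≤ p by omega) (show 8 * K + 4 ≤ p by omega)
        (Nat.one_le_iff_ne_zero.2 (Nat.mul_ne_zero (by exact_mod_cast hL0'.ne') (by omega)))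
        (by rw [hL1]; positivity) (by
          rw [← hC, hL1, hv, hDd]
          push_cast
          have u1 : 16 * 2 ^ (2 * m) / (1 - q) + 2 * K * A1 * C ≤ p := by linarith
          have e : 8 * (2 * (p : ℝ) * (2 * m) * 2 ^ (2 * m)) / (1 - q) =
              2 * p * m * (16 * 2 ^ (2 * m) / (1 - q)) := by ring
          rw [e]
          have e2 : (K : ℝ) * (A1 * C * (2 * p)) = K * A1 * C * (2 * p) := by ring
          rw [e2]
          exact num1 (by linarith) hm1 (by positivity) hα0 hα hA (by linarith)) (by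
          rw [hL1]
          push_cast
          have u1 : q / (1 - q) * (2 ^ (2 * m) + 2) ≤ p := by
            have := mul_le_mul_of_nonneg_right hα (show (0 : ℝ) ≤ 2 ^ (2 * m) + 2 by positivity)
            linarith
          exact num2 (by linarith) hm1 u1 (by linarith)) hx hW' (not_lt.1 hV)
      rw [← hC] at y2
      exact ⟨y, mem_range.2 (by omega), (hW y y1 y2).1, (hW y y1 y2).2, y3, y4⟩)
  have part1 : Pr q (Y + 1) (st (2 * p) s0) {x | 8 * v < Vs q ρ (2 * p * (2 * m)) x} ≤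
      ENNReal.ofReal (1 / 4) * hh q (Y + 1) (st (2 * p) s0) := by
    refine cancel_le (c := 8 * v) (c' := v * 2) (by positivity) (by linarith) ?_
    refine (Pr_markov q (G := fun x => ENNReal.ofReal (Vs q ρ (2 * p * (2 * m)) x))
      fun x _ hx => ENNReal.ofReal_le_ofReal (le_of_lt hx)).trans ?_
    refine (exV hD h0 h1 hρ hk (by rw [← hC]; omega) _).trans ?_
    rw [← hv, ENNReal.ofReal_mul hv0.le, mul_assoc, ENNReal.ofReal_ofNat]
    exact mul_le_mul_right hgood _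
  have hn1 : (1 : ℝ) ≤ 2 ^ m := one_le_pow₀ (by norm_num)
  have hCr : (C : ℝ) = 4 * (2 * m + 1) * (2 ^ m) ^ 2 := by rw [hC]; push_cast; ring
  have hLq : 2 ≤ ((L0 * (2 * m) : ℕ) : ℝ) * (1 - q) := by
    push_cast
    exact (num4 hc1' hD0 hL0 hm1 h0 h1 hc1q).1
  have part2 : ∀ y ∈ range (C * (2 * p) + 1), Pr q (Y + 1) (st (2 * p) s0)
      (Ecut q A A1 (4 * L1) (2 * p) s0 C K (L0 * (2 * m)) (p ^ 2 * 2 ^ (2 * m - 4)) y) ≤
      ENNReal.ofReal (1 / 4 / (C * (2 * p : ℕ) + 1)) * hh q (Y + 1) (st (2 * p) s0) := by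
    intro y hy
    have hy' : y ≤ C * (2 * p) := Nat.lt_succ_iff.1 (mem_range.1 hy)
    have hyb : y ≤ c * 2 ^ m * bf := by
      have u1 : T * (2 * p : ℕ) / (2 ^ m : ℕ) ≤ bf := by
        rw [hbf, Nat.cast_add]
        linarith [Nat.le_ceil (T * (2 * p : ℕ) / (2 ^ m : ℕ)), Nat.cast_nonneg (α := ℝ) (2 * p)]
      rw [div_le_iff₀ (by positivity)] at u1
      have u2 : (C : ℝ) * (2 * p : ℕ) ≤ T * (2 * p : ℕ) :=
        mul_le_mul_of_nonneg_right hCT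
          (by positivity)
      have u3 : C * (2 * p) ≤ bf * 2 ^ m := by exact_mod_cast u2.trans u1
      calc y ≤ 1 * (bf * 2 ^ m) := by omega
        _ ≤ c * (bf * 2 ^ m) := Nat.mul_le_mul_right _ hc
        _ = _ := by ring
    obtain ⟨cost, hcost⟩ : ∃ cost : ℝ, cost = c1 * ((c * 2 ^ m : ℕ) * ((2 * p : ℕ) ^ 2 +
      4 * L1 / (2 ^ m : ℕ))) + 1 / q0 * (K * (A1 * C * (2 * p : ℕ) + (2 * p : ℕ))) +
      (c3 + m) * ((2 * p : ℕ) * bf) := ⟨_, rfl⟩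
    have hκ : q / (32 * ((L0 * (2 * m) : ℕ) : ℝ) ^ 2) ≤ 1 := by
      push_cast
      exact (num4 hc1' hD0 hL0 hm1 h0 h1 hc1q).2
    refine cancel_le (Real.exp_pos (-cost)) (final_num (F := F) (N := p ^ 2 * 2 ^ (2 * m - 4))
      (Nat.cast_nonneg C) hκ ?_ (by linarith) (by omega)) ?_
    · have g1 := gain_ge (p := p) hqa hL0' hm1 hn1 hm
      have g2 := coef_le hc1'.le (Nat.cast_nonneg c) hD0.le ha1' hA (Nat.cast_nonneg c3) hn1 hm1
      rw [← hE, ← hCr, ← hT] at g2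
      have g3 : (((p ^ 2 * 2 ^ (2 * m - 4) : ℕ)) : ℝ) = p ^ 2 * ((2 ^ m) ^ 2 / 16) := by
        obtain ⟨r, rfl⟩ : ∃ r, m = r + 2 := ⟨m - 2, by omega⟩
        rw [show 2 * (r + 2) - 4 = 2 * r by omega]
        push_cast; ring
      have g4 : (bf : ℝ) ≤ 2 * p + T / 2 ^ m * (2 * p) + 1 := by
        have := (Nat.ceil_lt_add_one (show 0 ≤ T * (2 * p : ℕ) / (2 ^ m : ℕ) by positivity)).le
        rw [hbf, Nat.cast_add]
        push_cast at this ⊢
        rw [div_mul_eq_mul_div]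
        linarith
      have g5 : cost = (c1 * c * 2 ^ m + 4 * c1 * c * D * (2 * m)) * (4 * p ^ 2) +
          2 * (1 / q0 * K * (A1 * C + 1)) * p + (c3 + m) * (2 * p) * bf := by
        rw [hcost, hL1]
        push_cast
        field_simp
        ring
      rw [g3, g5, hF]
      push_cast
      exact num3 (by linarith) (by positivity) g1 g2 g4
    · obtain ⟨r, hr⟩ : ∃ r, Y + 1 = c * 2 ^ m * bf + r := ⟨Y + 1 - c * 2 ^ m * bf, by omega⟩
      obtain ⟨r', hr'⟩ : ∃ r', Y + 1 = y + r' := ⟨Y + 1 - y, by omega⟩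
      have := cut q y r' (st (2 * p) s0) _ (ENNReal.ofReal (Real.exp (-cost)))
        (hh q (Y + 1) (st (2 * p) s0)) (Ecut_dep q A A1 (4 * L1) (2 * p) s0 C K (L0 * (2 * m))
          (p ^ 2 * 2 ^ (2 * m - 4)) y) (by
          intro x hx hE'
          obtain ⟨b1, b2, b3⟩ := Ecut_bounds (K := ⟨K, by omega⟩) (T := T) (d := d) h0 h1 hA1 hx hE'
            hy' Nat.one_le_two_pow hd hαT
          rw [← hbf] at b1
          refine le_trans (mul_le_mul_right (hh_anti h0 h1 (show r ≤ r' by omega) _) _) ?_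
          rw [hr, hcost]
          refine base_cost hB h0 h1 s0 ⟨K, by omega⟩ r
            (Nat.one_le_iff_ne_zero.2 (by positivity)) Nat.one_le_two_pow hd (hx.strict y) b1
            (by positivity) hc1'.le ((exp_inv_le hq0).trans hqa)
            (by rw [hc1]; exact (exp_inv_le hq1').trans (by linarith))
            (le_trans (ENNReal.ofReal_le_ofReal ?_) hnb) b2 b3
          rw [Real.exp_neg, one_div]
          refine inv_anti₀ (by positivity) ?_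
          rw [Real.exp_add]
          refine mul_le_mul (by linarith [Real.add_one_le_exp (c3 : ℝ)]) ?_ (by positivity)
            (by positivity)
          have : (2 : ℝ) ≤ Real.exp 1 := by linarith [Real.add_one_le_exp (1 : ℝ)]
          simpa [← Real.exp_nat_mul] using pow_le_pow_left₀ (by norm_num) this m)
      rw [← hr'] at this
      refine this.trans ?_
      rw [mul_comm]
      exact mul_le_mul_left ((Pr_mono q fun x _ hx => hx.2.2.2).trans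
        (hP q h0 h1 p _ y _ _ hLq)) _
  refine cover.trans ((add_le_add part1 (sum_le_card_nsmul _ _ _ part2)).trans (le_of_eq ?_))
  rw [card_range, nsmul_eq_mul, ← mul_assoc, ← add_mul, ← ENNReal.ofReal_natCast,
    ← ENNReal.ofReal_mul (by positivity), ← ENNReal.ofReal_add (by norm_num) (by positivity)]
  congr 1
  have e : (1 : ℝ) / 4 + ((C * (2 * p) + 1 : ℕ) : ℝ) * (1 / 4 / (C * (2 * p : ℕ) + 1)) = 1 / 2 := by
    push_cast
    field_simp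
    norm_num
  rw [e, ENNReal.ofReal_div_of_pos (by norm_num), ENNReal.ofReal_one, ENNReal.ofReal_ofNat]

end Pool.Agent.MP_151d89_pr.H33
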