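import Pool.Agent.MP_151d89_pr.H33.Comb

set_option autoImplicit false
open Finset

namespace Pool.Agent.MP_151d89_pr.H33

theorem exV (hD : DelStmt) {q ρ : ℝ} (h0 : 0 < q) (h1 : q < 1) (hρ : 1 ≤ ρ) {k M Y : ℕ}
    (hk : ρ ^ k = 2) (hY : (M + 1) * 2 ^ (M + 2) * k ≤ Y) (s : St k) :
    Ex q (Y + 1) s (fun x => ENNReal.ofReal (Vs q ρ (k * M) x)) ≤
      ENNReal.ofReal (k * M * 2 ^ M) * hh q Y s := by
  have e : ∀ x : ℕ → St k, ENNReal.ofReal (Vs q ρ (k * M) x) = ∑ r ∈ range (k * M),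
      ENNReal.ofReal (ρ ^ r) * ENNReal.ofReal (Real.exp (Xr q ρ r x)) := by
    intro x
    unfold Vs
    rw [ENNReal.ofReal_sum_of_nonneg fun _ _ => by positivity]
    exact sum_congr rfl fun r _ => ENNReal.ofReal_mul (by positivity)
  simp only [e]
  rw [Ex_sum]
  refine (sum_le_card_nsmul _ _ (ENNReal.ofReal (2 ^ M) * hh q Y s) fun r hr => ?_).trans
    (le_of_eq ?_)
  · rw [Ex_const_mul]
    have hr' := mem_range.1 hr
    refine mul_le_mul' (ENNReal.ofReal_le_ofReal ?_) ?_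
    · have := pow_le_pow_right₀ hρ hr'.le
      rwa [pow_mul, hk] at this
    · refine hD q h0 h1 k Y s (fun j => ph ρ (j.val + r)) (fun j => nn ρ (j.val + r))
        (fun j => nn_pos hρ _) (fun j => ?_) fun i j hij => ?_
      · have hj := j.2
        have := ph_top (M := M) (l := j.val + r + 1) hρ hk (by rw [mul_add]; omega)
        simp only [ph] at this ⊢
        omega
      · rw [← hij, show i.val + 1 + r = i.val + r + 1 by omega]
        simp only [ph]
        omega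
  · rw [card_range, nsmul_eq_mul, ← mul_assoc, ← ENNReal.ofReal_natCast,
      ← ENNReal.ofReal_mul (by positivity)]
    push_cast
    rfl

theorem cut (q : ℝ) {k : ℕ} (y m : ℕ) (s : St k) (E : Set (ℕ → St k)) (β H : ENNReal)
    (hE : ∀ x x', (∀ t, t ≤ y → x t = x' t) → x ∈ E → x' ∈ E)
    (h : ∀ x, Path y s x → x ∈ E → β * hh q m (x y) ≤ H) :
    β * Pr q (y + m) s E ≤ H * Pr q y s E := by
  unfold Pr
  rw [split q y m s, ← Ex_const_mul, ← Ex_const_mul]
  · refine Ex_mono q fun x hx => ?_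
    by_cases hx' : x ∈ E
    · rw [Set.indicator_of_mem hx', one_mul, mul_one]; exact h x hx hx'
    · rw [Set.indicator_of_notMem hx']; simp
  · intro x x' hxx
    by_cases hx : x ∈ E
    · rw [Set.indicator_of_mem hx, Set.indicator_of_mem (hE x x' hxx hx)]
    · rw [Set.indicator_of_notMem hx, Set.indicator_of_notMem
        fun h' => hx (hE x' x (fun t ht => (hxx t ht).symm) h')]

theorem exp_le_pow {c a N' : ℝ} {N : ℕ} (hc : 0 ≤ c) (ha : Real.exp (-c) ≤ a) (hN : (N : ℝ) ≤ N') :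
    Real.exp (-(c * N')) ≤ a ^ N := by
  calc Real.exp (-(c * N')) ≤ Real.exp (N * -c) := Real.exp_le_exp.2 (by nlinarith)
    _ = Real.exp (-c) ^ N := Real.exp_nat_mul _ _
    _ ≤ a ^ N := pow_le_pow_left₀ (Real.exp_pos _).le ha N

theorem exp_inv_le {a : ℝ} (ha : 0 < a) : Real.exp (-(1 / a)) ≤ a := by
  rw [Real.exp_neg, inv_le_comm₀ (Real.exp_pos _) ha, ← one_div]
  linarith [Real.add_one_le_exp (1 / a)]

theorem base_cost (hB : BaseStmt) {q c0 c1 c2 S E : ℝ} (h0 : 0 < q) (h1 : q < 1) {k : ℕ} (s0 : ℤ)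
    (K : Fin k) {B d d0 bf : ℕ} (m : ℕ) {l : St k} (hB1 : 1 ≤ B) (hd0 : 1 ≤ d0) (hd : d0 ≤ d)
    (hl : ∀ i j : Fin k, i.val + 1 = j.val → l j < l i)
    (hbf : ∀ j : Fin k, j.val + (l K - l j).toNat / d < bf)
    (hc0 : 0 ≤ c0) (hc1 : 0 ≤ c1) (e0 : Real.exp (-c0) ≤ q) (e1 : Real.exp (-c1) ≤ 1 - q)
    (e2 : ENNReal.ofReal (Real.exp (-c2)) ≤ nb q B d)
    (hS : ((∑ j : Fin k, (l K - l j).toNat : ℕ) : ℝ) ≤ S)
    (hE : ((∑ j : Fin k, (l j - l K).toNat : ℕ) : ℝ) ≤ E) :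
    ENNReal.ofReal (Real.exp (-(c1 * (B * (k ^ 2 + S / d0)) + c0 * E + c2 * (k * bf)))) *
      hh q m l ≤ hh q (B * bf + m) (st k s0) := by
  refine le_trans (mul_le_mul_left ?_ _) (hB q h0 h1 k s0 K B d bf m l hB1 (hd0.trans hd) hl hbf)
  have hq : 0 ≤ 1 - q := by linarith
  have a1 : ((B * ∑ j : Fin k, (j.val + 1 + (l K - l j).toNat / d) : ℕ) : ℝ) ≤
      B * (k ^ 2 + S / d0) := by
    have hd0' : (0 : ℝ) < d0 := by exact_mod_cast hd0
    rw [Nat.cast_mul]
    refine mul_le_mul_of_nonneg_left ?_ (by positivity)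
    have b1 : ((∑ j : Fin k, (j.val + 1 + (l K - l j).toNat / d) : ℕ) : ℝ) ≤
        ∑ j : Fin k, ((k : ℝ) + ((l K - l j).toNat : ℝ) / d0) := by
      rw [Nat.cast_sum]
      refine sum_le_sum fun j _ => ?_
      rw [Nat.cast_add]
      refine add_le_add (by exact_mod_cast j.2) (Nat.cast_div_le.trans ?_)
      exact div_le_div_of_nonneg_left (by positivity) hd0' (by exact_mod_cast hd)
    refine b1.trans ?_
    rw [sum_add_distrib, sum_const, card_univ, Fintype.card_fin, nsmul_eq_mul, ← sum_div,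
      ← Nat.cast_sum]
    have b2 := div_le_div_of_nonneg_right hS hd0'.le
    nlinarith
  rw [neg_add, neg_add, Real.exp_add, Real.exp_add, ENNReal.ofReal_mul (by positivity)]
  refine mul_le_mul' (ENNReal.ofReal_le_ofReal (mul_le_mul (exp_le_pow hc1 e1 a1)
    (exp_le_pow hc0 e0 hE) (Real.exp_pos _).le (by positivity))) ?_
  refine le_trans (le_of_eq ?_) (pow_le_pow_left' e2 _)
  rw [← ENNReal.ofReal_pow (Real.exp_pos _).le, ← Real.exp_nat_mul]
  push_cast
  congr 2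
  ring

/-- the event cut at row y -/
def Ecut (q A A1 L1 : ℝ) (k : ℕ) (s0 : ℤ) (C K L N y : ℕ) : Set (ℕ → St k) :=
  {x | (∀ j : Fin k, K ≤ j.val → (x y j : ℝ) ≤ s0 + q / (1 - q) * y + A * k) ∧
    (∀ j : Fin k, (x y j : ℝ) ≤ s0 + A1 * C * k) ∧ Sl q A s0 K y (x y) ≤ L1 ∧
      N ≤ ∑ t ∈ range y, cnt L (x t)}

theorem Ecut_dep (q A A1 L1 : ℝ) (k : ℕ) (s0 : ℤ) (C K L N y : ℕ) (x x' : ℕ → St k)
    (h : ∀ t, t ≤ y → x t = x' t) (hx : x ∈ Ecut q A A1 L1 k s0 C K L N y) :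
    x' ∈ Ecut q A A1 L1 k s0 C K L N y := by
  unfold Ecut at *
  simp only [Set.mem_ofPred_eq] at *
  rw [← h y le_rfl, ← sum_congr rfl fun t ht => congrArg (cnt L) (h t (mem_range.1 ht).le)]
  exact hx

theorem Ecut_bounds {q A A1 L1 T : ℝ} (h0 : 0 < q) (h1 : q < 1) (hA1 : 0 ≤ A1) {k : ℕ} {s0 : ℤ}
    {C L N y d d0 : ℕ} {K : Fin k} {x : ℕ → St k} (hx : Path y (st k s0) x)
    (hE : x ∈ Ecut q A A1 L1 k s0 C K.val L N y) (hy : y ≤ C * k) (hd0 : 1 ≤ d0) (hd : d0 ≤ d)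
    (hT : q / (1 - q) * C + A + 1 ≤ T) :
    (∀ j : Fin k, j.val + (x y K - x y j).toNat / d < k + ⌈T * k / d0⌉₊) ∧
    ((∑ j : Fin k, (x y K - x y j).toNat : ℕ) : ℝ) ≤ L1 ∧
    ((∑ j : Fin k, (x y j - x y K).toNat : ℕ) : ℝ) ≤ K.val * (A1 * C * k + k) := by
  obtain ⟨w1, w2, w3, -⟩ := hE
  have hq : 0 < 1 - q := by linarith
  have hα : 0 ≤ q / (1 - q) := by positivity
  have low : ∀ j : Fin k, (s0 : ℝ) - k ≤ x y j := by
    intro j
    have b1 := hx.mono (Nat.zero_le y) j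
    rw [hx.1] at b1
    have b2 := j.2
    have : s0 - k ≤ x y j := by simp only [st] at b1; omega
    exact_mod_cast this
  have cast : ∀ (z : ℤ) (c : ℝ), 0 ≤ c → (z : ℝ) ≤ c → (z.toNat : ℝ) ≤ c := by
    intro z c h1 h2
    rcases le_total z 0 with h | h
    · rw [Int.toNat_eq_zero.2 h]; simpa using h1
    · rw [← Int.cast_natCast, Int.toNat_of_nonneg h]; exact h2
  have wK := w1 K le_rfl
  refine ⟨fun j => ?_, ?_, ?_⟩
  · have hd0' : (0 : ℝ) < d0 := by exact_mod_cast hd0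
    have hy' : (y : ℝ) ≤ C * k := by exact_mod_cast hy
    have a0 : (s0 : ℝ) + q / (1 - q) * y + A * k - (s0 - k) ≤ T * k := by
      have := mul_le_mul_of_nonneg_left hy' hα
      have := mul_le_mul_of_nonneg_right hT (Nat.cast_nonneg (α := ℝ) k)
      nlinarith
    have a1 : ((x y K - x y j).toNat : ℝ) ≤ T * k :=
      cast _ _ (by linarith [low K]) (by push_cast; linarith [low j])
    have a2 : (((x y K - x y j).toNat / d : ℕ) : ℝ) ≤ ⌈T * k / d0⌉₊ := by
      refine Nat.cast_div_le.trans (le_trans ?_ (Nat.le_ceil _))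
      exact (div_le_div_of_nonneg_left (by positivity) hd0' (by exact_mod_cast hd)).trans
        (div_le_div_of_nonneg_right a1 hd0'.le)
    have a3 : (x y K - x y j).toNat / d ≤ ⌈T * k / d0⌉₊ := by exact_mod_cast a2
    have := j.2
    omega
  · refine le_trans ?_ w3
    rw [Nat.cast_sum]
    refine sum_le_sum fun j _ => ?_
    split_ifs with h
    · refine cast _ _ ?_ ?_
      · unfold U; linarith [w1 j h]
      · unfold U; push_cast; linarith
    · have := anti_of_strict (hx.strict y) (i := j) (j := K) (by omega)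
      rw [Int.toNat_eq_zero.2 (by omega)]
      simp
  · have hT0 : 0 ≤ A1 * C * k + k := by positivity
    calc ((∑ j : Fin k, (x y j - x y K).toNat : ℕ) : ℝ)
        ≤ ∑ j : Fin k, if ¬K.val ≤ j.val then A1 * C * k + k else 0 := by
          rw [Nat.cast_sum]
          refine sum_le_sum fun j _ => ?_
          split_ifs with h
          · have := anti_of_strict (hx.strict y) (i := K) (j := j) h
            rw [Int.toNat_eq_zero.2 (by omega)]
            simp
          · exact cast _ _ hT0 (by push_cast; linarith [w2 j, low K])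
      _ ≤ _ := by
          rw [← sum_filter, sum_const, nsmul_eq_mul]
          exact mul_le_mul_of_nonneg_right (by exact_mod_cast card_lt k K.val) hT0

theorem Pr_cover (q : ℝ) {k n : ℕ} {s : St k} (W A : Set (ℕ → St k)) (I : Finset ℕ)
    (E : ℕ → Set (ℕ → St k)) (h : ∀ x, Path n s x → x ∈ W → x ∉ A → ∃ y ∈ I, x ∈ E y) :
    Pr q n s W ≤ Pr q n s A + ∑ y ∈ I, Pr q n s (E y) := by
  unfold Pr
  rw [← Ex_sum, ← Ex_add]
  refine Ex_mono q fun x hx => ?_
  by_cases hW : x ∈ W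
  · rw [Set.indicator_of_mem hW]
    by_cases hA : x ∈ A
    · rw [Set.indicator_of_mem hA]; exact le_self_add
    · obtain ⟨y, hy, hE⟩ := h x hx hW hA
      refine le_trans ?_ le_add_self
      refine le_trans (le_of_eq ?_) (single_le_sum
        (f := fun y => (E y).indicator (fun _ => (1 : ENNReal)) x) (fun _ _ => bot_le) hy)
      simp only [Set.indicator_of_mem hE]
  · rw [Set.indicator_of_notMem hW]; exact bot_le

end Pool.Agent.MP_151d89_pr.H33
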