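import Pool.Agent.MP_151d89_pr.H33.Defs

set_option autoImplicit false
open MeasureTheory Filter

namespace Pool.Agent.MP_151d89_pr.H33

theorem tsum_pi {β : Type*} (k : ℕ) (f : Fin k → β → ENNReal) :
    ∑' a : Fin k → β, ∏ j, f j (a j) = ∏ j, ∑' b, f j b := by
  induction k with
  | zero => simp
  | succ k ih =>
    rw [← (Fin.consEquiv fun _ : Fin (k + 1) => β).tsum_eq, ENNReal.tsum_prod',
      Fin.prod_univ_succ, ← ih (fun j => f j.succ), ← ENNReal.tsum_mul_right]
    refine tsum_congr fun b => ?_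
    rw [← ENNReal.tsum_mul_left]
    refine tsum_congr fun a => ?_
    simp [Fin.prod_univ_succ, Fin.consEquiv]

theorem w_gf {q z : ℝ} (h0 : 0 < q) (h1 : q < 1) (hz : 0 ≤ z) (hqz : q * z < 1) :
    ∑' a : ℕ, w q a * ENNReal.ofReal (z ^ a) = ENNReal.ofReal ((1 - q) / (1 - q * z)) := by
  have hq : 0 ≤ 1 - q := by linarith
  have hqz0 : 0 ≤ q * z := by positivity
  have e : ∀ a : ℕ, w q a * ENNReal.ofReal (z ^ a) =
      ENNReal.ofReal ((1 - q) * (q * z) ^ a) := by
    intro a
    rw [w, ← ENNReal.ofReal_mul (by positivity), mul_pow, mul_assoc]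
  simp_rw [e]
  rw [← ENNReal.ofReal_tsum_of_nonneg (fun a => by positivity)
    ((summable_geometric_of_lt_one hqz0 hqz).mul_left _), tsum_mul_left,
    tsum_geometric_of_lt_one hqz0 hqz, div_eq_mul_inv]

theorem w_sum {q : ℝ} (h0 : 0 < q) (h1 : q < 1) : ∑' a : ℕ, w q a = 1 := by
  have := w_gf h0 h1 zero_le_one (by linarith : q * 1 < 1)
  simp only [one_pow, ENNReal.ofReal_one, mul_one] at this
  rw [this, div_self (by linarith), ENNReal.ofReal_one]

theorem W_sum {q : ℝ} (h0 : 0 < q) (h1 : q < 1) (k : ℕ) :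
    ∑' a : Fin k → ℕ, ∏ j, w q (a j) = 1 := by
  rw [tsum_pi k fun _ => w q]
  simp [w_sum h0 h1]

/-- prepend a state to a path -/
def cons {k : ℕ} (s : St k) (x : ℕ → St k) : ℕ → St k
  | 0 => s
  | y + 1 => x y

@[simp] theorem cons_zero {k : ℕ} (s : St k) (x : ℕ → St k) : cons s x 0 = s := rfl

@[simp] theorem cons_succ {k : ℕ} (s : St k) (x : ℕ → St k) (y : ℕ) : cons s x (y + 1) = x y := rfl

theorem path_zero {k : ℕ} {s : St k} {x : ℕ → St k} : Path 0 s x ↔ x = fun _ => s := by
  constructor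
  · rintro ⟨h1, -, h3⟩
    funext y
    rw [h3 y (Nat.zero_le _), h1]
  · rintro rfl
    exact ⟨rfl, fun y hy => absurd hy (Nat.not_lt_zero _), fun _ _ => rfl⟩

theorem path_cons {k n : ℕ} {s : St k} {x : ℕ → St k} :
    Path (n + 1) s (cons s x) ↔ Rel s (x 0) ∧ Path n (x 0) x := by
  constructor
  · rintro ⟨-, h2, h3⟩
    exact ⟨h2 0 (Nat.succ_pos _), rfl, fun y hy => h2 (y + 1) (by omega),
      fun y hy => h3 (y + 1) (by omega)⟩
  · rintro ⟨h1, -, h2, h3⟩
    refine ⟨rfl, fun y hy => ?_, fun y hy => ?_⟩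
    · cases y with
      | zero => exact h1
      | succ y => exact h2 y (by omega)
    · obtain ⟨y, rfl⟩ : ∃ z, y = z + 1 := ⟨y - 1, by omega⟩
      exact h3 y (by omega)

theorem wt_cons (q : ℝ) {k : ℕ} (n : ℕ) (s : St k) (x : ℕ → St k) :
    wt q (n + 1) (cons s x) = (∏ j, w q (x 0 j - s j).toNat) * wt q n x := by
  unfold wt
  rw [Finset.prod_range_succ', mul_comm]
  rfl

theorem Ex_zero (q : ℝ) {k : ℕ} (s : St k) (G : (ℕ → St k) → ENNReal) :
    Ex q 0 s G = G fun _ => s := by
  unfold Ex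
  rw [tsum_eq_single (fun _ => s)]
  · rw [if_pos (path_zero.2 rfl)]; simp [wt]
  · intro x hx
    rw [if_neg fun h => hx (path_zero.1 h)]

theorem add_sub {k : ℕ} (s : St k) (a : Fin k → ℕ) (j : Fin k) :
    (add s a j - s j).toNat = a j := by simp [add]

theorem Ex_succ (q : ℝ) {k : ℕ} (n : ℕ) (s : St k) (G : (ℕ → St k) → ENNReal) :
    Ex q (n + 1) s G = P q (fun m => Ex q n m fun x => G (cons s x)) s := by
  classical
  have e : P q (fun m => Ex q n m fun x => G (cons s x)) s =
      ∑' p : (Fin k → ℕ) × (ℕ → St k), if Rel s (add s p.1) ∧ Path n (add s p.1) p.2 then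
        (∏ j, w q (p.1 j)) * (wt q n p.2 * G (cons s p.2)) else 0 := by
    rw [ENNReal.tsum_prod']
    unfold P
    refine tsum_congr fun a => ?_
    by_cases h : Rel s (add s a)
    · rw [if_pos h]
      unfold Ex
      rw [← ENNReal.tsum_mul_left]
      refine tsum_congr fun x => ?_
      by_cases h' : Path n (add s a) x
      · simp only [h, h', and_self, if_true]
      · simp only [h, h', and_false, if_false, mul_zero]
    · simp only [h, false_and, if_false, mul_zero, tsum_zero]
  rw [e]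
  unfold Ex
  refine tsum_eq_tsum_of_ne_zero_bij (fun p => cons s p.1.2) ?_ ?_ ?_
  · rintro ⟨⟨a, x⟩, hp⟩ ⟨⟨a', x'⟩, hp'⟩ h
    have h1 : Path n (add s a) x := by
      by_contra hc
      exact hp (if_neg fun hh => hc hh.2)
    have h2 : Path n (add s a') x' := by
      by_contra hc
      exact hp' (if_neg fun hh => hc hh.2)
    have hx : x = x' := funext fun y => congrFun h (y + 1)
    have ha : a = a' := by
      funext j
      rw [← add_sub s a j, ← add_sub s a' j, ← h1.1, ← h2.1, hx]
    subst hx ha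
    rfl
  · intro x hx
    have h1 : Path (n + 1) s x := by
      by_contra hc
      exact hx (if_neg hc)
    have hx' : x = cons s fun y => x (y + 1) := by
      funext y
      cases y with
      | zero => exact h1.1
      | succ y => rfl
    have h2 := h1
    rw [hx', path_cons] at h2
    have ha : add s (fun j => (x 1 j - s j).toNat) = x 1 := by
      funext j
      have := h2.1.1 j
      simp only [add, zero_add] at this ⊢
      omega
    refine ⟨⟨(fun j => (x 1 j - s j).toNat, fun y => x (y + 1)), ?_⟩, hx'.symm⟩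
    rw [Function.mem_support] at hx ⊢
    rw [if_pos h1, hx', wt_cons, mul_assoc] at hx
    simp only
    rw [ha, if_pos h2]
    exact hx
  · rintro ⟨⟨a, x⟩, hp⟩
    have h1 : Rel s (add s a) ∧ Path n (add s a) x := by
      by_contra hc
      exact hp (if_neg hc)
    have h2 : Path (n + 1) s (cons s x) := by
      rw [path_cons, h1.2.1]; exact h1
    simp only
    rw [if_pos h1, if_pos h2, wt_cons, h1.2.1, mul_assoc]
    simp only [add_sub]

theorem Ex_mono (q : ℝ) {k n : ℕ} {s : St k} {G G' : (ℕ → St k) → ENNReal}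
    (h : ∀ x, Path n s x → G x ≤ G' x) : Ex q n s G ≤ Ex q n s G' := by
  unfold Ex
  refine ENNReal.tsum_le_tsum fun x => ?_
  split_ifs with hx
  · exact mul_le_mul_right (h x hx) _
  · exact le_rfl

theorem Ex_congr (q : ℝ) {k n : ℕ} {s : St k} {G G' : (ℕ → St k) → ENNReal}
    (h : ∀ x, Path n s x → G x = G' x) : Ex q n s G = Ex q n s G' :=
  le_antisymm (Ex_mono q fun x hx => (h x hx).le) (Ex_mono q fun x hx => (h x hx).ge)

theorem Ex_add (q : ℝ) {k : ℕ} (n : ℕ) (s : St k) (G G' : (ℕ → St k) → ENNReal) :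
    Ex q n s (fun x => G x + G' x) = Ex q n s G + Ex q n s G' := by
  unfold Ex
  rw [← ENNReal.tsum_add]
  refine tsum_congr fun x => ?_
  split_ifs
  · rw [mul_add]
  · rw [add_zero]

theorem Ex_const_mul (q : ℝ) {k : ℕ} (n : ℕ) (s : St k) (c : ENNReal)
    (G : (ℕ → St k) → ENNReal) : Ex q n s (fun x => c * G x) = c * Ex q n s G := by
  unfold Ex
  rw [← ENNReal.tsum_mul_left]
  refine tsum_congr fun x => ?_
  split_ifs
  · ring
  · rw [mul_zero]

theorem Ex_zero_fun (q : ℝ) {k : ℕ} (n : ℕ) (s : St k) : Ex q n s (fun _ => 0) = 0 := by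
  unfold Ex
  simp

theorem Ex_sum (q : ℝ) {k : ℕ} (n : ℕ) (s : St k) {ι : Type*} (I : Finset ι)
    (G : ι → (ℕ → St k) → ENNReal) :
    Ex q n s (fun x => ∑ i ∈ I, G i x) = ∑ i ∈ I, Ex q n s (G i) := by
  classical
  induction I using Finset.induction_on with
  | empty => simp [Ex_zero_fun]
  | insert i I hi ih => simp only [Finset.sum_insert hi]; rw [Ex_add, ih]

theorem Ex_tsum (q : ℝ) {k : ℕ} (n : ℕ) (s : St k) {ι : Type*}
    (G : ι → (ℕ → St k) → ENNReal) :
    Ex q n s (fun x => ∑' i, G i x) = ∑' i, Ex q n s (G i) := by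
  unfold Ex
  rw [ENNReal.tsum_comm]
  refine tsum_congr fun x => ?_
  split_ifs
  · rw [ENNReal.tsum_mul_left]
  · simp

theorem Pr_mono (q : ℝ) {k n : ℕ} {s : St k} {A B : Set (ℕ → St k)}
    (h : ∀ x, Path n s x → x ∈ A → x ∈ B) : Pr q n s A ≤ Pr q n s B := by
  refine Ex_mono q fun x hx => ?_
  by_cases hA : x ∈ A
  · rw [Set.indicator_of_mem hA, Set.indicator_of_mem (h x hx hA)]
  · rw [Set.indicator_of_notMem hA]; exact bot_le

theorem Pr_le_hh (q : ℝ) {k : ℕ} (n : ℕ) (s : St k) (A : Set (ℕ → St k)) :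
    Pr q n s A ≤ hh q n s :=
  Ex_mono q fun x _ => Set.indicator_le_self' (fun _ _ => bot_le) x

theorem Pr_add_compl (q : ℝ) {k : ℕ} (n : ℕ) (s : St k) (A : Set (ℕ → St k)) :
    Pr q n s A + Pr q n s Aᶜ = hh q n s := by
  unfold Pr hh
  rw [← Ex_add]
  refine Ex_congr q fun x _ => ?_
  by_cases hA : x ∈ A
  · simp [hA]
  · simp [hA]

/-- Markov inequality -/
theorem Pr_markov (q : ℝ) {k n : ℕ} {s : St k} {A : Set (ℕ → St k)} {G : (ℕ → St k) → ENNReal}
    {c : ENNReal} (h : ∀ x, Path n s x → x ∈ A → c ≤ G x) : c * Pr q n s A ≤ Ex q n s G := by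
  unfold Pr
  rw [← Ex_const_mul]
  refine Ex_mono q fun x hx => ?_
  by_cases hA : x ∈ A
  · rw [Set.indicator_of_mem hA, mul_one]; exact h x hx hA
  · rw [Set.indicator_of_notMem hA, mul_zero]; exact bot_le

theorem P_mono (q : ℝ) {k : ℕ} {G G' : St k → ENNReal} {l : St k}
    (h : ∀ m, Rel l m → G m ≤ G' m) : P q G l ≤ P q G' l := by
  unfold P
  refine ENNReal.tsum_le_tsum fun a => mul_le_mul_right ?_ _
  split_ifs with ha
  · exact h _ ha
  · exact le_rfl

theorem P_const_mul (q : ℝ) {k : ℕ} (c : ENNReal) (G : St k → ENNReal) (l : St k) :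
    P q (fun m => c * G m) l = c * P q G l := by
  unfold P
  rw [← ENNReal.tsum_mul_left]
  refine tsum_congr fun a => ?_
  split_ifs
  · ring
  · simp

theorem P_le (q : ℝ) {k : ℕ} (G : St k → ENNReal) (l : St k) :
    P q G l ≤ ∑' a : Fin k → ℕ, (∏ j, w q (a j)) * G (add l a) := by
  unfold P
  refine ENNReal.tsum_le_tsum fun a => mul_le_mul_right ?_ _
  split_ifs
  · exact le_rfl
  · exact bot_le

theorem hh_zero (q : ℝ) {k : ℕ} (s : St k) : hh q 0 s = 1 := Ex_zero q s _

theorem hh_succ (q : ℝ) {k : ℕ} (n : ℕ) (s : St k) : hh q (n + 1) s = P q (hh q n) s :=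
  Ex_succ q n s _

theorem hh_succ_le {q : ℝ} (h0 : 0 < q) (h1 : q < 1) {k : ℕ} (n : ℕ) (s : St k) :
    hh q (n + 1) s ≤ hh q n s := by
  induction n generalizing s with
  | zero =>
    rw [hh_succ, hh_zero]
    refine (P_le q _ s).trans ?_
    simp only [hh_zero, mul_one]
    exact (W_sum h0 h1 k).le
  | succ n ih =>
    rw [hh_succ, hh_succ q n]
    exact P_mono q fun m _ => ih m

theorem hh_anti {q : ℝ} (h0 : 0 < q) (h1 : q < 1) {k : ℕ} {n n' : ℕ} (h : n ≤ n') (s : St k) :
    hh q n' s ≤ hh q n s :=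
  antitone_nat_of_succ_le (f := fun n => hh q n s) (fun n => hh_succ_le h0 h1 n s) h

theorem hh_le_one {q : ℝ} (h0 : 0 < q) (h1 : q < 1) {k : ℕ} (n : ℕ) (s : St k) :
    hh q n s ≤ 1 := (hh_anti h0 h1 (Nat.zero_le n) s).trans (hh_zero q s).le

theorem hh_gap (q : ℝ) {k : ℕ} (n : ℕ) {l m : St k}
    (h : ∀ i j : Fin k, i.val + 1 = j.val → l i - l j ≤ m i - m j) : hh q n l ≤ hh q n m := by
  induction n generalizing l m with
  | zero => rw [hh_zero, hh_zero]
  | succ n ih =>
    rw [hh_succ, hh_succ]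
    unfold P
    refine ENNReal.tsum_le_tsum fun a => mul_le_mul_right ?_ _
    by_cases hl : Rel l (add l a)
    · have hm : Rel m (add m a) := by
        refine ⟨fun j => by simp [add], fun i j hij => ?_⟩
        have h1 := hl.2 i j hij
        have h2 := h i j hij
        simp only [add] at h1 ⊢
        omega
      rw [if_pos hl, if_pos hm]
      refine ih fun i j hij => ?_
      have h2 := h i j hij
      simp only [add]
      omega
    · rw [if_neg hl]; exact bot_le

/-- supermartingale bound -/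
theorem super (q : ℝ) {k : ℕ} (β Φ : St k → ENNReal) (h : ∀ l, β l * P q Φ l ≤ Φ l) (n : ℕ)
    (s : St k) :
    Ex q n s (fun x => (∏ y ∈ Finset.range n, β (x y)) * Φ (x n)) ≤ Φ s := by
  induction n generalizing s with
  | zero => rw [Ex_zero]; simp
  | succ n ih =>
    rw [Ex_succ]
    refine le_trans ?_ (h s)
    rw [← P_const_mul]
    refine P_mono q fun m _ => ?_
    refine le_trans (le_of_eq ?_) (mul_le_mul_right (ih m) (β s))
    rw [← Ex_const_mul]
    refine Ex_congr q fun x _ => ?_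
    rw [Finset.prod_range_succ']
    simp only [cons_succ, cons_zero]
    ring

/-- Markov property at time y -/
theorem split (q : ℝ) {k : ℕ} (y m : ℕ) (s : St k) (G : (ℕ → St k) → ENNReal)
    (hG : ∀ x x', (∀ t, t ≤ y → x t = x' t) → G x = G x') :
    Ex q (y + m) s G = Ex q y s fun x => G x * hh q m (x y) := by
  induction y generalizing s G with
  | zero =>
    rw [Ex_zero, zero_add, hh, ← Ex_const_mul]
    refine Ex_congr q fun x hx => ?_
    rw [mul_one]
    refine hG _ _ fun t ht => ?_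
    rw [Nat.le_zero.1 ht]; exact hx.1
  | succ y ih =>
    rw [show y + 1 + m = y + m + 1 by omega, Ex_succ, Ex_succ]
    congr 1
    funext l
    refine ih l _ fun x x' h => hG _ _ fun t ht => ?_
    cases t with
    | zero => rfl
    | succ t => exact h t (by omega)

theorem Path.step {k n : ℕ} {s : St k} {x : ℕ → St k} (h : Path n s x) (y : ℕ) (j : Fin k) :
    x y j ≤ x (y + 1) j := by
  by_cases hy : y < n
  · exact (h.2.1 y hy).1 j
  · rw [h.2.2 y (by omega), h.2.2 (y + 1) (by omega)]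

theorem Path.mono {k n : ℕ} {s : St k} {x : ℕ → St k} (h : Path n s x) {y y' : ℕ} (hy : y ≤ y')
    (j : Fin k) : x y j ≤ x y' j :=
  monotone_nat_of_le_succ (f := fun y => x y j) (fun y => h.step y j) hy

theorem Path.strict {k n : ℕ} {s0 : ℤ} {x : ℕ → St k} (h : Path n (st k s0) x) (y : ℕ)
    (i j : Fin k) (hij : i.val + 1 = j.val) : x y j < x y i := by
  have key : ∀ y, y ≤ n → x y j < x y i := by
    intro y hy
    cases y with
    | zero => rw [h.1]; simp only [st]; omega
    | succ y => exact ((h.2.1 y (by omega)).2 i j hij).2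
  by_cases hy : y ≤ n
  · exact key y hy
  · rw [h.2.2 y (by omega)]; exact key n le_rfl

theorem anti_of_strict {k : ℕ} {l : St k} (h : ∀ i j : Fin k, i.val + 1 = j.val → l j < l i)
    {i j : Fin k} (hij : i.val ≤ j.val) : l j + (j.val - i.val : ℤ) ≤ l i := by
  obtain ⟨d, hd⟩ := Nat.exists_eq_add_of_le hij
  induction d generalizing j with
  | zero => rw [show j = i from Fin.ext (by omega)]; omega
  | succ d ih =>
    have hj := j.2
    have h1 := ih (j := ⟨i.val + d, by omega⟩) (by simp) rfl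
    have h2 := h ⟨i.val + d, by omega⟩ j (by simp only; omega)
    simp only at h1
    omega

theorem wt_eq {q : ℝ} (h0 : 0 < q) (h1 : q < 1) {k n : ℕ} {s : St k} {x : ℕ → St k}
    (h : Path n s x) :
    wt q n x = ENNReal.ofReal ((1 - q) ^ (k * n) * q ^ (∑ j, (x n j - s j).toNat)) := by
  have hq : 0 ≤ 1 - q := by linarith
  have key : ∀ m, wt q m x =
      ENNReal.ofReal ((1 - q) ^ (k * m) * q ^ (∑ j, (x m j - s j).toNat)) := by
    intro m
    induction m with
    | zero => simp [wt, h.1]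
    | succ m ih =>
      unfold wt at ih ⊢
      rw [Finset.prod_range_succ, ih]
      unfold w
      rw [← ENNReal.ofReal_prod_of_nonneg (fun j _ => by positivity),
        ← ENNReal.ofReal_mul (by positivity), Finset.prod_mul_distrib, Finset.prod_const,
        Finset.prod_pow_eq_pow_sum, Finset.card_univ, Fintype.card_fin]
      have e : ∑ j, (x (m + 1) j - s j).toNat =
          ∑ j, (x m j - s j).toNat + ∑ j, (x (m + 1) j - x m j).toNat := by
        rw [← Finset.sum_add_distrib]
        refine Finset.sum_congr rfl fun j _ => ?_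
        have a1 := h.step m j
        have a2 := h.mono (Nat.zero_le m) j
        rw [h.1] at a2
        omega
      rw [e, pow_add, mul_add, pow_add, mul_one]
      congr 1
      ring
  exact key n

end Pool.Agent.MP_151d89_pr.H33
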